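import Pool.Agent.W_448kf_h15.KfF
import Pool.Agent.W_448mp_h83.MpA

/-!
MP_448cb3_co, G2, case B, window `j`: `F` of a part with four sites and the pattern [DL].  helper15.
-/

namespace Pool.Agent.GaussPoset.Win.W4

set_option linter.unusedSectionVars false

open Finset
open Pool.Agent.GaussPoset.Win.SO (PN vp con on mem_PN vp_PD vp_PU TD)

universe u

variable {P : Type u} [Fintype P] [PartialOrder P] [DecidableEq P] {r i : ℕ}
variable {psi : P → P} {C K : Finset P} {w v : P} {m : ℕ} {x : ℕ → P}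

lemma PRow.card_st (W : PRow r i C m x) : (st i C).card = m + 1 := by
  have e : st i C = (range (m + 1)).image x := by
    ext y
    rw [mem_st, mem_image]
    constructor
    · rintro ⟨h1, h2⟩
      obtain ⟨k, hk, rfl⟩ := W.surj y h1 h2
      exact ⟨k, mem_range.2 (by omega), rfl⟩
    · rintro ⟨k, hk, rfl⟩
      rw [mem_range] at hk
      exact ⟨W.mem k (by omega), W.lev_x k (by omega)⟩
  rw [e, card_image_of_injOn, card_range]
  intro k hk l hl hkl
  rw [coe_range, Set.mem_Iio] at hk hl
  exact W.inj k l (by omega) (by omega) hkl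

lemma PRow.ed_sub (W : PRow r i C m x) {k : ℕ} (hk : k < m) : ed x k ⊆ st i C := by
  intro y hy
  unfold ed at hy
  rw [mem_insert, mem_singleton] at hy
  rw [mem_st]
  rcases hy with rfl | rfl
  · exact ⟨W.mem k (by omega), W.lev_x k (by omega)⟩
  · exact ⟨W.mem (k + 1) (by omega), W.lev_x (k + 1) (by omega)⟩

lemma Z4_sites (H : Gr P r) (hC : Part (i + 1) C) {z : P} (hz : z ∈ Z4 i C) :
    (sit i z).card = 3 ∧ sit i z ⊆ st i C := by
  rcases Z4_cases hz with ⟨h1, h2, h3⟩ | ⟨h1, h2, h3⟩
  · refine ⟨?_, SO.sit_part H hC h1⟩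
    rw [sit_low H (by omega)]
    rw [← card_sts] at h3
    exact h3
  · refine ⟨?_, SO.sit_part H hC h1⟩
    rw [sit_upp H (by omega)]
    rw [← card_stD] at h3
    exact h3

namespace DLr

variable (h : DLr r i K psi C w v m x)
include h

lemma Z4_term3 (hm3 : m = 3) {z : P} (hz : z ∈ Z4 i C) : Nx i w z = 0 ∧ Nx i v z = 0 := by
  classical
  obtain ⟨h1, h2⟩ := Z4_sites h.W.H h.W.hC hz
  have h3 := h.W.card_st
  have key : ∀ k, k < m → ¬ Disjoint (ed x k) (sit i z) := by
    intro k hk hd
    have h4 : ed x k ∪ sit i z ⊆ st i C := union_subset (h.W.ed_sub hk) h2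
    have h5 := card_le_card h4
    rw [card_union_of_disjoint hd, h.W.card_ed hk] at h5
    omega
  constructor
  · unfold Nx
    rw [h.nw, if_neg (key 0 (by omega))]
  · unfold Nx
    rw [h.nv, if_neg (key 1 (by omega))]

lemma Zs_three (hm3 : m = 3) : Zs i C w v = 2 * ((Z4 i C).card - (T4 i C).card : ℤ) := by
  unfold Zs
  rw [sum_eq_zero, mul_zero, sub_zero]
  intro z hz
  obtain ⟨h1, h2⟩ := h.Z4_term3 hm3 hz
  rw [h1, h2]
  ring

lemma sum_big3 (hm3 : m = 3) :
    ∑ z ∈ PN i C, vp i z * (Nx i w z * (dg i K C (x 0) + Ds i K C (sit i z) {x 0, x 1}) -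
        Nx i v z * (dg i K C (x 2) + Ds i K C (sit i z) {x 1, x 2})) =
      dg i K C (x 0) + dg i K C (x 2) + dg i K C (x 3) - 2 := by
  have e1 := h.sum_PN (fun z => vp i z)
    (fun T => (if Disjoint (nz i w) T then (1 : ℤ) else 0) *
      (dg i K C (x 0) + Ds i K C T {x 0, x 1}) -
      (if Disjoint (nz i v) T then (1 : ℤ) else 0) * (dg i K C (x 2) + Ds i K C T {x 1, x 2}))
  have e2 : ∑ z ∈ PN i C, vp i z * (Nx i w z * (dg i K C (x 0) + Ds i K C (sit i z) {x 0, x 1}) -
        Nx i v z * (dg i K C (x 2) + Ds i K C (sit i z) {x 1, x 2})) =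
      ∑ z ∈ PN i C, vp i z * ((if Disjoint (nz i w) (sit i z) then (1 : ℤ) else 0) *
      (dg i K C (x 0) + Ds i K C (sit i z) {x 0, x 1}) -
      (if Disjoint (nz i v) (sit i z) then (1 : ℤ) else 0) *
        (dg i K C (x 2) + Ds i K C (sit i z) {x 1, x 2})) := rfl
  rw [e2, e1]
  simp only [← NE_eq]
  rw [range_split h.hm]
  have v0 : (if Disjoint (nz i w) (ed x 0) then (1 : ℤ) else 0) = 0 := by
    rw [h.Nw (by omega)]; norm_num
  have v2 : (if Disjoint (nz i w) (ed x 2) then (1 : ℤ) else 0) = 1 := by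
    rw [h.Nw (by omega)]; norm_num
  have u0 : (if Disjoint (nz i v) (ed x 0) then (1 : ℤ) else 0) = 0 := by
    rw [h.Nv (by omega)]; norm_num
  have u2 : (if Disjoint (nz i v) (ed x 2) then (1 : ℤ) else 0) = 0 := by
    rw [h.Nv (by omega)]; norm_num
  have e3 : Ico 3 m = ∅ := by rw [hm3]; rfl
  rw [e3, sum_empty, v0, v2, u0, u2, h.NE1, h.NE2, h.Ds0 le_rfl (by omega)]
  ring

lemma deg3' (hm3 : m = 3) : (dc (x 3)).card = 1 + (pen (x 3)).card := by
  have h1 := h.W.deg (k := 3) (by omega)
  rw [sum_eq_single 2] at h1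
  · rw [h.dns (by omega) (by omega) (by omega)] at h1
    norm_num at h1
    omega
  · intro l hl hne
    rw [mem_erase, mem_range] at hl
    rw [h.dns (by omega) (by omega) (Ne.symm hl.1)]
    split_ifs <;> omega
  · intro h2
    exact absurd (mem_erase.2 ⟨by omega, mem_range.2 (by omega)⟩) h2

/-- THE VALUE of `F`, four sites -/
theorem F_form3 (hm3 : m = 3) : Fv i C =
    (NE i C x 0 + (uc (x 0)).card - 1 - (pen (x 2)).card) ^ 2 +
    (NE i C x 0 + (uc (x 0)).card - 1 - (pen (x 2)).card) + 8 +
    2 * ((Z4 i C).card - (T4 i C).card : ℤ) - CH i C x 2 -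
    2 * ((uc (x 3)).card - 1) - 2 * (pen (x 3)).card := by
  have hm := h.hm
  have g0 := h.dg0
  have g1 := h.dg1
  have g2 := h.dg2
  have g3 := h.dg3
  rw [h.deg3' hm3] at g3
  have q1 := h.sum_QS
  rw [QS_bot _ (by omega), QS_bot _ (by omega), QS_bot _ (by omega)] at q1
  rw [if_pos (by omega), if_pos (by omega), if_neg (by omega), h.NE1, h.NE2] at q1
  have e3 : QS (NE i C x) (0 + 1 + 1 + 1) m = 0 := by
    rw [hm3]
    exact QS_self _ _
  rw [e3] at q1
  have q2 := h.sum_vp_split
  have e4 : Ico 3 m = ∅ := by rw [hm3]; rfl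
  rw [h.NE2, e4, sum_empty] at q2
  have a1 := h.Q.al2 h.hw h.hv h.n01 h.n12 h.n02
  have a2 := h.Q.form h.hw h.hv h.n01 h.n12 h.n02 h.w32
  have m1 : mm i K C {x 0, x 1} = 1 := by
    have := h.mmx (a := 0) (b := 1) (by omega) (by omega)
    norm_num at this
    exact this
  have m2 : mm i K C {x 1, x 2} = 0 := by
    have := h.mmx (a := 1) (b := 2) (by omega) (by omega)
    norm_num at this
    exact this
  have m3 : mm i K C {x 0, x 2} = 0 := by
    have := h.mmx (a := 0) (b := 2) (by omega) (by omega)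
    norm_num at this
    exact this
  have s1 : ∑ z ∈ PN i C, vp i z * (ch i C z * (Nx i w z - Nx i v z) +
      2 * (Mx i w z - Mx i v z)) = CH i C x 2 + 2 * (- NE i C x 0 - 1) := by
    rw [← h.sum_ch, ← h.sum_mx, mul_sum, ← sum_add_distrib]
    exact sum_congr rfl fun z _ => by ring
  have s2 : ∑ z ∈ Z4 i C, tz i z * (Nx i w z - Nx i v z) = 0 := by
    refine sum_eq_zero fun z hz => ?_
    obtain ⟨h1, h2⟩ := h.Z4_term3 hm3 hz
    rw [h1, h2]
    ring
  rw [s1, s2, h.sum_big3 hm3, m1, m2, m3, g0, g1, g2, g3] at a2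
  rw [m1, m2, g0, g2] at a1
  unfold Fv
  rw [a2, a1, q2]
  rw [q2] at q1
  push_cast
  linear_combination q1

/-- the children of the pendants over `x 2, x 3` -/
lemma CH2_le : CH i C x 2 ≤ ∑ a ∈ DE i C x 2, (2 * ((pen a).card : ℤ)) +
    (DE i C x 2).card * ((DE i C x 2).card - 1) := by
  classical
  have H := h.W.H
  have hm := h.hm
  unfold CH
  have e1 : (PN i C).filter (fun z => sit i z = ed x 2) = DE i C x 2 ∪ UE i C x 2 := by
    rw [PN_eq, filter_union]
    rfl
  have e2 : Disjoint (DE i C x 2) (UE i C x 2) := disjoint_filter_filter (DC_UC i C)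
  rw [e1, sum_union e2]
  have e3 : ∑ z ∈ UE i C x 2, vp i z * ch i C z ≤ 0 := by
    refine sum_nonpos fun z hz => ?_
    rw [vp_PU (mem_UE.1 hz).2.1]
    have := h.W.ch_nonneg (C := C) z
    linarith
  have e4 : ∑ z ∈ DE i C x 2, vp i z * ch i C z =
      ∑ a ∈ DE i C x 2, (2 * ((pen a).card : ℤ)) +
        (DE i C x 2).card * ((DE i C x 2).card - 1) := by
    have e5 : ∀ z ∈ DE i C x 2, vp i z * ch i C z =
        2 * ((pen z).card : ℤ) + ((DE i C x 2).card - 1) := by
      intro a ham
      obtain ⟨haC, haP, has⟩ := mem_DE.1 ham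
      obtain ⟨-, y, -, -, -, -, -, hor⟩ := PN_dat H (C := C) (mem_PN.2 ⟨haC, Or.inl haP⟩)
      rcases hor with ⟨-, hla, hly, h4, h5, -, -⟩ | ⟨h3, -⟩
      swap
      · have := lev_PU h3
        have := lev_PD haP
        omega
      have hyC : y ∈ C := h.W.hC.up haC (mem_uc.1 (by rw [h4]; exact mem_singleton_self y))
      have hye : uc y = ed x 2 := by rw [← h5, has]
      have hdcv := h.dn 2 3 (by omega) (by omega)
      rw [if_pos (by omega), if_neg (by omega), if_neg (by omega)] at hdcv
      unfold dcv at hdcv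
      obtain ⟨s, hs⟩ := card_eq_one.1 hdcv
      have huniq : ∀ y', uc y' = ed x 2 → y' = s := by
        intro y' hy'
        have : y' ∈ ({s} : Finset P) := by
          rw [← hs, mem_filter]
          refine ⟨mem_univ _, ?_, ?_⟩
          · rw [← mem_uc, hy']
            exact (h.W.mem_ed (by omega) (by omega)).2 (Or.inl rfl)
          · rw [← mem_uc, hy']
            exact (h.W.mem_ed (by omega) (by omega)).2 (Or.inr rfl)
        exact mem_singleton.1 this
      have hpy : pen y = DE i C x 2 := by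
        ext g
        constructor
        · intro hg
          have hgu := uc_pen hg
          have hgl := lev_cov H (mem_pen.1 hg).1
          have hgC := h.W.cl g y hyC hgu
          refine mem_DE.2 ⟨hgC, mem_PD.2 ⟨by omega, by rw [hgu, card_singleton], y,
            (mem_pen.1 hg).1, ?_⟩, ?_⟩
          · rw [hye]
            exact h.W.card_ed (by omega)
          · rw [SO.sit_PD H (by omega) hgu, hye]
        · intro hg
          obtain ⟨hgC, hgP, hgs⟩ := mem_DE.1 hg
          obtain ⟨-, y', -, -, -, -, -, hor'⟩ := PN_dat H (C := C) (mem_PN.2 ⟨hgC, Or.inl hgP⟩)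
          rcases hor' with ⟨-, hlg, hly', g4, g5, -, -⟩ | ⟨g3, -⟩
          swap
          · have := lev_PU g3
            have := lev_PD hgP
            omega
          have hye' : uc y' = ed x 2 := by rw [← g5, hgs]
          have hyy : y' = y := (huniq y' hye').trans (huniq y hye).symm
          subst hyy
          exact mem_pen.2 ⟨mem_uc.1 (by rw [g4]; exact mem_singleton_self y'),
            by rw [g4, card_singleton]⟩
      rw [vp_PD haP, h.W.ch_PD haP haC h4, hpy]
      ring
    rw [sum_congr rfl e5, sum_add_distrib, sum_const, nsmul_eq_mul]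
  rw [e4]
  linarith

lemma UE_le (k : ℕ) : (UE i C x k).card ≤ 1 :=
  (card_le_card (filter_subset _ _)).trans h.W.uc1

/-- the pendants over `x 2, x 3`: one lower, or two lower and one upper -/
lemma DE2_cases : ((DE i C x 2).card = 1 ∧ UE i C x 2 = ∅) ∨
    ((DE i C x 2).card = 2 ∧ (UE i C x 2).card = 1) := by
  have h1 := h.NE2
  have h2 := h.UE_le 2
  unfold NE at h1
  rcases Nat.eq_zero_or_pos (UE i C x 2).card with h3 | h3
  · left
    exact ⟨by omega, card_eq_zero.1 h3⟩
  · right
    omega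

/-- `F ≥ 0`, four sites, one pendant over `x 2, x 3` -/
theorem F_three_one (hm3 : m = 3) (h1 : UE i C x 2 = ∅) : 0 ≤ Fv i C := by
  have h2 := h.CH2_le
  have h3 : (DE i C x 2).card = 1 := by
    rcases h.DE2_cases with h3 | h3
    · exact h3.1
    · rw [h1, card_empty] at h3
      omega
  obtain ⟨a, ha⟩ := card_eq_one.1 h3
  rw [ha, sum_singleton, card_singleton] at h2
  have h4 := h.W.pen_le a
  have h5 := h.W.dc_le (k := 3) (by omega)
  have h6 := h.deg3' hm3
  have h7 := h.W.uc_le (k := 3) (by omega)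
  have h8 := sq_add_nonneg (NE i C x 0 + (uc (x 0)).card - 1 - (pen (x 2)).card)
  have h9 := card_le_card (T4_subset i C)
  rw [h.F_form3 hm3]
  push_cast at h2
  omega

/-- two pendants below the same double cannot both have two private children -/
lemma pen_two {y a b : P} (hab : a ≠ b) (ha : a ∈ pen y) (hb : b ∈ pen y) :
    (pen a).card + (pen b).card ≤ 3 := by
  classical
  have H := h.W.H
  by_contra hcon
  have ha2 := h.W.pen_le a
  have hb2 := h.W.pen_le b
  have hpa : (pen a).card = 2 := by omega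
  have hpb : (pen b).card = 2 := by omega
  have hla := lev_cov H (mem_pen.1 ha).1
  have hlb := lev_cov H (mem_pen.1 hb).1
  have hua := uc_pen ha
  have hub := uc_pen hb
  -- all children of `a`, `b` are private
  have hdc : ∀ a : P, (pen a).card = 2 → dc a = pen a := by
    intro a h2
    have h3 : pen a ⊆ dc a := fun s hs => mem_dc.2 (mem_pen.1 hs).1
    symm
    refine eq_of_subset_of_card_le h3 ?_
    obtain ⟨g, hg⟩ := card_pos.1 (show 0 < (pen a).card by omega)
    rcases dc_card_cases H (mem_pen.1 hg).1 with h4 | h4 <;> omega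
  have hno : ∀ a : P, (pen a).card = 2 → ∀ c : P, c ≠ a → dcv a c = 0 := by
    intro a h2 c hc
    unfold dcv
    rw [card_eq_zero, filter_eq_empty_iff]
    intro g _ hg
    have h3 : g ∈ pen a := by
      rw [← hdc a h2]
      exact mem_dc.2 hg.1
    have h4 := uc_pen h3
    have h5 := mem_uc.2 hg.2
    rw [h4, mem_singleton] at h5
    exact hc h5
  obtain ⟨g, hg⟩ := card_pos.1 (show 0 < (pen a).card by omega)
  have hlg := lev_cov H (mem_pen.1 hg).1
  have hlr := H.lev_le g
  -- no common cover with another element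
  have hu0 : ∀ a : P, uc a = {y} → ∀ c : P, ucv a c ≠ 0 → c ⋖ y := by
    intro a h2 c hc
    unfold ucv at hc
    obtain ⟨s, hs⟩ := card_pos.1 (Nat.pos_of_ne_zero hc)
    rw [mem_filter] at hs
    have h3 := mem_uc.2 hs.2.1
    rw [h2, mem_singleton] at h3
    rw [← h3]
    exact hs.2.2
  have hdy : ∀ c : P, c ⋖ y → c = a ∨ c = b := by
    intro c hc
    by_contra h2
    push Not at h2
    have h3 : ({a, b, c} : Finset P) ⊆ dc y := by
      intro s hs
      rw [mem_insert, mem_insert, mem_singleton] at hs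
      rcases hs with rfl | rfl | rfl
      · exact mem_dc.2 (mem_pen.1 ha).1
      · exact mem_dc.2 (mem_pen.1 hb).1
      · exact mem_dc.2 hc
    have h4 := card_le_card h3
    rw [card_insert_of_notMem (by
      rw [mem_insert, mem_singleton]
      push Not
      exact ⟨hab, fun h5 => h2.1 h5.symm⟩), card_pair (fun h5 => h2.2 h5.symm)] at h4
    rcases dc_card_cases H hc with h5 | h5 <;> omega
  have key := Mp.pair_eq H (i := lev a) (by omega) rfl (by omega) hab (by
    intro c hlc hca hcb
    constructor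
    · rw [Mp.Df_val H rfl (Ne.symm hca), hno a hpa c hca]
      have : ucv a c = 0 := by
        by_contra h2
        rcases hdy c (hu0 a hua c h2) with h3 | h3
        · exact hca h3
        · exact hcb h3
      rw [this]
      rfl
    · rw [Mp.Df_val H (by omega) (Ne.symm hcb), hno b hpb c hcb]
      have : ucv b c = 0 := by
        by_contra h2
        rcases hdy c (hu0 b hub c h2) with h3 | h3
        · exact hca h3
        · exact hcb h3
      rw [this]
      rfl)
  rw [hno a hpa b (Ne.symm hab)] at key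
  have h2 : 0 < ucv a b := by
    unfold ucv
    refine card_pos.2 ⟨y, ?_⟩
    rw [mem_filter]
    exact ⟨mem_univ _, (mem_pen.1 ha).1, (mem_pen.1 hb).1⟩
  omega

/-- `F ≥ 0`, four sites, two lower pendants over `x 2, x 3` -/
theorem F_three_two (hm3 : m = 3) (h0 : (uc (x 0)).card = 2) (hp : pen (x 2) = ∅)
    (h1 : UE i C x 2 ≠ ∅) : 0 ≤ Fv i C := by
  classical
  have H := h.W.H
  have h2 := h.CH2_le
  have h3 : (DE i C x 2).card = 2 := by
    rcases h.DE2_cases with h3 | h3
    · exact absurd h3.2 h1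
    · exact h3.1
  obtain ⟨a, b, hab, hD⟩ := card_eq_two.1 h3
  -- both are below the double over `x 2, x 3`
  have hdcv := h.dn 2 3 (by omega) (by omega)
  rw [if_pos (by omega), if_neg (by omega), if_neg (by omega)] at hdcv
  unfold dcv at hdcv
  obtain ⟨s, hs⟩ := card_eq_one.1 hdcv
  have hb : ∀ a ∈ DE i C x 2, a ∈ pen s := by
    intro a ham
    obtain ⟨haC, haP, has⟩ := mem_DE.1 ham
    obtain ⟨-, y, -, -, -, -, -, hor⟩ := PN_dat H (C := C) (mem_PN.2 ⟨haC, Or.inl haP⟩)
    rcases hor with ⟨-, hla, hly, h4, h5, -, -⟩ | ⟨h3, -⟩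
    swap
    · have := lev_PU h3
      have := lev_PD haP
      omega
    have hye : uc y = ed x 2 := by rw [← h5, has]
    have : y ∈ ({s} : Finset P) := by
      rw [← hs, mem_filter]
      refine ⟨mem_univ _, ?_, ?_⟩
      · rw [← mem_uc, hye]
        exact (h.W.mem_ed (by omega) (by omega)).2 (Or.inl rfl)
      · rw [← mem_uc, hye]
        exact (h.W.mem_ed (by omega) (by omega)).2 (Or.inr rfl)
    rw [mem_singleton] at this
    subst this
    exact mem_pen.2 ⟨mem_uc.1 (by rw [h4]; exact mem_singleton_self y), by rw [h4, card_singleton]⟩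
  have h4 := h.pen_two hab (hb a (by rw [hD]; exact mem_insert_self _ _))
    (hb b (by rw [hD]; exact mem_insert_of_mem (mem_singleton_self _)))
  rw [hD, sum_pair hab, card_pair hab] at h2
  have h5 := h.W.dc_le (k := 3) (by omega)
  have h6 := h.deg3' hm3
  have h7 : (uc (x 3)).card = 1 := by
    rcases h.W.uc_le (k := 3) (by omega) with h7 | h7
    · exact h7
    · exfalso
      have h8 := h.W.ue_last (by omega) (by rw [hm3]; exact h7)
      rw [hm3] at h8
      exact h1 h8
  have h9 := card_le_card (T4_subset i C)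
  have h10 : 0 ≤ NE i C x 0 := by
    unfold NE
    rw [h.W.ue_zero (by omega) h0, card_empty]
    push_cast
    omega
  rw [h.F_form3 hm3, h0, hp, h7, card_empty]
  push_cast at h2 ⊢
  nlinarith

end DLr

end Pool.Agent.GaussPoset.Win.W4
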