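import Pool.Agent.W_448kf_h15.KfI

/-!
MP_448cb3_co, G2, case B, window `j`: a row of case B in the coordinates of the strip; `F ≥ 0` for the
patterns [DL] with four sites.  helper15.
-/

namespace Pool.Agent.GaussPoset.EK

set_option linter.unusedSectionVars false

open Finset Win St Polynomial Wd Win.W4
open Pool.Agent.GaussPoset.Win.SO (PN vp)

universe u

variable {P : Type u} [Fintype P] [PartialOrder P] [DecidableEq P] {r i j : ℕ}

variable {m : ℕ} {x : ℕ → P} {c : ℕ → ℤ} {β : ℤ} {t : Tops P}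

variable {K : Finset P} {psi : P → P} {lo hi : ℕ → ℕ} {e : ℕ → ℕ → P}

/-- neighbours of a strip -/
lemma strip_near (h : NJ P r j) (hj : 2 ≤ j) (C : Cp.Comp j (t : P) lo hi e) {a b : ℕ}
    (ha : lo j ≤ a) (ha' : a ≤ hi j) (hb : lo j ≤ b) (hb' : b ≤ hi j)
    (hu : ucv (e j a) (e j b) ≠ 0) : a ≤ b + 1 ∧ b ≤ a + 1 := by
  classical
  obtain ⟨n, rfl⟩ : ∃ n, j = n + 1 := ⟨j - 1, by omega⟩
  unfold ucv at hu
  obtain ⟨y, hy⟩ := card_pos.1 (Nat.pos_of_ne_zero hu)
  rw [mem_filter] at hy
  have hlv := C.lev_e (n + 1) a le_rfl ha ha'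
  have hly := lev_cov h.g.H hy.2.1
  have hyt : y ≤ (t : P) := Cp.up_le h.g.H h.g.good t.2 (C.le_t (n + 1) a le_rfl ha ha')
    (by omega) hy.2.1.le
  obtain ⟨s, s1, s2, s3⟩ := C.surj y hyt (by omega)
  have hl : lev y = n := by omega
  rw [hl] at s1 s2 s3
  subst s3
  have c1 := (C.cov n a s (by omega) ha ha' s1 s2).1 hy.2.1
  have c2 := (C.cov n b s (by omega) hb hb' s1 s2).1 hy.2.2
  omega

/-- THE ROW IN COORDINATES: the row of the strip, or its reverse -/
theorem RowB.orient (h : NJ P r j) (hj : 2 ≤ j) (B : RowB P j t m x c β)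
    (C : Cp.Comp j (t : P) lo hi e) : hi j = lo j + m ∧
      ((∀ k, k ≤ m → x k = e j (lo j + k)) ∨ (∀ k, k ≤ m → x k = e j (hi j - k))) := by
  classical
  have hlohi := C.lo_le j le_rfl
  have htop : ∀ v : P, v ≤ (t : P) → lev v = j → topOf v = t := by
    intro v hv hl
    refine Subtype.ext ?_
    exact Hul.top_unique (h.nj (by omega)) (topOf v).2 t.2 (le_topOf v) hv
  have hex : ∀ k, ∃ s, k ≤ m → lo j ≤ s ∧ s ≤ hi j ∧ e j s = x k := by
    intro k
    by_cases hk : k ≤ m
    · have hl := B.row.lev_x k hk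
      have hle : x k ≤ (t : P) := by
        rw [← B.row.kap k hk]
        exact le_topOf (x k)
      obtain ⟨s, s1, s2, s3⟩ := C.surj (x k) hle (by omega)
      rw [hl] at s1 s2 s3
      exact ⟨s, fun _ => ⟨s1, s2, s3⟩⟩
    · exact ⟨0, fun h => absurd h hk⟩
  choose s hs using hex
  have hinj : ∀ k l, k ≤ m → l ≤ m → s k = s l → k = l := by
    intro k l hk hl hkl
    refine B.row.inj k l hk hl ?_
    rw [← (hs k hk).2.2, ← (hs l hl).2.2, hkl]
  have hstep : ∀ k, k + 1 ≤ m → s (k + 1) = s k + 1 ∨ s k = s (k + 1) + 1 := by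
    intro k hk
    have h1 := B.ucv_x k (k + 1) (by omega) hk
    rw [if_pos rfl, ← (hs k (by omega)).2.2, ← (hs (k + 1) hk).2.2] at h1
    have h2 := strip_near h hj C (hs k (by omega)).1 (hs k (by omega)).2.1 (hs (k + 1) hk).1
      (hs (k + 1) hk).2.1 (by omega)
    have h3 : s k ≠ s (k + 1) := fun h4 => by
      have := hinj _ _ (by omega) hk h4
      omega
    omega
  have hsurj : ∀ b, lo j ≤ b → b ≤ hi j → ∃ k, k ≤ m ∧ s k = b := by
    intro b hb hb'
    have hl := C.lev_e j b le_rfl hb hb'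
    obtain ⟨k, hk, hk2⟩ := B.row.surj (e j b) hl (htop _ (C.le_t j b le_rfl hb hb') hl)
    refine ⟨k, hk, ?_⟩
    have h1 := hs k hk
    exact C.inj j (s k) b le_rfl h1.1 h1.2.1 hb hb' (by rw [h1.2.2, hk2])
  rcases Nat.eq_zero_or_pos m with hm | hm
  · subst hm
    obtain ⟨k, hk, hk2⟩ := hsurj (lo j) le_rfl hlohi
    obtain ⟨l, hl, hl2⟩ := hsurj (hi j) hlohi le_rfl
    have hk0 : k = 0 := by omega
    have hl0 : l = 0 := by omega
    subst hk0
    subst hl0
    refine ⟨by omega, Or.inl fun k hk => ?_⟩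
    have hk0 : k = 0 := by omega
    subst hk0
    rw [← (hs 0 le_rfl).2.2, hk2, add_zero]
  rcases hstep 0 hm with h0 | h0
  · -- upwards
    have key : ∀ k, k + 1 ≤ m → s k = s 0 + k ∧ s (k + 1) = s 0 + (k + 1) := by
      intro k
      induction k with
      | zero => intro _; exact ⟨rfl, h0⟩
      | succ k ih =>
        intro hk
        obtain ⟨i1, i2⟩ := ih (by omega)
        refine ⟨i2, ?_⟩
        rcases hstep (k + 1) hk with h1 | h1
        · omega
        · exfalso
          have : s k = s (k + 1 + 1) := by omega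
          have := hinj _ _ (by omega) hk this
          omega
    have hall : ∀ k, k ≤ m → s k = s 0 + k := by
      intro k hk
      rcases Nat.eq_zero_or_pos k with rfl | hk0
      · rfl
      · have := (key (k - 1) (by omega)).2
        rw [show k - 1 + 1 = k by omega] at this
        exact this
    obtain ⟨k, hk, hk2⟩ := hsurj (lo j) le_rfl hlohi
    obtain ⟨l, hl, hl2⟩ := hsurj (hi j) hlohi le_rfl
    have a1 := hs 0 (by omega)
    have a2 := hs m le_rfl
    have a3 := hall k hk
    have a4 := hall l hl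
    have a5 := hall m le_rfl
    refine ⟨by omega, Or.inl fun q hq => ?_⟩
    rw [← (hs q hq).2.2, hall q hq, show s 0 = lo j by omega]
  · -- downwards
    have key : ∀ k, k + 1 ≤ m → s k + k = s 0 ∧ s (k + 1) + (k + 1) = s 0 := by
      intro k
      induction k with
      | zero => intro _; exact ⟨rfl, h0.symm⟩
      | succ k ih =>
        intro hk
        obtain ⟨i1, i2⟩ := ih (by omega)
        refine ⟨i2, ?_⟩
        rcases hstep (k + 1) hk with h1 | h1
        · exfalso
          have : s k = s (k + 1 + 1) := by omega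
          have := hinj _ _ (by omega) hk this
          omega
        · omega
    have hall : ∀ k, k ≤ m → s k + k = s 0 := by
      intro k hk
      rcases Nat.eq_zero_or_pos k with rfl | hk0
      · rfl
      · have := (key (k - 1) (by omega)).2
        rw [show k - 1 + 1 = k by omega] at this
        exact this
    obtain ⟨k, hk, hk2⟩ := hsurj (lo j) le_rfl hlohi
    obtain ⟨l, hl, hl2⟩ := hsurj (hi j) hlohi le_rfl
    have a1 := hs 0 (by omega)
    have a2 := hs m le_rfl
    have a3 := hall k hk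
    have a4 := hall l hl
    have a5 := hall m le_rfl
    refine ⟨by omega, Or.inr fun q hq => ?_⟩
    have a6 := hall q hq
    rw [← (hs q hq).2.2, show s q = hi j - q by omega]

/-- four sites, left end closed, an upper pendant over the right end double: no pendant below `x 2` -/
theorem NJ.pen_two_zero (h : NJ P r j) (hj : 2 ≤ j) (B : RowB P j t 3 x c β)
    (hcl : (uc (x 0)).card = 2) (hU : UE j (cext (j + 1) (topOf : P → Tops P) t) x 2 ≠ ∅) :
    pen (x 2) = ∅ := by
  classical
  have H := h.g.H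
  have W := NJ.prow h hj B (by omega)
  obtain ⟨lo, hi, e, C⟩ := Cp.comp_exists h.g.H t.2 h.g.hr h.g.good
  have hS := NJ.s5c h hj C
  obtain ⟨n, rfl⟩ : ∃ n, j = n + 2 := ⟨j - 2, by omega⟩
  rw [show n + 2 - 1 = n + 1 by omega] at hS
  obtain ⟨hlen, hor⟩ := B.orient h hj C
  have s1 := C.lo_step n (by omega)
  have s2 := C.lo_step (n + 1) (by omega)
  have s3 := C.hi_step n (by omega)
  have s4 := C.hi_step (n + 1) (by omega)
  have s5 := C.lo_le n (by omega)
  have s6 := C.lo_le (n + 1) (by omega)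
  rw [show n + 1 + 1 = n + 2 by omega] at s2 s4
  have cov' : ∀ s a, lo (n + 2) ≤ s → s ≤ hi (n + 2) → lo (n + 1) ≤ a → a ≤ hi (n + 1) →
      (e (n + 2) s ⋖ e (n + 1) a ↔ a = s ∨ a + 1 = s) := fun s a => C.cov (n + 1) s a (by omega)
  have dbl' : ∀ s, lo (n + 2) ≤ s → s ≤ hi (n + 2) →
      ((uc (e (n + 2) s)).card = 2 ↔ lo (n + 1) < s ∧ s ≤ hi (n + 1)) := fun s g1 g2 =>
    C.double_up H h.g.good t.2 (k := n + 1) (by omega) g1 g2
  -- the upper pendant
  obtain ⟨z, hz⟩ := nonempty_iff_ne_empty.2 hU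
  obtain ⟨hzC, hzP, hzs⟩ := mem_UE.1 hz
  obtain ⟨-, u, -, -, -, -, -, hu⟩ := PN_dat H (C := cext (n + 2 + 1) (topOf : P → Tops P) t)
    (SO.mem_PN.2 ⟨hzC, Or.inr hzP⟩)
  rcases hu with ⟨g1, -⟩ | ⟨-, hlz, hlu, hdz, hsu, -⟩
  · have := lev_PU hzP
    have := lev_PD g1
    omega
  have hux2 : x 2 ⋖ u := by
    rw [← mem_dc, ← hsu, hzs]
    exact (W.mem_ed (by omega) (by omega)).2 (Or.inl rfl)
  have hux3 : x 3 ⋖ u := by
    rw [← mem_dc, ← hsu, hzs]
    exact (W.mem_ed (by omega) (by omega)).2 (Or.inr rfl)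
  have huz : u ⋖ z := by rw [← mem_dc, hdz]; exact mem_singleton_self u
  have hx2t : x 2 ≤ (t : P) := by
    rw [← B.row.kap 2 (by omega)]
    exact le_topOf (x 2)
  have hut : u ≤ (t : P) := Cp.up_le H h.g.good t.2 hx2t
    (by have := B.row.lev_x 2 (by omega); omega) hux2.le
  have hzt : z ≤ (t : P) := Cp.up_le H h.g.good t.2 hut (by omega) huz.le
  obtain ⟨a, a1, a2, a3⟩ := C.surj u hut (by omega)
  obtain ⟨b, b1, b2, b3⟩ := C.surj z hzt (by omega)
  have lu : lev u = n + 1 := by omega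
  have lz : lev z = n := by omega
  rw [lu] at a1 a2 a3
  rw [lz] at b1 b2 b3
  subst a3
  subst b3
  have hzd := (C.single_down H (k := n) (by omega) b1 b2).1 (lev_PU hzP).2
  have hcz := (C.cov n a b (by omega) a1 a2 b1 b2).1 huz
  rcases hor with hor | hor
  · -- the row of the strip
    have h0 := hor 0 (by omega)
    have h2 := hor 2 (by omega)
    have h3 := hor 3 (by omega)
    rw [h0, dbl' _ (by omega) (by omega)] at hcl
    rw [h2] at hux2
    rw [h3] at hux3
    have c2 := (cov' _ a (by omega) (by omega) a1 a2).1 hux2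
    have c3 := (cov' _ a (by omega) (by omega) a1 a2).1 hux3
    rcases hS with ⟨-, -, hS⟩ | ⟨⟨q1, q2, q3, q4⟩, -, b', hb', hS⟩ | ⟨⟨q1, q2, q3, q4⟩, -⟩
    · have := hS (lo (n + 2) + 2) (by omega) (by omega)
      rw [h2]
      exact card_eq_zero.1 this
    · have := hS (lo (n + 2) + 2) (by omega) (by omega)
      rw [if_neg (by omega)] at this
      rw [h2]
      exact card_eq_zero.1 this
    · exfalso
      rw [show n + 1 - 1 = n by omega] at q3
      omega
  · -- the reversed row
    have h0 := hor 0 (by omega)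
    have h2 := hor 2 (by omega)
    have h3 := hor 3 (by omega)
    rw [h0, dbl' _ (by omega) (by omega)] at hcl
    rw [h2] at hux2
    rw [h3] at hux3
    have c2 := (cov' _ a (by omega) (by omega) a1 a2).1 hux2
    have c3 := (cov' _ a (by omega) (by omega) a1 a2).1 hux3
    rcases hS with ⟨-, -, hS⟩ | ⟨⟨q1, q2, q3, q4⟩, -⟩ | ⟨⟨q1, q2, q3, q4⟩, -, b', hb', hS⟩
    · have := hS (hi (n + 2) - 2) (by omega) (by omega)
      rw [h2]
      exact card_eq_zero.1 this
    · exfalso
      rw [show n + 1 - 1 = n by omega] at q3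
      omega
    · have := hS (hi (n + 2) - 2) (by omega) (by omega)
      rw [if_neg (by omega)] at this
      rw [h2]
      exact card_eq_zero.1 this

/-- `F ≥ 0` for the pattern [DL] at the left end, four sites; straight ends with an upper pendant at the
other end are excluded by hypothesis -/
theorem NJ.F_dl3 (h : NJ P r j) (hj : 2 ≤ j) (B : RowB P j t 3 x c β)
    (hβ : β = 0) (c0 : c 0 = 1) (c1 : c 1 = -1) (c2 : c 2 = 0)
    (hw3 : I2.w3 (I2.bb j (j + 1) (topOf : P → Tops P) t)
      (I2.VV j (j + 1) (topOf : P → Tops P) t) = 0)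
    (hst : (uc (x 0)).card = 1 → UE j (cext (j + 1) (topOf : P → Tops P) t) x 2 = ∅) :
    0 ≤ Fn j (cext (j + 1) (topOf : P → Tops P) t) := by
  obtain ⟨K, psi, R⟩ := exists_red P j
  obtain ⟨w, v, D⟩ := NJ.dlr h hj R B le_rfl hβ c0 c1 (fun k hk hk' => by
    have : k = 2 := by omega
    rw [this]; exact c2) hw3
  by_cases hU : UE j (cext (j + 1) (topOf : P → Tops P) t) x 2 = ∅
  · exact D.F_three_one rfl hU
  · rcases D.W.uc_le (k := 0) (by omega) with h1 | h1
    · exact absurd (hst h1) hU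
    · exact D.F_three_two rfl h1 (NJ.pen_two_zero h hj B h1 hU) hU

end Pool.Agent.GaussPoset.EK
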