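import Pool.Agent.W_448kf_h15.KfL
import Pool.Agent.W_448kf_h15.KfJ
import Pool.Agent.W_448so_h39.FC

/-!
MP_448cb3_co, G2, case B, window `j`: the pattern R with four sites, `F ≥ 0`.  helper15.
-/

namespace Pool.Agent.GaussPoset.EK

set_option linter.unusedSectionVars false

open Finset Win St Polynomial Wd Win.W4
open Pool.Agent.GaussPoset.Win.SO (PN vp)

universe u

variable {P : Type u} [Fintype P] [PartialOrder P] [DecidableEq P] {r i j : ℕ}

variable {m : ℕ} {x : ℕ → P} {c : ℕ → ℤ} {β : ℤ} {t : Tops P}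

variable {K : Finset P} {psi : P → P} {lo hi : ℕ → ℕ} {e : ℕ → ℕ → P}

/-- a row depends only on its elements -/
theorem RowB.congr (B : RowB P j t m x c β) {x' : ℕ → P} (hx : ∀ k, k ≤ m → x' k = x k) :
    RowB P j t m x' c β where
  row :=
    { lev_x := fun k hk => by rw [hx k hk]; exact B.row.lev_x k hk
      inj := fun k l hk hl h => by
        rw [hx k hk, hx l hl] at h
        exact B.row.inj k l hk hl h
      kap := fun k hk => by rw [hx k hk]; exact B.row.kap k hk
      surj := fun v h1 h2 => by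
        obtain ⟨k, hk, hk2⟩ := B.row.surj v h1 h2
        exact ⟨k, hk, by rw [hx k hk]; exact hk2⟩
      df := fun k l hkl hl => by
        rw [hx k (by omega), hx l hl]
        exact B.row.df k l hkl hl }
  pat := B.pat
  ends := fun h => by
    rw [hx 0 (by omega), hx m le_rfl]
    exact B.ends h
  lost := fun a h1 h2 h3 h4 => by
    rw [hx a (by omega)]
    exact B.lost a h1 h2 h3 h4
  pen0 := fun a h1 h2 => by
    rw [hx a (by omega)]
    exact B.pen0 a h1 h2
  len := B.len
  ucv_x := fun a b h1 h2 => by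
    rw [hx a (by omega), hx b h2]
    exact B.ucv_x a b h1 h2
  pu := fun a h1 h2 u hu1 hu2 z hz => by
    rw [hx a (by omega)] at hu1
    rw [hx (a + 1) (by omega)] at hu2
    exact B.pu a h1 h2 u hu1 hu2 z hz

/-- the pattern R with four sites and `w3 = 0` in the frame `Rr` -/
theorem NJ.rr (h : NJ P r j) (hj : 2 ≤ j) (R : Red P j K psi) (B : RowB P j t 3 x c β)
    (hβ : β = 1) (c0 : c 0 = -1) (c1 : c 1 = 0) (c2 : c 2 = 0)
    (hw3 : I2.w3 (I2.bb j (j + 1) (topOf : P → Tops P) t)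
      (I2.VV j (j + 1) (topOf : P → Tops P) t) = 0) (hx : x 4 = x 0) :
    ∃ w v, Rr r j K psi (cext (j + 1) (topOf : P → Tops P) t) w v x := by
  have H := h.g.H
  have W := NJ.prow h hj B (by omega)
  have d0 : Df j {x 3, x 0} = 1 := by
    rw [pair_comm, B.row.df 0 3 (by omega) (by omega), if_neg (by omega), if_pos ⟨rfl, rfl⟩]
    exact hβ
  have d1 : Df j {x 0, x 1} = -1 := by
    rw [B.row.df 0 1 (by omega) (by omega), if_pos rfl]
    exact c0
  obtain ⟨w, wK, wd, ew⟩ := R.exL d0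
  obtain ⟨v, vK, vd, ev⟩ := R.exU d1
  have hall : ∀ y ∈ K, topOf y = t → ns j y = {x 3, x 0} ∨ ns j y = {x 0, x 1} := by
    intro y hyK ht
    obtain ⟨p, q, h3, h4, h5, h6⟩ := B.row.pair R H h.split hyK ht
    rcases h6 with ⟨h6, h7⟩ | ⟨h6, h8, -, -⟩
    · have hp : p = 0 := by
        have hp3 : p = 0 ∨ p = 1 ∨ p = 2 := by omega
        rcases hp3 with rfl | rfl | rfl
        · rfl
        · exact absurd c1 h7
        · exact absurd c2 h7
      subst hp
      right; rw [h5, h6]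
    · subst h6
      subst h8
      left; rw [h5, pair_comm]
  have Q : K5 r j K psi (cext (j + 1) (topOf : P → Tops P) t) w v :=
    NJ.k5 h hj R B d0 d1 wK vK wd vd ew ev (p := 3) (q := 0) (by omega) (by omega)
      (mem_insert_self _ _) (mem_insert_self _ _) hall
  have hends := B.ends (by rw [hβ]; norm_num)
  refine ⟨w, v, W, Q, hx, ew, ev, ?_, hends.1, hends.2, ?_⟩
  · intro k l hkl hl
    have h1 := B.dcv_x H hkl hl
    by_cases h2 : l = k + 1
    · rw [if_pos h2] at h1 ⊢
      have hk3 : k = 0 ∨ k = 1 ∨ k = 2 := by omega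
      rcases hk3 with rfl | rfl | rfl
      · rw [c0] at h1
        rw [if_pos rfl]
        omega
      · rw [c1] at h1
        rw [if_neg (by omega)]
        omega
      · rw [c2] at h1
        rw [if_neg (by omega)]
        omega
    · rw [if_neg h2, hβ] at h1
      rw [if_neg h2]
      split_ifs at h1 ⊢ <;> omega
  · have n30 : x 3 ≠ x 0 := W.ne (by omega) (by omega) (by omega)
    have n01 : x 0 ≠ x 1 := W.ne (by omega) (by omega) (by omega)
    have n31 : x 3 ≠ x 1 := W.ne (by omega) (by omega) (by omega)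
    have h1 := Q.be3_raw ew ev n30 n01 n31
    have h2 : I2.w3 (I2.bb j (j + 1) (topOf : P → Tops P) t)
        (I2.VV j (j + 1) (topOf : P → Tops P) t) =
        lc (st j (cext (j + 1) (topOf : P → Tops P) t)).card 2
          (ZC j (cext (j + 1) (topOf : P → Tops P) t) 3) := by
      unfold I2.w3 I2.bb I2.VV lc
      rw [coeff_ZS]
    rw [h2] at hw3
    rw [hw3] at h1
    linarith

/-- at most one private parent, two levels above a row with four sites -/
theorem NJ.upen_le (h : NJ P r j) (hj : 2 ≤ j) (B : RowB P j t m x c β) (hm : 3 ≤ m) {z : P}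
    (hz : z ∈ cext (j + 1) (topOf : P → Tops P) t) (hl : lev z + 2 = j) :
    ((uc z).filter (fun g => (dc g).card = 1)).card ≤ 1 := by
  classical
  have H := h.g.H
  obtain ⟨lo, hi, e, C⟩ := Cp.comp_exists h.g.H t.2 h.g.hr h.g.good
  obtain ⟨hlen, -⟩ := B.orient h hj C
  have hyt : topOf z = t := (mem_cext.1 hz) z le_rfl (by omega)
  have hzt : z ≤ (t : P) := by rw [← hyt]; exact le_topOf z
  rw [card_le_one]
  intro g hg g' hg'
  rw [mem_filter] at hg hg'
  have hlg := lev_uc H hg.1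
  have hlg' := lev_uc H hg'.1
  have hgt : g ≤ (t : P) := Cp.up_le H h.g.good t.2 hzt (by omega) (mem_uc.1 hg.1).le
  have hgt' : g' ≤ (t : P) := Cp.up_le H h.g.good t.2 hzt (by omega) (mem_uc.1 hg'.1).le
  obtain ⟨n, rfl⟩ : ∃ n, j = n + 3 := ⟨j - 3, by omega⟩
  obtain ⟨b, b1, b2, b3⟩ := C.surj z hzt (by omega)
  obtain ⟨a, a1, a2, a3⟩ := C.surj g hgt (by omega)
  obtain ⟨a', a1', a2', a3'⟩ := C.surj g' hgt' (by omega)
  have lz : lev z = n + 1 := by omega
  have lg : lev g = n := by omega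
  have lg' : lev g' = n := by omega
  rw [lz] at b1 b2 b3
  rw [lg] at a1 a2 a3
  rw [lg'] at a1' a2' a3'
  subst b3
  subst a3
  subst a3'
  have c1 := (C.cov n b a (by omega) b1 b2 a1 a2).1 (mem_uc.1 hg.1)
  have c2 := (C.cov n b a' (by omega) b1 b2 a1' a2').1 (mem_uc.1 hg'.1)
  have e1 := (C.single_down H (k := n) (by omega) a1 a2).1 hg.2
  have e2 := (C.single_down H (k := n) (by omega) a1' a2').1 hg'.2
  have s1 := C.lo_step (n + 1) (by omega)
  have s2 := C.lo_step (n + 2) (by omega)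
  have s3 := C.hi_step (n + 1) (by omega)
  have s4 := C.hi_step (n + 2) (by omega)
  have s5 := C.lo_le (n + 1) (by omega)
  have s6 := C.lo_le (n + 2) (by omega)
  rw [show n + 1 + 1 = n + 2 by omega] at s1 s3
  rw [show n + 2 + 1 = n + 3 by omega] at s2 s4
  have haa : a = a' := by omega
  rw [haa]

/-- `F ≥ 0` for the pattern R (lost pair at the left end), four sites -/
theorem NJ.F_r3 (h : NJ P r j) (hj : 2 ≤ j) (B : RowB P j t 3 x c β)
    (hβ : β = 1) (c0 : c 0 = -1) (c1 : c 1 = 0) (c2 : c 2 = 0)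
    (hw3 : I2.w3 (I2.bb j (j + 1) (topOf : P → Tops P) t)
      (I2.VV j (j + 1) (topOf : P → Tops P) t) = 0)
    (hst : UE j (cext (j + 1) (topOf : P → Tops P) t) x 2 ≠ ∅ → pen (x 1) = ∅) :
    0 ≤ Fn j (cext (j + 1) (topOf : P → Tops P) t) := by
  classical
  obtain ⟨K, psi, R⟩ := exists_red P j
  obtain ⟨x', hx'⟩ : ∃ x' : ℕ → P, x' = fun k => if k = 4 then x 0 else x k := ⟨_, rfl⟩
  have hxk : ∀ k, k ≤ 3 → x' k = x k := by
    intro k hk
    rw [hx']
    show (if k = 4 then x 0 else x k) = x k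
    rw [if_neg (by omega)]
  have hx4 : x' 4 = x' 0 := by
    rw [hxk 0 (by omega), hx']
    show (if 4 = 4 then x 0 else x 4) = x 0
    rw [if_pos rfl]
  have B' := B.congr hxk
  obtain ⟨w, v, D⟩ := NJ.rr h hj R B' hβ c0 c1 c2 hw3 hx4
  have hed : ed x' 2 = ed x 2 := by
    unfold ed
    rw [hxk 2 (by omega), hxk (2 + 1) (by omega)]
  have hUE : UE j (cext (j + 1) (topOf : P → Tops P) t) x' 2 =
      UE j (cext (j + 1) (topOf : P → Tops P) t) x 2 := by
    unfold UE
    rw [hed]
  have hU : ∀ z ∈ UE j (cext (j + 1) (topOf : P → Tops P) t) x' 2,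
      ch j (cext (j + 1) (topOf : P → Tops P) t) z ≤ 2 := by
    intro z hz
    obtain ⟨hzC, hzP, -⟩ := mem_UE.1 hz
    have h1 := D.W.ch_PU hzP hzC
    have h2 := NJ.upen_le h hj B le_rfl hzC (mem_PU.1 hzP).1
    have h3 : (((uc z).filter (fun g => (dc g).card = 1)).card : ℤ) ≤ 1 := by exact_mod_cast h2
    linarith
  refine D.F_bound hU (by norm_num) ?_
  by_cases hE : UE j (cext (j + 1) (topOf : P → Tops P) t) x 2 = ∅
  · left; rw [hUE]; exact hE
  · right
    refine ⟨le_rfl, ?_⟩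
    rw [hxk 1 (by omega)]
    exact hst hE

/-- the wide words: no letters `C O` on the left before ... with `C O` on the right, levels
`n - 1, n, n + 1, n + 2` -/
lemma wide_no {n : ℕ} (C : Cp.Comp (n + 2) (t : P) lo hi e) (S : Shape (n + 2) lo hi)
    (hw : hi (n + 2) = lo (n + 2) + 3) :
    ¬ (LCO lo hi (n + 1) ∧ hi (n + 1) = hi n ∧ hi (n + 2) = hi (n + 1) + 1) ∧
    ¬ (RCO lo hi (n + 1) ∧ lo (n + 1) = lo n + 1 ∧ lo (n + 2) = lo (n + 1) ∧
      hi (n + 2) = hi (n + 1) + 1) := by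
  have hl : ∀ k, k < n + 2 → lo k ≤ lo (k + 1) ∧ lo (k + 1) ≤ lo k + 1 := by
    intro k hk
    have := C.lo_step k hk
    omega
  have hh : ∀ k, k < n + 2 → hi k ≤ hi (k + 1) ∧ hi (k + 1) ≤ hi k + 1 := by
    intro k hk
    have := C.hi_step k hk
    omega
  unfold LCO RCO
  rw [show n + 1 - 1 = n by omega, show n + 1 - 2 = n - 1 by omega]
  rcases S with h | ⟨h1, h2⟩ | ⟨h1, h2⟩ | ⟨h1, h2, h3⟩ | ⟨h1, h2⟩ | ⟨a, h0, h1, h2, h3, hN, h4⟩
  · have := h (n + 2) le_rfl
    omega
  · constructor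
    · rintro ⟨⟨g1, g2, g3, g4⟩, g5, g6⟩
      have e1 := h2.hi (n + 1) (by omega)
      have e2 := C.hi_le (k := n) (by omega)
      rw [show n + 1 + 1 = n + 2 by omega] at e1
      omega
    · rintro ⟨⟨g1, g2, g3, g4⟩, g5, g6, g7⟩
      have e1 := h2.lo (n + 1) (by omega)
      rw [show n + 1 + 1 = n + 2 by omega] at e1
      omega
  · constructor
    · rintro ⟨⟨g1, g2, g3, g4⟩, g5, g6⟩
      have e1 := h2.lo n (by omega)
      omega
    · rintro ⟨⟨g1, g2, g3, g4⟩, g5, g6, g7⟩
      have e1 := h2.lo (n + 1) (by omega)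
      rw [show n + 1 + 1 = n + 2 by omega] at e1
      omega
  · have h5 : n + 2 = 3 := h1
    rw [h5] at hw
    omega
  · have h5 : n + 2 = 6 := h1
    rw [h5] at hw
    unfold F1 at h2
    omega
  · obtain ⟨d, hd⟩ : ∃ d, n + 2 = a + d := ⟨n + 2 - a, by omega⟩
    rw [show n + 2 - a = d by omega] at h4
    have key := late_wide h3 (fun k hk => hl k (by omega)) (fun k hk => hh k (by omega)) h4
      (by rw [← hd]; omega)
    rcases key with key | key | key | key | key <;> obtain ⟨hlen, hsp⟩ := word_spec key <;>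
      simp only [List.length_cons, List.length_nil] at hlen <;> subst hlen
    · obtain ⟨q1, q2⟩ := hsp 1 (by omega)
      simp only [List.getElem?_cons_succ, List.getElem?_cons_zero, OO, Option.map_some,
        Option.some.injEq] at q1 q2
      have q1' : ¬ lo (a + 1 + 1) ≠ lo (a + 1) := of_decide_eq_false q1.symm
      have q2' : hi (a + 1 + 1) ≠ hi (a + 1) := of_decide_eq_true q2.symm
      rw [show a + 1 + 1 = n + 1 by omega, show a + 1 = n by omega] at q1' q2'
      omega
    · obtain ⟨q1, q2⟩ := hsp 2 (by omega)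
      obtain ⟨-, q3⟩ := hsp 1 (by omega)
      simp only [List.getElem?_cons_succ, List.getElem?_cons_zero, OO, CO, Option.map_some,
        Option.some.injEq] at q1 q2 q3
      have q2' : hi (a + 2 + 1) ≠ hi (a + 2) := of_decide_eq_true q2.symm
      have q3' : hi (a + 1 + 1) ≠ hi (a + 1) := of_decide_eq_true q3.symm
      rw [show a + 2 + 1 = n + 1 by omega, show a + 2 = n by omega] at q2'
      rw [show a + 1 + 1 = n by omega, show a + 1 = n - 1 by omega] at q3'
      omega
    · obtain ⟨q1, q2⟩ := hsp 4 (by omega)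
      obtain ⟨-, q3⟩ := hsp 3 (by omega)
      simp only [List.getElem?_cons_succ, List.getElem?_cons_zero, OO, CO, Option.map_some,
        Option.some.injEq] at q1 q2 q3
      have q2' : hi (a + 4 + 1) ≠ hi (a + 4) := of_decide_eq_true q2.symm
      have q3' : hi (a + 3 + 1) ≠ hi (a + 3) := of_decide_eq_true q3.symm
      rw [show a + 4 + 1 = n + 1 by omega, show a + 4 = n by omega] at q2'
      rw [show a + 3 + 1 = n by omega, show a + 3 = n - 1 by omega] at q3'
      omega
    · obtain ⟨-, q2⟩ := hsp 6 (by omega)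
      simp only [List.getElem?_cons_succ, List.getElem?_cons_zero, OC, Option.map_some,
        Option.some.injEq] at q2
      have q2' : ¬ hi (a + 6 + 1) ≠ hi (a + 6) := of_decide_eq_false q2.symm
      rw [show a + 6 + 1 = n + 2 by omega, show a + 6 = n + 1 by omega] at q2'
      omega
    · obtain ⟨q1, q2⟩ := hsp 5 (by omega)
      simp only [List.getElem?_cons_succ, List.getElem?_cons_zero, OO, Option.map_some,
        Option.some.injEq] at q1 q2
      have q1' : ¬ lo (a + 5 + 1) ≠ lo (a + 5) := of_decide_eq_false q1.symm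
      have q2' : hi (a + 5 + 1) ≠ hi (a + 5) := of_decide_eq_true q2.symm
      rw [show a + 5 + 1 = n + 1 by omega, show a + 5 = n by omega] at q1' q2'
      omega

/-- four sites, both ends open, an upper pendant over the right end double: no pendant below `x 1` -/
theorem NJ.pen_one_zero (h : NJ P r j) (hj : 2 ≤ j) (B : RowB P j t 3 x c β) (hβ : β ≠ 0)
    (C : Cp.Comp j (t : P) lo hi e) (S : Shape j lo hi)
    (hU : UE j (cext (j + 1) (topOf : P → Tops P) t) x 2 ≠ ∅) : pen (x 1) = ∅ := by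
  classical
  have H := h.g.H
  have W := NJ.prow h hj B (by omega)
  have hS := NJ.s5c h hj C
  obtain ⟨w0, w3⟩ := B.ends hβ
  obtain ⟨n, rfl⟩ : ∃ n, j = n + 2 := ⟨j - 2, by omega⟩
  rw [show n + 2 - 1 = n + 1 by omega] at hS
  obtain ⟨hlen, hor⟩ := B.orient h hj C
  obtain ⟨no1, no2⟩ := wide_no C S hlen
  have s1 := C.lo_step n (by omega)
  have s2 := C.lo_step (n + 1) (by omega)
  have s3 := C.hi_step n (by omega)
  have s4 := C.hi_step (n + 1) (by omega)
  have s5 := C.lo_le n (by omega)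
  have s6 := C.lo_le (n + 1) (by omega)
  rw [show n + 1 + 1 = n + 2 by omega] at s2 s4
  have cov' : ∀ s a, lo (n + 2) ≤ s → s ≤ hi (n + 2) → lo (n + 1) ≤ a → a ≤ hi (n + 1) →
      (e (n + 2) s ⋖ e (n + 1) a ↔ a = s ∨ a + 1 = s) := fun s a => C.cov (n + 1) s a (by omega)
  have dbl' : ∀ s, lo (n + 2) ≤ s → s ≤ hi (n + 2) →
      ((uc (e (n + 2) s)).card = 2 ↔ lo (n + 1) < s ∧ s ≤ hi (n + 1)) := fun s g1 g2 =>
    C.double_up H h.g.good t.2 (k := n + 1) (by omega) g1 g2
  -- the upper pendant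
  obtain ⟨z, hz⟩ := nonempty_iff_ne_empty.2 hU
  obtain ⟨hzC, hzP, hzs⟩ := mem_UE.1 hz
  obtain ⟨-, u, -, -, -, -, -, hu⟩ := PN_dat H (C := cext (n + 2 + 1) (topOf : P → Tops P) t)
    (SO.mem_PN.2 ⟨hzC, Or.inr hzP⟩)
  rcases hu with ⟨g1, -⟩ | ⟨-, hlz, hlu, hdz, hsu, -⟩
  · have := lev_PU hzP
    have := lev_PD g1
    omega
  have hux2 : x 2 ⋖ u := by
    rw [← mem_dc, ← hsu, hzs]
    exact (W.mem_ed (by omega) (by omega)).2 (Or.inl rfl)
  have hux3 : x 3 ⋖ u := by
    rw [← mem_dc, ← hsu, hzs]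
    exact (W.mem_ed (by omega) (by omega)).2 (Or.inr rfl)
  have huz : u ⋖ z := by rw [← mem_dc, hdz]; exact mem_singleton_self u
  have hx2t : x 2 ≤ (t : P) := by
    rw [← B.row.kap 2 (by omega)]
    exact le_topOf (x 2)
  have hut : u ≤ (t : P) := Cp.up_le H h.g.good t.2 hx2t
    (by have := B.row.lev_x 2 (by omega); omega) hux2.le
  have hzt : z ≤ (t : P) := Cp.up_le H h.g.good t.2 hut (by omega) huz.le
  obtain ⟨a, a1, a2, a3⟩ := C.surj u hut (by omega)
  obtain ⟨b, b1, b2, b3⟩ := C.surj z hzt (by omega)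
  have lu : lev u = n + 1 := by omega
  have lz : lev z = n := by omega
  rw [lu] at a1 a2 a3
  rw [lz] at b1 b2 b3
  subst a3
  subst b3
  have hzd := (C.single_down H (k := n) (by omega) b1 b2).1 (lev_PU hzP).2
  have hcz := (C.cov n a b (by omega) a1 a2 b1 b2).1 huz
  rcases hor with hor | hor
  · -- the row of the strip
    have h0 := hor 0 (by omega)
    have h1 := hor 1 (by omega)
    have h2 := hor 2 (by omega)
    have h3 := hor 3 (by omega)
    have v0 := dbl' (lo (n + 2) + 0) (by omega) (by omega)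
    have v3 := dbl' (lo (n + 2) + 3) (by omega) (by omega)
    rw [← h0, w0] at v0
    rw [← h3, w3] at v3
    rw [h2] at hux2
    rw [h3] at hux3
    have c2 := (cov' _ a (by omega) (by omega) a1 a2).1 hux2
    have c3 := (cov' _ a (by omega) (by omega) a1 a2).1 hux3
    rcases hS with ⟨-, -, hS⟩ | ⟨q, -, b', hb', hS⟩ | ⟨⟨q1, q2, q3, q4⟩, -⟩
    · have := hS (lo (n + 2) + 1) (by omega) (by omega)
      rw [h1]
      exact card_eq_zero.1 this
    · exact absurd ⟨q, by omega, by omega⟩ no1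
    · exfalso
      rw [show n + 1 - 1 = n by omega] at q3
      omega
  · -- the reversed row
    have h0 := hor 0 (by omega)
    have h1 := hor 1 (by omega)
    have h2 := hor 2 (by omega)
    have h3 := hor 3 (by omega)
    have v0 := dbl' (hi (n + 2) - 0) (by omega) (by omega)
    have v3 := dbl' (hi (n + 2) - 3) (by omega) (by omega)
    rw [← h0, w0] at v0
    rw [← h3, w3] at v3
    rw [h2] at hux2
    rw [h3] at hux3
    have c2 := (cov' _ a (by omega) (by omega) a1 a2).1 hux2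
    have c3 := (cov' _ a (by omega) (by omega) a1 a2).1 hux3
    rcases hS with ⟨-, -, hS⟩ | ⟨⟨q1, q2, q3, q4⟩, -⟩ | ⟨q, -, b', hb', hS⟩
    · have := hS (hi (n + 2) - 1) (by omega) (by omega)
      rw [h1]
      exact card_eq_zero.1 this
    · exfalso
      rw [show n + 1 - 1 = n by omega] at q3
      omega
    · exact absurd ⟨q, by omega, by omega, by omega⟩ no2

/-- `F ≥ 0` for the pattern R with four sites, both orientations, in a component of known shape -/
theorem NJ.F_r3s (h : NJ P r j) (hj : 2 ≤ j) (B : RowB P j t 3 x c β) (hβ : β = 1)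
    (C : Cp.Comp j (t : P) lo hi e) (S : Shape j lo hi)
    (hw3 : I2.w3 (I2.bb j (j + 1) (topOf : P → Tops P) t)
      (I2.VV j (j + 1) (topOf : P → Tops P) t) = 0) :
    0 ≤ Fn j (cext (j + 1) (topOf : P → Tops P) t) := by
  have hb : β ≠ 0 := by rw [hβ]; norm_num
  rcases B.pat with ⟨h1, -⟩ | ⟨-, -, h3, h4⟩ | ⟨-, -, h3, h4⟩ | ⟨-, h2, -⟩ | ⟨-, h2, -⟩ |
    ⟨-, h2, -⟩ | ⟨h1, -⟩ | ⟨h1, -⟩
  · exact absurd h1 hb
  · exact NJ.F_r3 h hj B hβ h3 (h4 1 (by omega) (by omega)) (h4 2 (by omega) (by omega)) hw3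
      (fun hU => NJ.pen_one_zero h hj B hb C S hU)
  · exact NJ.F_r3 h hj B.rev hβ h3 (h4 (3 - 1 - 1) (by omega)) (h4 (3 - 1 - 2) (by omega)) hw3
      (fun hU => NJ.pen_one_zero h hj B.rev hb C S hU)
  · exact absurd h2 hb
  · exact absurd h2 hb
  · exact absurd h2 hb
  · omega
  · omega

end Pool.Agent.GaussPoset.EK
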