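import Pool.Agent.W_448kf_h15.KfM

/-!
MP_448cb3_co, G2, case B, window `j`: four sites, patterns R and [DL], STRICT positivity of `F`.
helper15.
-/

namespace Pool.Agent.GaussPoset.Win.W4

set_option linter.unusedSectionVars false

open Finset
open Pool.Agent.GaussPoset.Win.SO (PN vp con on mem_PN vp_PD vp_PU)

universe u

variable {P : Type u} [Fintype P] [PartialOrder P] [DecidableEq P] {r i : ℕ}
variable {psi : P → P} {C K : Finset P} {w v : P} {x : ℕ → P}

/-- STRICT BOUND for `F`, pattern R -/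
theorem Rr.F_pos (h : Rr r i K psi C w v x) (hU : ∀ z ∈ UE i C x 2, ch i C z ≤ 0)
    (h1 : UE i C x 2 ≠ ∅ → pen (x 1) = ∅) (hp : pen (x 1) ≠ ∅ → pen (x 0) ≠ ∅) : 2 ≤ Fv i C := by
  classical
  have W := h.W
  have e0 := h.NE0
  have e1 := h.NE1
  have e3 := h.NE3
  have e12 := h.NE12
  have c1 : CH i C x 1 ≤ ∑ a ∈ DE i C x 1, (2 * ((pen a).card : ℤ)) +
      (DE i C x 1).card * ((DE i C x 1).card - 1) := by
    rw [W.CH_split, W.sum_DE (by omega) h.dcv12, h.UE1, sum_empty, add_zero]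
  rw [← mul_sum] at c1
  obtain ⟨b1, b2⟩ := W.sum_pen_le (k := 1) (by omega) h.dcv12
  obtain ⟨b3, -⟩ := W.sum_pen_le (k := 2) (by omega) h.dcv23
  have c2 : ((DE i C x 2).card : ℤ) * ((DE i C x 2).card - 1) ≤ CH i C x 2 := by
    rw [W.CH_split, W.sum_DE (by omega) h.dcv23]
    have g1 : 0 ≤ ∑ a ∈ DE i C x 2, (2 * ((pen a).card : ℤ)) :=
      sum_nonneg fun a _ => by positivity
    have g2 : 0 ≤ ∑ z ∈ UE i C x 2, vp i z * ch i C z := by
      refine sum_nonneg fun z hz => ?_
      rw [vp_PU (mem_UE.1 hz).2.1]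
      have := hU z hz
      linarith
    linarith
  have u2 := W.UE_one (i := i) (C := C) 2
  have u02 := W.ue_sum 0 2 (by omega) (by omega) (by omega)
  have h9 := card_le_card (T4_subset i C)
  have hp1 := h.pen1_le
  have e2 : NE i C x 2 = ((DE i C x 2).card : ℤ) - (UE i C x 2).card := rfl
  rw [h.F_form]
  have hb : (0 : ℤ) ≤ (DE i C x 3).card := by positivity
  obtain ⟨n0, hn0⟩ : ∃ n, n = (UE i C x 0).card := ⟨_, rfl⟩
  obtain ⟨n1, hn1⟩ : ∃ n, n = (DE i C x 1).card := ⟨_, rfl⟩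
  obtain ⟨n2, hn2⟩ : ∃ n, n = (DE i C x 2).card := ⟨_, rfl⟩
  obtain ⟨n2', hn2'⟩ : ∃ n, n = (UE i C x 2).card := ⟨_, rfl⟩
  obtain ⟨n3, hn3⟩ : ∃ n, n = (DE i C x 3).card := ⟨_, rfl⟩
  obtain ⟨p1, hpp⟩ : ∃ n, n = (pen (x 1)).card := ⟨_, rfl⟩
  obtain ⟨p0, hpp0⟩ : ∃ n, n = (pen (x 0)).card := ⟨_, rfl⟩
  have hUE : n2' = 0 ∨ p1 = 0 := by
    rcases Nat.eq_zero_or_pos n2' with h2 | h2
    · exact Or.inl h2
    · right
      rw [hpp, card_eq_zero]
      refine h1 ?_
      intro h3
      rw [hn2', h3, card_empty] at h2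
      omega
  have hp01 : p1 = 0 ∨ 1 ≤ p0 := by
    rcases Nat.eq_zero_or_pos p1 with h2 | h2
    · exact Or.inl h2
    · right
      have h3 : pen (x 1) ≠ ∅ := by
        intro h3
        rw [hpp, h3, card_empty] at h2
        omega
      have h4 := card_pos.2 (nonempty_iff_ne_empty.2 (hp h3))
      omega
  rw [← hn0] at e0 u02
  rw [← hn1] at e1 c1 b1 b2
  rw [← hn2] at e2 b3 c2
  rw [← hn2'] at e2 u2 u02
  rw [← hn3] at e3 hb
  rw [← hpp] at hp1 ⊢
  rw [← hpp0]
  rw [e0, e1, e2, e3]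
  rw [e1, e2] at e12
  have hz : (0 : ℤ) ≤ (Z4 i C).card - (T4 i C).card := by
    have : ((T4 i C).card : ℤ) ≤ (Z4 i C).card := by exact_mod_cast h9
    linarith
  have hp0' : (0 : ℤ) ≤ p0 := by positivity
  have q1 : n1 = 0 ∨ n1 = 1 ∨ n1 = 2 := by omega
  have q0 : n0 = 0 ∨ n0 = 1 := by omega
  have q2 : n2' = 0 ∨ n2' = 1 := by omega
  have qp : p1 = 0 ∨ (p1 = 1 ∧ (1 : ℤ) ≤ p0) := by
    rcases hp01 with h2 | h2
    · exact Or.inl h2
    · rcases Nat.eq_zero_or_pos p1 with h3 | h3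
      · exact Or.inl h3
      · exact Or.inr ⟨by omega, by exact_mod_cast h2⟩
  rcases q2 with rfl | rfl
  · rcases q1 with rfl | rfl | rfl
    · omega
    · have q3 : n2 = 0 := by omega
      subst q3
      rcases q0 with rfl | rfl <;> rcases qp with rfl | ⟨rfl, hq⟩ <;>
        norm_num at c1 c2 b2 ⊢ <;> nlinarith
    · have q3 : n2 = 1 := by omega
      subst q3
      rcases q0 with rfl | rfl <;> rcases qp with rfl | ⟨rfl, hq⟩ <;>
        norm_num at c1 c2 b2 ⊢ <;> nlinarith
  · have q0' : n0 = 0 := by omega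
    subst q0'
    rcases hUE with h2 | rfl
    · omega
    rcases q1 with rfl | rfl | rfl
    · have q3 : n2 = 0 := by omega
      subst q3
      norm_num at c1 c2 b2 ⊢
      nlinarith
    · have q3 : n2 = 1 := by omega
      subst q3
      norm_num at c1 c2 b2 ⊢
      nlinarith
    · have q3 : n2 = 2 := by omega
      subst q3
      norm_num at c1 c2 b2 ⊢
      nlinarith

variable {m : ℕ}

/-- STRICT BOUND for `F`, pattern [DL], four sites, one pendant over `x 2, x 3` -/
theorem DLr.F_pos_one (h : DLr r i K psi C w v m x) (hm3 : m = 3) (h1 : UE i C x 2 = ∅)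
    (h2 : (uc (x 3)).card = 1 ∨ pen (x 3) = ∅ ∨ (UE i C x 0 = ∅ ∧ (uc (x 0)).card = 2 ∧
      pen (x 2) = ∅)) : 2 ≤ Fv i C := by
  have g2 := h.CH2_le
  have g3 : (DE i C x 2).card = 1 := by
    rcases h.DE2_cases with h3 | h3
    · exact h3.1
    · rw [h1, card_empty] at h3
      omega
  obtain ⟨a, ha⟩ := card_eq_one.1 g3
  rw [ha, sum_singleton, card_singleton] at g2
  have g4 := h.W.pen_le a
  have g5 := h.W.dc_le (k := 3) (by omega)
  have g6 := h.deg3' hm3
  have g7 := h.W.uc_le (k := 3) (by omega)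
  have g8 := sq_add_nonneg (NE i C x 0 + (uc (x 0)).card - 1 - (pen (x 2)).card)
  have g9 := card_le_card (T4_subset i C)
  rw [h.F_form3 hm3]
  push_cast at g2
  rcases h2 with h2 | h2 | ⟨h2, h3, h4⟩
  · rw [h2]
    push_cast
    omega
  · rw [h2, card_empty]
    push_cast
    omega
  · have g10 : 0 ≤ NE i C x 0 := by
      unfold NE
      rw [h2, card_empty]
      push_cast
      omega
    rw [h3, h4, card_empty]
    have g11 : 2 ≤ (NE i C x 0 + 2 - 1 - 0) ^ 2 + (NE i C x 0 + 2 - 1 - 0) := by nlinarith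
    have z1 : ((pen a).card : ℤ) ≤ 2 := by exact_mod_cast g4
    have z2 : ((uc (x 3)).card : ℤ) ≤ 2 := by rcases g7 with h | h <;> rw [h] <;> norm_num
    have z3 : ((pen (x 3)).card : ℤ) ≤ 1 := by
      have : (pen (x 3)).card ≤ 1 := by omega
      exact_mod_cast this
    have z4 : ((T4 i C).card : ℤ) ≤ (Z4 i C).card := by exact_mod_cast g9
    push_cast
    linarith

/-- STRICT BOUND for `F`, pattern [DL], four sites, two pendants over `x 2, x 3` -/
theorem DLr.F_pos_two (h : DLr r i K psi C w v m x) (hm3 : m = 3) (h0 : (uc (x 0)).card = 2)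
    (hp : pen (x 2) = ∅) (hp3 : pen (x 3) = ∅) (h1 : UE i C x 2 ≠ ∅) : 2 ≤ Fv i C := by
  classical
  have H := h.W.H
  have h2 := h.CH2_le
  have h3 : (DE i C x 2).card = 2 := by
    rcases h.DE2_cases with h3 | h3
    · exact absurd h3.2 h1
    · exact h3.1
  have hdcv : dcv (x 2) (x (2 + 1)) = 1 := by
    have := h.dn 2 3 (by omega) (by omega)
    norm_num at this
    exact this
  have h4 := (h.W.sum_pen_le (k := 2) (by omega) hdcv).2
  rw [h3] at h4
  norm_num at h4
  rw [← mul_sum, h3] at h2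
  have h7 : (uc (x 3)).card = 1 := by
    rcases h.W.uc_le (k := 3) (by omega) with h7 | h7
    · exact h7
    · exfalso
      have h8 := h.W.ue_last (by omega) (by rw [hm3]; exact h7)
      rw [hm3] at h8
      exact h1 h8
  have h9 := card_le_card (T4_subset i C)
  have h10 : 0 ≤ NE i C x 0 := by
    unfold NE
    rw [h.W.ue_zero (by omega) h0, card_empty]
    push_cast
    omega
  rw [h.F_form3 hm3, h0, hp, h7, hp3, card_empty]
  push_cast at h2 ⊢
  nlinarith

end Pool.Agent.GaussPoset.Win.W4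

namespace Pool.Agent.GaussPoset.EK

set_option linter.unusedSectionVars false

open Finset Win St Polynomial Wd Win.W4
open Pool.Agent.GaussPoset.Win.SO (PN vp)

universe u

variable {P : Type u} [Fintype P] [PartialOrder P] [DecidableEq P] {r i j : ℕ}

variable {m : ℕ} {x : ℕ → P} {c : ℕ → ℤ} {β : ℤ} {t : Tops P}

variable {K : Finset P} {psi : P → P} {lo hi : ℕ → ℕ} {e : ℕ → ℕ → P}

/-- the wide words: no letters `C C O`, levels `n - 1, n, n + 1, n + 2` -/
lemma wide_cco {n : ℕ} (C : Cp.Comp (n + 2) (t : P) lo hi e) (S : Shape (n + 2) lo hi)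
    (hw : hi (n + 2) = lo (n + 2) + 3) (hn : 1 ≤ n) :
    ¬ (hi n = hi (n - 1) ∧ hi (n + 1) = hi n ∧ hi (n + 2) = hi (n + 1) + 1) ∧
    ¬ (lo n = lo (n - 1) + 1 ∧ lo (n + 1) = lo n + 1 ∧ lo (n + 2) = lo (n + 1)) := by
  have hl : ∀ k, k < n + 2 → lo k ≤ lo (k + 1) ∧ lo (k + 1) ≤ lo k + 1 := by
    intro k hk
    have := C.lo_step k hk
    omega
  have hh : ∀ k, k < n + 2 → hi k ≤ hi (k + 1) ∧ hi (k + 1) ≤ hi k + 1 := by
    intro k hk
    have := C.hi_step k hk
    omega
  rcases S with h | ⟨h1, h2⟩ | ⟨h1, h2⟩ | ⟨h1, h2, h3⟩ | ⟨h1, h2⟩ | ⟨a, h0, h1, h2, h3, hN, h4⟩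
  · have := h (n + 2) le_rfl
    omega
  · have e1 := h2.hi (n + 1) (by omega)
    have e2 := C.hi_le (k := n) (by omega)
    have e3 := h2.lo (n + 1) (by omega)
    rw [show n + 1 + 1 = n + 2 by omega] at e1 e3
    constructor <;> omega
  · have e1 := h2.hi n (by omega)
    have e2 := h2.hi (n - 1) (by omega)
    have e3 := h2.hi (n + 1) (by omega)
    have e4 := h2.lo (n + 1) (by omega)
    rw [show n + 1 + 1 = n + 2 by omega] at e4
    constructor <;> omega
  · have h5 : n + 2 = 3 := h1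
    rw [h5] at hw
    omega
  · have h5 : n + 2 = 6 := h1
    rw [h5] at hw
    unfold F1 at h2
    omega
  · obtain ⟨d, hd⟩ : ∃ d, n + 2 = a + d := ⟨n + 2 - a, by omega⟩
    rw [show n + 2 - a = d by omega] at h4
    have key := late_wide h3 (fun k hk => hl k (by omega)) (fun k hk => hh k (by omega)) h4
      (by rw [← hd]; omega)
    rcases key with key | key | key | key | key <;> obtain ⟨hlen, hsp⟩ := word_spec key <;>
      simp only [List.length_cons, List.length_nil] at hlen <;> subst hlen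
    · obtain ⟨q1, q2⟩ := hsp 1 (by omega)
      simp only [List.getElem?_cons_succ, List.getElem?_cons_zero, OO, Option.map_some,
        Option.some.injEq] at q1 q2
      have q1' : ¬ lo (a + 1 + 1) ≠ lo (a + 1) := of_decide_eq_false q1.symm
      have q2' : hi (a + 1 + 1) ≠ hi (a + 1) := of_decide_eq_true q2.symm
      rw [show a + 1 + 1 = n + 1 by omega, show a + 1 = n by omega] at q1' q2'
      omega
    · obtain ⟨q1, q2⟩ := hsp 2 (by omega)
      obtain ⟨q4, q3⟩ := hsp 1 (by omega)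
      simp only [List.getElem?_cons_succ, List.getElem?_cons_zero, OO, CO, Option.map_some,
        Option.some.injEq] at q1 q2 q3 q4
      have q2' : hi (a + 2 + 1) ≠ hi (a + 2) := of_decide_eq_true q2.symm
      have q3' : hi (a + 1 + 1) ≠ hi (a + 1) := of_decide_eq_true q3.symm
      have q4' : ¬ lo (a + 1 + 1) ≠ lo (a + 1) := of_decide_eq_false q4.symm
      rw [show a + 2 + 1 = n + 1 by omega, show a + 2 = n by omega] at q2'
      rw [show a + 1 + 1 = n by omega, show a + 1 = n - 1 by omega] at q3' q4'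
      omega
    · obtain ⟨q1, q2⟩ := hsp 4 (by omega)
      obtain ⟨q4, q3⟩ := hsp 3 (by omega)
      simp only [List.getElem?_cons_succ, List.getElem?_cons_zero, OO, CO, Option.map_some,
        Option.some.injEq] at q1 q2 q3 q4
      have q2' : hi (a + 4 + 1) ≠ hi (a + 4) := of_decide_eq_true q2.symm
      have q3' : hi (a + 3 + 1) ≠ hi (a + 3) := of_decide_eq_true q3.symm
      have q4' : ¬ lo (a + 3 + 1) ≠ lo (a + 3) := of_decide_eq_false q4.symm
      rw [show a + 4 + 1 = n + 1 by omega, show a + 4 = n by omega] at q2'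
      rw [show a + 3 + 1 = n by omega, show a + 3 = n - 1 by omega] at q3' q4'
      omega
    · obtain ⟨-, q2⟩ := hsp 6 (by omega)
      obtain ⟨q1, -⟩ := hsp 5 (by omega)
      simp only [List.getElem?_cons_succ, List.getElem?_cons_zero, OC, OO, Option.map_some,
        Option.some.injEq] at q1 q2
      have q2' : ¬ hi (a + 6 + 1) ≠ hi (a + 6) := of_decide_eq_false q2.symm
      have q1' : ¬ lo (a + 5 + 1) ≠ lo (a + 5) := of_decide_eq_false q1.symm
      rw [show a + 6 + 1 = n + 2 by omega, show a + 6 = n + 1 by omega] at q2'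
      rw [show a + 5 + 1 = n + 1 by omega, show a + 5 = n by omega] at q1'
      omega
    · obtain ⟨q1, q2⟩ := hsp 5 (by omega)
      simp only [List.getElem?_cons_succ, List.getElem?_cons_zero, OO, Option.map_some,
        Option.some.injEq] at q1 q2
      have q1' : ¬ lo (a + 5 + 1) ≠ lo (a + 5) := of_decide_eq_false q1.symm
      have q2' : hi (a + 5 + 1) ≠ hi (a + 5) := of_decide_eq_true q2.symm
      rw [show a + 5 + 1 = n + 1 by omega, show a + 5 = n by omega] at q1' q2'
      omega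

/-- the wide words with a closed end and the letters `C O` at the other end: nothing far above -/
lemma wide_fuw {n : ℕ} (C : Cp.Comp (n + 2) (t : P) lo hi e) (S : Shape (n + 2) lo hi)
    (hw : hi (n + 2) = lo (n + 2) + 3) :
    (lo (n + 2) = lo (n + 1) + 1 → hi (n + 1) = hi n → hi (n + 2) = hi (n + 1) + 1 →
      Wd.fuw lo hi n = 0) ∧
    ¬ (hi (n + 2) = hi (n + 1) ∧ lo (n + 1) = lo n + 1 ∧ lo (n + 2) = lo (n + 1)) := by
  have hl : ∀ k, k < n + 2 → lo k ≤ lo (k + 1) ∧ lo (k + 1) ≤ lo k + 1 := by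
    intro k hk
    have := C.lo_step k hk
    omega
  have hh : ∀ k, k < n + 2 → hi k ≤ hi (k + 1) ∧ hi (k + 1) ≤ hi k + 1 := by
    intro k hk
    have := C.hi_step k hk
    omega
  rcases S with h | ⟨h1, h2⟩ | ⟨h1, h2⟩ | ⟨h1, h2, h3⟩ | ⟨h1, h2⟩ | ⟨a, h0, h1, h2, h3, hN, h4⟩
  · have := h (n + 2) le_rfl
    omega
  · have e1 := h2.hi (n + 1) (by omega)
    have e2 := C.hi_le (k := n) (by omega)
    have e3 := h2.lo (n + 1) (by omega)
    rw [show n + 1 + 1 = n + 2 by omega] at e1 e3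
    constructor
    · intros
      omega
    · omega
  · have e4 := h2.lo (n + 1) (by omega)
    rw [show n + 1 + 1 = n + 2 by omega] at e4
    constructor
    · intro g1 g2 g3
      have e1 := h2.hi n (by omega)
      have e2 := h2.hi (n + 1) (by omega)
      have e3 := h2.hi (n + 2) (by omega)
      have St' : Stair lo hi (n + 2) := ⟨fun k hk => h2.lo k hk, h2.hi⟩
      refine St'.fuw_zero (by omega) (by omega) (fun h4 => ?_)
      have s1 := hl (n + 1) (by omega)
      have s2 := hl n (by omega)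
      have s3 := hl (n - 1) (by omega)
      have s4 := hl (n - 2) (by omega)
      have s5 := hh (n - 1) (by omega)
      have s6 := hh (n - 2) (by omega)
      rw [show n - 1 + 1 = n by omega] at s3 s5
      rw [show n - 2 + 1 = n - 1 by omega] at s4 s6
      omega
    · omega
  · have h5 : n + 2 = 3 := h1
    rw [h5] at hw
    omega
  · have h5 : n + 2 = 6 := h1
    rw [h5] at hw
    unfold F1 at h2
    omega
  · obtain ⟨d, hd⟩ : ∃ d, n + 2 = a + d := ⟨n + 2 - a, by omega⟩
    rw [show n + 2 - a = d by omega] at h4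
    have key := late_wide h3 (fun k hk => hl k (by omega)) (fun k hk => hh k (by omega)) h4
      (by rw [← hd]; omega)
    rcases key with key | key | key | key | key <;> obtain ⟨hlen, hsp⟩ := word_spec key <;>
      simp only [List.length_cons, List.length_nil] at hlen <;> subst hlen
    · obtain ⟨q1, q2⟩ := hsp 2 (by omega)
      simp only [List.getElem?_cons_succ, List.getElem?_cons_zero, OO, Option.map_some,
        Option.some.injEq] at q1 q2
      have q1' : ¬ lo (a + 2 + 1) ≠ lo (a + 2) := of_decide_eq_false q1.symm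
      have q2' : hi (a + 2 + 1) ≠ hi (a + 2) := of_decide_eq_true q2.symm
      rw [show a + 2 + 1 = n + 2 by omega, show a + 2 = n + 1 by omega] at q1' q2'
      omega
    · obtain ⟨q1, q2⟩ := hsp 3 (by omega)
      simp only [List.getElem?_cons_succ, List.getElem?_cons_zero, OO, Option.map_some,
        Option.some.injEq] at q1 q2
      have q1' : ¬ lo (a + 3 + 1) ≠ lo (a + 3) := of_decide_eq_false q1.symm
      have q2' : hi (a + 3 + 1) ≠ hi (a + 3) := of_decide_eq_true q2.symm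
      rw [show a + 3 + 1 = n + 2 by omega, show a + 3 = n + 1 by omega] at q1' q2'
      omega
    · obtain ⟨q1, q2⟩ := hsp 5 (by omega)
      simp only [List.getElem?_cons_succ, List.getElem?_cons_zero, OO, Option.map_some,
        Option.some.injEq] at q1 q2
      have q1' : ¬ lo (a + 5 + 1) ≠ lo (a + 5) := of_decide_eq_false q1.symm
      have q2' : hi (a + 5 + 1) ≠ hi (a + 5) := of_decide_eq_true q2.symm
      rw [show a + 5 + 1 = n + 2 by omega, show a + 5 = n + 1 by omega] at q1' q2'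
      omega
    · obtain ⟨q3, q2⟩ := hsp 6 (by omega)
      obtain ⟨q1, -⟩ := hsp 5 (by omega)
      simp only [List.getElem?_cons_succ, List.getElem?_cons_zero, OC, OO, Option.map_some,
        Option.some.injEq] at q1 q2 q3
      have q2' : ¬ hi (a + 6 + 1) ≠ hi (a + 6) := of_decide_eq_false q2.symm
      have q3' : ¬ lo (a + 6 + 1) ≠ lo (a + 6) := of_decide_eq_false q3.symm
      have q1' : ¬ lo (a + 5 + 1) ≠ lo (a + 5) := of_decide_eq_false q1.symm
      rw [show a + 6 + 1 = n + 2 by omega, show a + 6 = n + 1 by omega] at q2' q3'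
      rw [show a + 5 + 1 = n + 1 by omega, show a + 5 = n by omega] at q1'
      omega
    · obtain ⟨q1, q2⟩ := hsp 6 (by omega)
      simp only [List.getElem?_cons_succ, List.getElem?_cons_zero, OO, Option.map_some,
        Option.some.injEq] at q1 q2
      have q1' : ¬ lo (a + 6 + 1) ≠ lo (a + 6) := of_decide_eq_false q1.symm
      have q2' : hi (a + 6 + 1) ≠ hi (a + 6) := of_decide_eq_true q2.symm
      rw [show a + 6 + 1 = n + 2 by omega, show a + 6 = n + 1 by omega] at q1' q2'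
      omega

/-- at most one pendant below the sites with two upper covers -/
theorem NJ.pen_pair (h : NJ P r j) (hj : 2 ≤ j) (B : RowB P j t m x c β) {k l : ℕ} (hkl : k < l)
    (hl : l ≤ m) (hk2 : (uc (x k)).card = 2) (hl2 : (uc (x l)).card = 2) :
    (pen (x k)).card + (pen (x l)).card ≤ 1 := by
  classical
  have H := h.g.H
  obtain ⟨lo, hi, e, C⟩ := Cp.comp_exists h.g.H t.2 h.g.hr h.g.good
  have hS := NJ.s5c h hj C
  obtain ⟨n, rfl⟩ : ∃ n, j = n + 1 := ⟨j - 1, by omega⟩
  rw [Nat.add_sub_cancel] at hS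
  obtain ⟨hlen, hor⟩ := B.orient h hj C
  have dbl' : ∀ s, lo (n + 1) ≤ s → s ≤ hi (n + 1) →
      ((uc (e (n + 1) s)).card = 2 ↔ lo n < s ∧ s ≤ hi n) := fun s g1 g2 =>
    C.double_up H h.g.good t.2 (k := n) (by omega) g1 g2
  obtain ⟨s, s', hss, d1, d2, e1, e2⟩ : ∃ s s', s ≠ s' ∧ (lo n < s ∧ s ≤ hi n) ∧
      (lo n < s' ∧ s' ≤ hi n) ∧ x k = e (n + 1) s ∧ x l = e (n + 1) s' := by
    rcases hor with hor | hor
    · have h1 := hor k (by omega)
      have h2 := hor l hl
      rw [h1] at hk2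
      rw [h2] at hl2
      exact ⟨_, _, by omega, (dbl' _ (by omega) (by omega)).1 hk2,
        (dbl' _ (by omega) (by omega)).1 hl2, h1, h2⟩
    · have h1 := hor k (by omega)
      have h2 := hor l hl
      rw [h1] at hk2
      rw [h2] at hl2
      exact ⟨_, _, by omega, (dbl' _ (by omega) (by omega)).1 hk2,
        (dbl' _ (by omega) (by omega)).1 hl2, h1, h2⟩
  rw [e1, e2]
  rcases hS with ⟨-, -, hS⟩ | ⟨-, -, b', hb', hS⟩ | ⟨-, -, b', hb', hS⟩
  · rw [hS s d1.1 d1.2, hS s' d2.1 d2.2]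
    omega
  · rw [hS s d1.1 d1.2, hS s' d2.1 d2.2]
    split_ifs <;> omega
  · rw [hS s d1.1 d1.2, hS s' d2.1 d2.2]
    split_ifs <;> omega

/-- the letters at an upper pendant over the last double of a row with four sites -/
lemma NJ.letters (h : NJ P r j) (hj : 2 ≤ j) (B : RowB P j t 3 x c β)
    (C : Cp.Comp j (t : P) lo hi e) {n : ℕ} (hn : j = n + 2) {z : P}
    (hz : z ∈ UE j (cext (j + 1) (topOf : P → Tops P) t) x 2) :
    z ≤ (t : P) ∧ lev z = n ∧
    (((∀ k, k ≤ 3 → x k = e j (lo j + k)) ∧ hi (n + 1) = hi n ∧ hi (n + 2) = hi (n + 1) + 1 ∧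
        z = e n (hi n)) ∨
      ((∀ k, k ≤ 3 → x k = e j (hi j - k)) ∧ lo (n + 1) = lo n + 1 ∧ lo (n + 2) = lo (n + 1) ∧
        z = e n (lo n))) := by
  classical
  subst hn
  have H := h.g.H
  have W := NJ.prow h hj B (by omega)
  obtain ⟨hlen, hor⟩ := B.orient h hj C
  have s1 := C.lo_step n (by omega)
  have s2 := C.lo_step (n + 1) (by omega)
  have s3 := C.hi_step n (by omega)
  have s4 := C.hi_step (n + 1) (by omega)
  have s5 := C.lo_le n (by omega)
  have s6 := C.lo_le (n + 1) (by omega)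
  rw [show n + 1 + 1 = n + 2 by omega] at s2 s4
  have cov' : ∀ s a, lo (n + 2) ≤ s → s ≤ hi (n + 2) → lo (n + 1) ≤ a → a ≤ hi (n + 1) →
      (e (n + 2) s ⋖ e (n + 1) a ↔ a = s ∨ a + 1 = s) := fun s a => C.cov (n + 1) s a (by omega)
  obtain ⟨hzC, hzP, hzs⟩ := mem_UE.1 hz
  obtain ⟨-, u, -, -, -, -, -, hu⟩ := PN_dat H (C := cext (n + 2 + 1) (topOf : P → Tops P) t)
    (SO.mem_PN.2 ⟨hzC, Or.inr hzP⟩)
  rcases hu with ⟨g1, -⟩ | ⟨-, hlz, hlu, hdz, hsu, -⟩
  · have := lev_PU hzP
    have := lev_PD g1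
    omega
  have hux2 : x 2 ⋖ u := by
    rw [← mem_dc, ← hsu, hzs]
    exact (W.mem_ed (by omega) (by omega)).2 (Or.inl rfl)
  have hux3 : x 3 ⋖ u := by
    rw [← mem_dc, ← hsu, hzs]
    exact (W.mem_ed (by omega) (by omega)).2 (Or.inr rfl)
  have huz : u ⋖ z := by rw [← mem_dc, hdz]; exact mem_singleton_self u
  have hx2t : x 2 ≤ (t : P) := by
    rw [← B.row.kap 2 (by omega)]
    exact le_topOf (x 2)
  have hut : u ≤ (t : P) := Cp.up_le H h.g.good t.2 hx2t
    (by have := B.row.lev_x 2 (by omega); omega) hux2.le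
  have hzt : z ≤ (t : P) := Cp.up_le H h.g.good t.2 hut (by omega) huz.le
  obtain ⟨a, a1, a2, a3⟩ := C.surj u hut (by omega)
  obtain ⟨b, b1, b2, b3⟩ := C.surj z hzt (by omega)
  have lu : lev u = n + 1 := by omega
  have lz : lev z = n := by omega
  rw [lu] at a1 a2 a3
  rw [lz] at b1 b2 b3
  refine ⟨hzt, lz, ?_⟩
  subst a3
  subst b3
  have hzd := (C.single_down H (k := n) (by omega) b1 b2).1 (lev_PU hzP).2
  have hcz := (C.cov n a b (by omega) a1 a2 b1 b2).1 huz
  rcases hor with hor | hor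
  · left
    have h2 := hor 2 (by omega)
    have h3 := hor 3 (by omega)
    rw [h2] at hux2
    rw [h3] at hux3
    have c2 := (cov' _ a (by omega) (by omega) a1 a2).1 hux2
    have c3 := (cov' _ a (by omega) (by omega) a1 a2).1 hux3
    have hb : b = hi n := by omega
    exact ⟨hor, by omega, by omega, by rw [hb]⟩
  · right
    have h2 := hor 2 (by omega)
    have h3 := hor 3 (by omega)
    rw [h2] at hux2
    rw [h3] at hux3
    have c2 := (cov' _ a (by omega) (by omega) a1 a2).1 hux2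
    have c3 := (cov' _ a (by omega) (by omega) a1 a2).1 hux3
    have hb : b = lo n := by omega
    exact ⟨hor, by omega, by omega, by rw [hb]⟩

/-- no private parent of an upper pendant over the last double, known shape -/
theorem NJ.upen_zero (h : NJ P r j) (hj : 2 ≤ j) (B : RowB P j t 3 x c β)
    (C : Cp.Comp j (t : P) lo hi e) (S : Shape j lo hi) {z : P}
    (hz : z ∈ UE j (cext (j + 1) (topOf : P → Tops P) t) x 2) :
    (uc z).filter (fun g => (dc g).card = 1) = ∅ := by
  classical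
  have H := h.g.H
  obtain ⟨n, hn⟩ : ∃ n, j = n + 2 := ⟨j - 2, by omega⟩
  obtain ⟨hzt, lz, hor⟩ := NJ.letters h hj B C hn hz
  subst hn
  obtain ⟨hlen, -⟩ := B.orient h hj C
  rw [eq_empty_iff_forall_notMem]
  intro g hg
  rw [mem_filter] at hg
  have hlg := lev_uc H hg.1
  have hgt : g ≤ (t : P) := Cp.up_le H h.g.good t.2 hzt (by omega) (mem_uc.1 hg.1).le
  obtain ⟨k, rfl⟩ : ∃ k, n = k + 1 := ⟨n - 1, by omega⟩
  obtain ⟨a, a1, a2, a3⟩ := C.surj g hgt (by omega)
  have lg : lev g = k := by omega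
  rw [lg] at a1 a2 a3
  subst a3
  have e1 := (C.single_down H (k := k) (by omega) a1 a2).1 hg.2
  obtain ⟨w1, w2⟩ := wide_cco C S hlen (by omega)
  rw [show k + 1 - 1 = k by omega] at w1 w2
  have s0 := C.lo_step k (by omega)
  have s0' := C.hi_step k (by omega)
  have s1 := C.lo_step (k + 1) (by omega)
  have s2 := C.lo_step (k + 2) (by omega)
  have s3 := C.hi_step (k + 1) (by omega)
  have s4 := C.hi_step (k + 2) (by omega)
  have s5 := C.lo_le (k + 1) (by omega)
  have s6 := C.lo_le k (by omega)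
  rw [show k + 1 + 1 = k + 2 by omega] at s1 s3 w1 w2
  rw [show k + 2 + 1 = k + 1 + 2 by omega] at s2 s4
  rw [show k + 1 + 1 = k + 2 by omega] at hor
  rcases hor with ⟨-, q1, q2, q3⟩ | ⟨-, q1, q2, q3⟩
  · rw [q3] at hg
    have c1 := (C.cov k (hi (k + 1)) a (by omega) (by omega) (by omega) a1 a2).1 (mem_uc.1 hg.1)
    refine w1 ⟨?_, q1, q2⟩
    omega
  · rw [q3] at hg
    have c1 := (C.cov k (lo (k + 1)) a (by omega) (by omega) (by omega) a1 a2).1 (mem_uc.1 hg.1)
    refine w2 ⟨?_, q1, q2⟩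
    omega

/-- STRICT positivity for the pattern R with four sites; both orientations -/
theorem NJ.F_r3_pos (h : NJ P r j) (hj : 2 ≤ j) (B : RowB P j t 3 x c β) (hβ : β = 1)
    (c0 : c 0 = -1) (C : Cp.Comp j (t : P) lo hi e) (S : Shape j lo hi)
    (hw3 : I2.w3 (I2.bb j (j + 1) (topOf : P → Tops P) t)
      (I2.VV j (j + 1) (topOf : P → Tops P) t) = 0)
    (hp : pen (x 1) ≠ ∅ → pen (x 0) ≠ ∅) :
    2 ≤ Fn j (cext (j + 1) (topOf : P → Tops P) t) := by
  classical
  have hb : β ≠ 0 := by rw [hβ]; norm_num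
  obtain ⟨c1, c2⟩ : c 1 = 0 ∧ c 2 = 0 := by
    rcases B.pat with ⟨h1, -⟩ | ⟨-, -, h3, h4⟩ | ⟨-, -, h3, h4⟩ | ⟨-, h2, -⟩ | ⟨-, h2, -⟩ |
      ⟨-, h2, -⟩ | ⟨h1, -⟩ | ⟨h1, -⟩
    · exact absurd h1 hb
    · exact ⟨h4 1 (by omega) (by omega), h4 2 (by omega) (by omega)⟩
    · have := h4 0 (by omega)
      rw [c0] at this
      norm_num at this
    · exact absurd h2 hb
    · exact absurd h2 hb
    · exact absurd h2 hb
    · omega
    · omega
  obtain ⟨K, psi, R⟩ := exists_red P j
  obtain ⟨x', hx'⟩ : ∃ x' : ℕ → P, x' = fun k => if k = 4 then x 0 else x k := ⟨_, rfl⟩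
  have hxk : ∀ k, k ≤ 3 → x' k = x k := by
    intro k hk
    rw [hx']
    show (if k = 4 then x 0 else x k) = x k
    rw [if_neg (by omega)]
  have hx4 : x' 4 = x' 0 := by
    rw [hxk 0 (by omega), hx']
    show (if 4 = 4 then x 0 else x 4) = x 0
    rw [if_pos rfl]
  have B' := B.congr hxk
  obtain ⟨w, v, D⟩ := NJ.rr h hj R B' hβ c0 c1 c2 hw3 hx4
  have hed : ed x' 2 = ed x 2 := by
    unfold ed
    rw [hxk 2 (by omega), hxk (2 + 1) (by omega)]
  have hUE : UE j (cext (j + 1) (topOf : P → Tops P) t) x' 2 =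
      UE j (cext (j + 1) (topOf : P → Tops P) t) x 2 := by
    unfold UE
    rw [hed]
  refine D.F_pos ?_ ?_ ?_
  · intro z hz
    obtain ⟨hzC, hzP, -⟩ := mem_UE.1 hz
    have h1 := D.W.ch_PU hzP hzC
    rw [hUE] at hz
    rw [NJ.upen_zero h hj B C S hz, card_empty] at h1
    push_cast at h1
    linarith
  · rw [hUE, hxk 1 (by omega)]
    exact fun hU => NJ.pen_one_zero h hj B hb C S hU
  · rw [hxk 1 (by omega), hxk 0 (by omega)]
    exact hp

/-- four sites, left end closed, an upper pendant over the right end double: no pendant below `x 3` -/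
theorem NJ.pen_three_zero (h : NJ P r j) (hj : 2 ≤ j) (B : RowB P j t 3 x c β)
    (hcl : (uc (x 0)).card = 2) (C : Cp.Comp j (t : P) lo hi e) (S : Shape j lo hi)
    (hU : UE j (cext (j + 1) (topOf : P → Tops P) t) x 2 ≠ ∅) : pen (x 3) = ∅ := by
  classical
  have H := h.g.H
  obtain ⟨n, hn⟩ : ∃ n, j = n + 2 := ⟨j - 2, by omega⟩
  obtain ⟨z, hz⟩ := nonempty_iff_ne_empty.2 hU
  obtain ⟨hzt, lz, hor⟩ := NJ.letters h hj B C hn hz
  subst hn
  obtain ⟨hlen, -⟩ := B.orient h hj C
  have hm := B.len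
  obtain ⟨w1, w2⟩ := wide_fuw C S hlen
  have s1 := C.lo_step n (by omega)
  have s2 := C.lo_step (n + 1) (by omega)
  have s3 := C.hi_step n (by omega)
  have s4 := C.hi_step (n + 1) (by omega)
  rw [show n + 1 + 1 = n + 2 by omega] at s2 s4
  have dbl' : ∀ s, lo (n + 2) ≤ s → s ≤ hi (n + 2) →
      ((uc (e (n + 2) s)).card = 2 ↔ lo (n + 1) < s ∧ s ≤ hi (n + 1)) := fun s g1 g2 =>
    C.double_up H h.g.good t.2 (k := n + 1) (by omega) g1 g2
  rcases hor with ⟨hor, q1, q2, q3⟩ | ⟨hor, q1, q2, q3⟩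
  · have h0 := hor 0 (by omega)
    have h3 := hor 3 (by omega)
    rw [h0, dbl' _ (by omega) (by omega)] at hcl
    have hf := w1 (by omega) q1 q2
    have hc := NJ.chain h (i := n) (by omega) le_rfl C (by omega)
    rw [hf] at hc
    have hpd : Wd.pdR lo hi n := ⟨q1, q2, by omega⟩
    rw [if_pos hpd] at hc
    rw [h3, ← hlen]
    exact card_eq_zero.1 (by omega)
  · have h0 := hor 0 (by omega)
    rw [h0, dbl' _ (by omega) (by omega)] at hcl
    exact absurd ⟨by omega, q1, q2⟩ w2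

/-- STRICT positivity for the pattern [DL] at a closed end, four sites -/
theorem NJ.F_dl3_pos (h : NJ P r j) (hj : 2 ≤ j) (B : RowB P j t 3 x c β)
    (hβ : β = 0) (c0 : c 0 = 1) (c1 : c 1 = -1) (c2 : c 2 = 0)
    (C : Cp.Comp j (t : P) lo hi e) (S : Shape j lo hi)
    (hw3 : I2.w3 (I2.bb j (j + 1) (topOf : P → Tops P) t)
      (I2.VV j (j + 1) (topOf : P → Tops P) t) = 0) (hcl : (uc (x 0)).card = 2) :
    2 ≤ Fn j (cext (j + 1) (topOf : P → Tops P) t) := by
  obtain ⟨K, psi, R⟩ := exists_red P j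
  obtain ⟨w, v, D⟩ := NJ.dlr h hj R B le_rfl hβ c0 c1 (fun k hk hk' => by
    have : k = 2 := by omega
    rw [this]; exact c2) hw3
  by_cases hU : UE j (cext (j + 1) (topOf : P → Tops P) t) x 2 = ∅
  · refine D.F_pos_one rfl hU ?_
    rcases D.W.uc_le (k := 3) (by omega) with h1 | h1
    · exact Or.inl h1
    · right
      by_cases h3 : pen (x 3) = ∅
      · exact Or.inl h3
      · right
        refine ⟨D.W.ue_zero (by omega) hcl, hcl, ?_⟩
        have h4 := NJ.pen_pair h hj B (k := 2) (l := 3) (by omega) (by omega)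
          (D.W.uc_inner (by omega) (by omega)) h1
        have h5 := card_pos.2 (nonempty_iff_ne_empty.2 h3)
        exact card_eq_zero.1 (by omega)
  · exact D.F_pos_two rfl hcl (NJ.pen_two_zero h hj B hcl hU)
      (NJ.pen_three_zero h hj B hcl C S hU) hU

/-- STRICT positivity for the pattern [DL], four sites, no upper pendant over the last double and the far
end open -/
theorem NJ.F_dl3_open (h : NJ P r j) (hj : 2 ≤ j) (B : RowB P j t 3 x c β)
    (hβ : β = 0) (c0 : c 0 = 1) (c1 : c 1 = -1) (c2 : c 2 = 0)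
    (hw3 : I2.w3 (I2.bb j (j + 1) (topOf : P → Tops P) t)
      (I2.VV j (j + 1) (topOf : P → Tops P) t) = 0)
    (hop : (uc (x 3)).card = 1) (hU : UE j (cext (j + 1) (topOf : P → Tops P) t) x 2 = ∅) :
    2 ≤ Fn j (cext (j + 1) (topOf : P → Tops P) t) := by
  obtain ⟨K, psi, R⟩ := exists_red P j
  obtain ⟨w, v, D⟩ := NJ.dlr h hj R B le_rfl hβ c0 c1 (fun k hk hk' => by
    have : k = 2 := by omega
    rw [this]; exact c2) hw3
  exact D.F_pos_one rfl hU (Or.inl hop)

end Pool.Agent.GaussPoset.EK
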