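import Pool.Agent.W_448kf_h15.KfG
import Pool.Agent.W_448e_h97.EM
import Pool.Agent.W_448nf_h84.NfB

/-!
MP_448cb3_co, G2, case B, window `j`: the rows of case B and their patterns [DL] in the frame of
`KfB`, `KfC`; reversed rows; `F ≥ 0` for the closed patterns [DL].  helper15.
-/

namespace Pool.Agent.GaussPoset.EK

set_option linter.unusedSectionVars false

open Finset Win St Polynomial Wd Win.W4
open Pool.Agent.GaussPoset.Win.SO (PN vp)

universe u

variable {P : Type u} [Fintype P] [PartialOrder P] [DecidableEq P] {r i j : ℕ}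

variable {m : ℕ} {x : ℕ → P} {c : ℕ → ℤ} {β : ℤ} {t : Tops P}

variable {K : Finset P} {psi : P → P}

lemma PcPat_rev (h : PcPat m c β) : PcPat m (fun k => c (m - 1 - k)) β := by
  rcases h with ⟨h1, h2⟩ | ⟨h1, h2, h3, h4⟩ | ⟨h1, h2, h3, h4⟩ | ⟨h1, h2, h3, h4, h5⟩ |
    ⟨h1, h2, h3, h4, h5⟩ | ⟨h1, h2, h3, h4, h5, h6, h7⟩ | ⟨h1, h2, h3, h4⟩ |
    ⟨h1, h2, h3, h4, h5, h6, h7⟩
  · exact Or.inl ⟨h1, fun k hk => h2 _ (by omega)⟩
  · refine Or.inr (Or.inr (Or.inl ⟨h1, h2, ?_, fun k hk => h4 _ (by omega) (by omega)⟩))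
    show c (m - 1 - (m - 1)) = -1
    rw [Nat.sub_self]; exact h3
  · refine Or.inr (Or.inl ⟨h1, h2, ?_, fun k hk hk' => h4 _ (by omega)⟩)
    show c (m - 1 - 0) = -1
    rw [Nat.sub_zero]; exact h3
  · refine Or.inr (Or.inr (Or.inr (Or.inr (Or.inl ⟨h1, h2, ?_, ?_,
      fun k hk => h5 _ (by omega) (by omega)⟩))))
    · show c (m - 1 - (m - 1)) = 1
      rw [Nat.sub_self]; exact h3
    · show c (m - 1 - (m - 2)) = -1
      rw [show m - 1 - (m - 2) = 1 by omega]; exact h4
  · refine Or.inr (Or.inr (Or.inr (Or.inl ⟨h1, h2, ?_, ?_, fun k hk hk' => h5 _ (by omega)⟩)))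
    · show c (m - 1 - 0) = 1
      rw [Nat.sub_zero]; exact h3
    · show c (m - 1 - 1) = -1
      rw [show m - 1 - 1 = m - 2 by omega]; exact h4
  · refine Or.inr (Or.inr (Or.inr (Or.inr (Or.inr (Or.inl ⟨h1, h2, ?_, ?_, ?_, ?_,
      fun k hk hk' => h7 _ (by omega) (by omega)⟩)))))
    · show c (m - 1 - 0) = 1
      rw [Nat.sub_zero]; exact h6
    · show c (m - 1 - 1) = -1
      rw [show m - 1 - 1 = m - 2 by omega]; exact h5
    · show c (m - 1 - (m - 2)) = -1
      rw [show m - 1 - (m - 2) = 1 by omega]; exact h4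
    · show c (m - 1 - (m - 1)) = 1
      rw [Nat.sub_self]; exact h3
  · subst h1
    exact Or.inr (Or.inr (Or.inr (Or.inr (Or.inr (Or.inr (Or.inl ⟨rfl, h2, h4, h3⟩))))))
  · subst h1
    refine Or.inr (Or.inr (Or.inr (Or.inr (Or.inr (Or.inr (Or.inr ⟨rfl, h2, h6, h5, h4, h3, ?_⟩))))))
    rcases h7 with ⟨a, b⟩ | ⟨a, b⟩
    · exact Or.inr ⟨b, a⟩
    · exact Or.inl ⟨b, a⟩

lemma kf_ucv_comm (a b : P) : ucv a b = ucv b a := by
  classical
  unfold ucv
  congr 1
  ext y
  simp only [mem_filter, mem_univ, true_and]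
  exact and_comm

/-- the reversed row -/
theorem RowB.rev (B : RowB P j t m x c β) :
    RowB P j t m (fun k => x (m - k)) (fun k => c (m - 1 - k)) β where
  row :=
    { lev_x := fun k hk => B.row.lev_x _ (by omega)
      inj := fun k l hk hl h => by
        have := B.row.inj _ _ (by omega) (by omega) h
        omega
      kap := fun k hk => B.row.kap _ (by omega)
      surj := fun v h1 h2 => by
        obtain ⟨k, hk, rfl⟩ := B.row.surj v h1 h2
        exact ⟨m - k, by omega, by show x (m - (m - k)) = x k; rw [show m - (m - k) = k by omega]⟩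
      df := fun k l hkl hl => by
        show Df j {x (m - k), x (m - l)} = _
        rw [pair_comm, B.row.df (m - l) (m - k) (by omega) (by omega)]
        by_cases h : l = k + 1
        · subst h
          rw [if_pos (by omega), if_pos rfl]
          show c (m - (k + 1)) = c (m - 1 - k)
          congr 1
          omega
        · rw [if_neg (by omega), if_neg h]
          by_cases h2 : k = 0 ∧ l = m
          · rw [if_pos (by omega), if_pos h2]
          · rw [if_neg (by omega), if_neg h2] }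
  pat := PcPat_rev B.pat
  ends := fun h => by
    obtain ⟨h1, h2⟩ := B.ends h
    refine ⟨?_, ?_⟩
    · show (uc (x (m - 0))).card = 1
      rw [Nat.sub_zero]; exact h2
    · show (uc (x (m - m))).card = 1
      rw [Nat.sub_self]; exact h1
  lost := fun a h1 h2 h3 h4 => by
    refine B.lost (m - a) (by omega) (by omega) ?_ ?_
    · have : m - a - 1 = m - 1 - a := by omega
      rw [this]; exact h4
    · have : m - a = m - 1 - (a - 1) := by omega
      rw [this]; exact h3
  pen0 := fun a h1 h2 => B.pen0 (m - a) (by omega) (by omega)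
  len := B.len
  ucv_x := fun a b h1 h2 => by
    show ucv (x (m - a)) (x (m - b)) = _
    rw [kf_ucv_comm, B.ucv_x (m - b) (m - a) (by omega) (by omega)]
    by_cases h : b = a + 1
    · rw [if_pos (by omega), if_pos h]
    · rw [if_neg (by omega), if_neg h]
  pu := fun a h1 h2 u hu1 hu2 z hz => by
    refine B.pu (m - (a + 1)) (by omega) (by omega) u hu2 ?_ z hz
    rw [show m - (a + 1) + 1 = m - a by omega]
    exact hu1

/-- common lower covers of two elements of the level above a row -/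
lemma RowB.up1 (h : NJ P r j) (B : RowB P j t m x c β) (hj : 2 ≤ j) {u u' : P}
    (hu : u ∈ cext (j + 1) (topOf : P → Tops P) t) (hlu : lev u + 1 = j) (hlu' : lev u' + 1 = j)
    (hne : u ≠ u') : ucv u u' ≤ 1 := by
  classical
  have H := h.g.H
  rw [h.g.good (j - 1) (by omega) u u' (by omega) (by omega) hne]
  unfold dcv
  rw [card_le_one]
  intro a ha b hb
  rw [mem_filter] at ha hb
  by_contra hab
  have hC := part_cext H (le_refl (j + 1)) h.split t
  have key : ∀ a, a ⋖ u → ∃ k, k ≤ m ∧ x k = a := by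
    intro a ha
    have hla := lev_cov H ha
    have haC := hC.dn hu (by omega) ha
    exact B.row.surj a (by omega) ((mem_cext.1 haC) a le_rfl (by omega))
  obtain ⟨k, hk, rfl⟩ := key a ha.2.1
  obtain ⟨l, hl, rfl⟩ := key b hb.2.1
  have h2 : ({u, u'} : Finset P) ⊆ univ.filter (fun y => x k ⋖ y ∧ x l ⋖ y) := by
    intro s hs
    rw [mem_insert, mem_singleton] at hs
    rw [mem_filter]
    rcases hs with rfl | rfl
    · exact ⟨mem_univ _, ha.2.1, hb.2.1⟩
    · exact ⟨mem_univ _, ha.2.2, hb.2.2⟩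
  have h3 := card_le_card h2
  rw [card_pair hne] at h3
  have h4 : ucv (x k) (x l) ≤ 1 := by
    rcases Nat.lt_trichotomy k l with h5 | h5 | h5
    · rw [B.ucv_x k l h5 hl]
      split_ifs <;> omega
    · exact absurd (by rw [h5]) hab
    · rw [kf_ucv_comm, B.ucv_x l k h5 hk]
      split_ifs <;> omega
  unfold ucv at h4
  have h5 : (univ.filter (fun y => x k ⋖ y ∧ x l ⋖ y)).card ≤ 1 := by convert h4
  omega

/-- a pendant above the upper double of an end pair is impossible if the end is closed -/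
lemma RowB.closed (h : NJ P r j) (B : RowB P j t m x c β) (hj : 2 ≤ j) (hm : 2 ≤ m)
    (h0 : (uc (x 0)).card = 2) {u z : P} (hu : x 0 ⋖ u) (hu1 : x 1 ⋖ u) (hz : u ⋖ z) :
    (dc z).card = 2 := by
  classical
  have H := h.g.H
  have l0 := B.row.lev_x 0 (by omega)
  have l1 := B.row.lev_x 1 (by omega)
  have l2 := B.row.lev_x 2 (by omega)
  have hlu := lev_cov H hu
  have hlz := lev_cov H hz
  rcases dc_card_cases H hz with hz1 | hz1
  swap
  · exact hz1
  exfalso
  have hC := part_cext H (le_refl (j + 1)) h.split t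
  have huC : u ∈ cext (j + 1) (topOf : P → Tops P) t :=
    hC.up (mem_cext_of_le h.split (by omega) (B.row.kap 0 (by omega))) hu
  -- the other cover of `x 0`
  obtain ⟨u0, hu0, hne0⟩ := exists_other_uc (y := u) h0
  have hlu0 := lev_cov H hu0
  -- the next double
  have h12 := B.ucv_x 1 2 (by omega) hm
  rw [if_pos rfl] at h12
  unfold ucv at h12
  obtain ⟨u2, hu2⟩ := card_pos.1 (show 0 < (univ.filter
    (fun y : P => x 1 ⋖ y ∧ x 2 ⋖ y)).card by omega)
  rw [mem_filter] at hu2
  have hlu2 := lev_cov H hu2.2.1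
  have hne2 : u ≠ u2 := by
    rintro rfl
    have h02 := B.ucv_x 0 2 (by omega) hm
    rw [if_neg (by omega)] at h02
    unfold ucv at h02
    rw [card_eq_zero, filter_eq_empty_iff] at h02
    exact h02 (mem_univ u) ⟨hu, hu2.2.2⟩
  have hne02 : u0 ≠ u2 := by
    rintro rfl
    have h02 := B.ucv_x 0 2 (by omega) hm
    rw [if_neg (by omega)] at h02
    unfold ucv at h02
    rw [card_eq_zero, filter_eq_empty_iff] at h02
    exact h02 (mem_univ u0) ⟨hu0, hu2.2.2⟩
  -- common upper covers
  have g1 := h.g.good (j - 1) (by omega) u u0 (by omega) (by omega) (Ne.symm hne0)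
  have g2 := h.g.good (j - 1) (by omega) u u2 (by omega) (by omega) hne2
  have d1 : 0 < dcv u u0 := by
    unfold dcv
    exact card_pos.2 ⟨x 0, by rw [mem_filter]; exact ⟨mem_univ _, hu, hu0⟩⟩
  have d2 : 0 < dcv u u2 := by
    unfold dcv
    exact card_pos.2 ⟨x 1, by rw [mem_filter]; exact ⟨mem_univ _, hu1, hu2.2.1⟩⟩
  rw [← g1] at d1
  rw [← g2] at d2
  unfold ucv at d1 d2
  obtain ⟨p, hp⟩ := card_pos.1 d1
  obtain ⟨q, hq⟩ := card_pos.1 d2
  rw [mem_filter] at hp hq
  have hzd : ∀ y, y ⋖ z → y = u := fun y hy => dc_unique hz1 hy hz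
  have hpz : p ≠ z := by
    rintro rfl
    exact hne0 (hzd u0 hp.2.2)
  have hqz : q ≠ z := by
    rintro rfl
    exact hne2 (hzd u2 hq.2.2).symm
  have hpq : p = q := by
    by_contra hpq
    have h3 : ({p, q, z} : Finset P) ⊆ uc u := by
      intro s hs
      rw [mem_insert, mem_insert, mem_singleton] at hs
      rcases hs with rfl | rfl | rfl
      · exact mem_uc.2 hp.2.1
      · exact mem_uc.2 hq.2.1
      · exact mem_uc.2 hz
    have h4 := card_le_card h3
    rw [card_insert_of_notMem (by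
      rw [mem_insert, mem_singleton]
      push Not
      exact ⟨hpq, hpz⟩), card_pair hqz] at h4
    rcases uc_card_cases H (x := u) (by omega) with h5 | h5 <;> omega
  subst hpq
  exact dc_three H hp.2.1 hp.2.2 hq.2.2 (Ne.symm hne0) hne2 hne02

/-- elements of level `j - 2` over three sites have double covers below -/
lemma RowB.zu (h : NJ P r j) (B : RowB P j t m x c β) (hj : 2 ≤ j) {z : P}
    (hz : z ∈ ZU j (cext (j + 1) (topOf : P → Tops P) t)) : ∀ u ∈ dc z, (dc u).card = 2 := by
  classical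
  have H := h.g.H
  obtain ⟨hzC, hlz, h3⟩ := mem_ZU.1 hz
  obtain ⟨a, b, hab, hc⟩ := card_eq_two.1 (card_dc_of_dn H hlz h3)
  have k3 := dn_two H hlz hc
  rw [h3] at k3
  have k4 := card_union_add_card_inter (dc a) (dc b)
  have ha : a ∈ dc z := by rw [hc]; exact mem_insert_self _ _
  have hb : b ∈ dc z := by rw [hc]; exact mem_insert_of_mem (mem_singleton_self _)
  have hla := lev_dc H ha
  have hlb := lev_dc H hb
  have g1 := h.g.good (j - 1) (by omega) a b (by omega) (by omega) hab
  have g2 := StA_ucv_pos (mem_dc.1 ha) (mem_dc.1 hb)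
  rw [g1] at g2
  unfold dcv at g2
  obtain ⟨q, hq⟩ := card_pos.1 (show 0 < _ from g2)
  rw [mem_filter] at hq
  have h5 : 1 ≤ (dc a ∩ dc b).card :=
    card_pos.2 ⟨q, mem_inter.2 ⟨mem_dc.2 hq.2.1, mem_dc.2 hq.2.2⟩⟩
  have h6 := dc_card_cases H hq.2.1
  have h7 := dc_card_cases H hq.2.2
  intro u hu
  rw [hc, mem_insert, mem_singleton] at hu
  rcases hu with rfl | rfl <;> omega

/-- THE FRAME for the rows of case B -/
theorem NJ.prow (h : NJ P r j) (hj : 2 ≤ j) (B : RowB P j t m x c β) (hm : 2 ≤ m) :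
    PRow r j (cext (j + 1) (topOf : P → Tops P) t) m x where
  H := h.g.H
  hi := by omega
  hi2 := h.hr
  hC := part_cext h.g.H le_rfl h.split t
  lev_x := B.row.lev_x
  inj := B.row.inj
  mem := fun k hk => mem_cext_of_le h.split (by rw [B.row.lev_x k hk]; omega) (B.row.kap k hk)
  surj := fun v hv hl => B.row.surj v hl ((mem_cext.1 hv) v le_rfl (by omega))
  up := B.ucv_x
  up1 := fun u hu u' _ hl hl' hne => B.up1 h hj hu hl hl' hne
  pu := B.pu
  uc1 := NJ.UC_le h hj t
  pen0 := B.pen0
  cl := fun g s hs hg => by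
    have H := h.g.H
    rw [mem_cext] at hs ⊢
    intro y hy hl
    rcases eq_or_lt_of_le hy with rfl | hlt
    · have hgs : g ⋖ s := mem_uc.1 (by rw [hg]; exact mem_singleton_self s)
      have h1 := lev_cov H hgs
      have h2 := hs s le_rfl (by omega)
      rw [← h2]
      exact h.split hgs hl
    · obtain ⟨s', hs', hs2⟩ := exists_covBy_le_of_lt hlt
      have h1 : s' = s := by
        have := mem_uc.2 hs'
        rw [hg, mem_singleton] at this
        exact this
      subst h1
      exact hs y hs2 hl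
  zu := fun z hz => B.zu h hj hz
  e0 := fun h0 u hu hu1 z hz => B.closed h hj hm h0 hu hu1 hz
  em := fun h0 u hu hu1 z hz => by
    refine B.rev.closed h hj hm ?_ (u := u) ?_ ?_ hz
    · show (uc (x (m - 0))).card = 2
      rw [Nat.sub_zero]; exact h0
    · show x (m - 0) ⋖ u
      rw [Nat.sub_zero]; exact hu1
    · exact hu

end Pool.Agent.GaussPoset.EK
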