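import Pool.Agent.W_448kf_h15.KfK

/-!
MP_448cb3_co, G2, case B, window `j`: bounds for `F` of a part with four sites and the pattern R.
helper15.
-/

namespace Pool.Agent.GaussPoset.Win.W4

set_option linter.unusedSectionVars false

open Finset
open Pool.Agent.GaussPoset.Win.SO (PN vp con on mem_PN vp_PD vp_PU)

universe u

variable {P : Type u} [Fintype P] [PartialOrder P] [DecidableEq P] {r i : ℕ}
variable {psi : P → P} {C K : Finset P} {w v : P} {m : ℕ} {x : ℕ → P}

namespace PRow

variable (W : PRow r i C m x)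
include W

/-- the children of an upper pendant -/
lemma ch_PU {z : P} (hz : z ∈ PU P i) (hzC : z ∈ C) :
    ch i C z ≤ 2 * (((uc z).filter (fun g => (dc g).card = 1)).card : ℤ) := by
  classical
  have H := W.H
  obtain ⟨-, y, hcon, -, -, hs2, -, hor⟩ := PN_dat H (C := C) (mem_PN.2 ⟨hzC, Or.inr hz⟩)
  rcases hor with ⟨h3, -⟩ | ⟨-, hlz, hly, h4, hsit, -, -⟩
  · have := lev_PD h3
    have := lev_PU hz
    omega
  have hsub : Ch i C z ⊆ (uc z).filter (fun g => (dc g).card = 1) := by
    intro g hg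
    rw [mem_Ch] at hg
    obtain ⟨hgC, hcd, hne⟩ := hg
    rcases hcd with ⟨h1, -⟩ | ⟨-, h2, h3⟩
    · omega
    rw [hcon] at h3
    -- `g` has a lower cover
    obtain ⟨s, hs⟩ : (dc g).Nonempty := by
      obtain ⟨q, hq, hql⟩ := H.exists_below (x := g) (j := i) (by omega) (by
        have := W.hi2; omega)
      obtain ⟨s, hs, -⟩ := exists_covBy_le_of_lt (show q < g from
        lt_of_le_of_ne hq (fun h => by rw [h] at hql; omega))
      obtain ⟨s', hs', -⟩ : ∃ s', s' ⋖ g ∧ q ≤ s' := by
        obtain ⟨s', h5, h6⟩ := exists_le_covBy_of_lt (show q < g from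
          lt_of_le_of_ne hq (fun h => by rw [h] at hql; omega))
        exact ⟨s', h6, h5⟩
      exact ⟨s', mem_dc.2 hs'⟩
    have hs1 := h3 hs
    rw [mem_insert, mem_singleton] at hs1
    have hls := lev_dc H hs
    have hall : ∀ s' ∈ dc g, s' = s := by
      intro s' hs'
      have h5 := h3 hs'
      rw [mem_insert, mem_singleton] at h5
      have h6 := lev_dc H hs'
      rcases hs1 with rfl | rfl <;> rcases h5 with rfl | rfl <;> first | rfl | omega
    have hdg : dc g = {s} := eq_singleton_iff_unique_mem.2 ⟨hs, hall⟩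
    rcases hs1 with rfl | rfl
    · rw [mem_filter]
      exact ⟨mem_uc.2 (mem_dc.1 hs), by rw [hdg, card_singleton]⟩
    · exfalso
      have h5 : g ∈ UC i C := mem_UC.2 ⟨hgC, mem_PU.2 ⟨by omega, by rw [hdg, card_singleton], s,
        mem_dc.1 hs, by rw [← hsit]; exact hs2⟩⟩
      have h6 : z ∈ UC i C := mem_UC.2 ⟨hzC, hz⟩
      exact hne (card_le_one.1 W.uc1 g h5 z h6)
  unfold ch
  calc ∑ g ∈ Ch i C z, c3 i C (z, g) ≤ ∑ _g ∈ Ch i C z, (2 : ℤ) := by
        refine sum_le_sum fun g _ => ?_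
        unfold c3
        split_ifs <;> norm_num
    _ = 2 * ((Ch i C z).card : ℤ) := by rw [sum_const, nsmul_eq_mul]; ring
    _ ≤ _ := by
        have := card_le_card hsub
        have h7 : ((Ch i C z).card : ℤ) ≤
          (((uc z).filter (fun g => (dc g).card = 1)).card : ℤ) := by exact_mod_cast this
        linarith

/-- the lower pendants over an edge are below its double -/
lemma DE_pen {k : ℕ} (hk : k < m) (h1 : dcv (x k) (x (k + 1)) = 1) :
    ∃ y, y ∈ C ∧ uc y = ed x k ∧ DE i C x k = pen y := by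
  classical
  have H := W.H
  have h1' := h1
  unfold dcv at h1'
  obtain ⟨s, hs⟩ := card_eq_one.1 h1'
  have hss : s ∈ univ.filter (fun y => y ⋖ x k ∧ y ⋖ x (k + 1)) := by
    rw [hs]; exact mem_singleton_self s
  rw [mem_filter] at hss
  have hls := lev_cov H hss.2.1
  have hlk := W.lev_x k (by omega)
  have hus : uc s = ed x k := StB_uc_pair H hss.2.1 hss.2.2 (W.ne (by omega) (by omega) (by omega))
  have hsC : s ∈ C := W.hC.dn (W.mem k (by omega)) (by omega) hss.2.1
  have huniq : ∀ y', uc y' = ed x k → y' = s := by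
    intro y' hy'
    have : y' ∈ ({s} : Finset P) := by
      rw [← hs, mem_filter]
      refine ⟨mem_univ _, ?_, ?_⟩
      · rw [← mem_uc, hy']
        exact (W.mem_ed (by omega) hk).2 (Or.inl rfl)
      · rw [← mem_uc, hy']
        exact (W.mem_ed (by omega) hk).2 (Or.inr rfl)
    exact mem_singleton.1 this
  refine ⟨s, hsC, hus, ?_⟩
  ext g
  constructor
  · intro hg
    obtain ⟨hgC, hgP, hgs⟩ := mem_DE.1 hg
    obtain ⟨-, y', -, -, -, -, -, hor'⟩ := PN_dat H (C := C) (mem_PN.2 ⟨hgC, Or.inl hgP⟩)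
    rcases hor' with ⟨-, hlg, hly', g4, g5, -, -⟩ | ⟨g3, -⟩
    swap
    · have := lev_PU g3
      have := lev_PD hgP
      omega
    have hye' : uc y' = ed x k := by rw [← g5, hgs]
    have hyy : y' = s := huniq y' hye'
    subst hyy
    exact mem_pen.2 ⟨mem_uc.1 (by rw [g4]; exact mem_singleton_self y'),
      by rw [g4, card_singleton]⟩
  · intro hg
    have hgu := uc_pen hg
    have hgl := lev_cov H (mem_pen.1 hg).1
    have hgC := W.cl g s hsC hgu
    refine mem_DE.2 ⟨hgC, mem_PD.2 ⟨by omega, by rw [hgu, card_singleton], s,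
      (mem_pen.1 hg).1, ?_⟩, ?_⟩
    · rw [hus]
      exact W.card_ed hk
    · rw [SO.sit_PD H (by omega) hgu, hus]

/-- the children of the lower pendants over an edge -/
lemma sum_DE {k : ℕ} (hk : k < m) (h1 : dcv (x k) (x (k + 1)) = 1) :
    ∑ z ∈ DE i C x k, vp i z * ch i C z = ∑ a ∈ DE i C x k, (2 * ((pen a).card : ℤ)) +
      (DE i C x k).card * ((DE i C x k).card - 1) := by
  classical
  obtain ⟨y, hyC, hy, hD⟩ := W.DE_pen hk h1
  have e5 : ∀ z ∈ DE i C x k, vp i z * ch i C z =
      2 * ((pen z).card : ℤ) + ((DE i C x k).card - 1) := by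
    intro a ham
    obtain ⟨haC, haP, has⟩ := mem_DE.1 ham
    have hap : a ∈ pen y := by rw [← hD]; exact ham
    rw [vp_PD haP, W.ch_PD haP haC (uc_pen hap), hD]
    ring
  rw [sum_congr rfl e5, sum_add_distrib, sum_const, nsmul_eq_mul]

/-- the children of the pendants over an edge -/
lemma CH_split (k : ℕ) : CH i C x k = ∑ z ∈ DE i C x k, vp i z * ch i C z +
    ∑ z ∈ UE i C x k, vp i z * ch i C z := by
  classical
  unfold CH
  have e1 : (PN i C).filter (fun z => sit i z = ed x k) = DE i C x k ∪ UE i C x k := by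
    rw [PN_eq, filter_union]
    rfl
  have e2 : Disjoint (DE i C x k) (UE i C x k) := disjoint_filter_filter (DC_UC i C)
  rw [e1, sum_union e2]

lemma UE_one (k : ℕ) : (UE i C x k).card ≤ 1 :=
  (card_le_card (filter_subset _ _)).trans W.uc1

/-- two pendants below the same double cannot both have two private children -/
lemma pen_two {y a b : P} (hab : a ≠ b) (ha : a ∈ pen y) (hb : b ∈ pen y) :
    (pen a).card + (pen b).card ≤ 3 := by
  classical
  have H := W.H
  by_contra hcon
  have ha2 := W.pen_le a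
  have hb2 := W.pen_le b
  have hpa : (pen a).card = 2 := by omega
  have hpb : (pen b).card = 2 := by omega
  have hla := lev_cov H (mem_pen.1 ha).1
  have hlb := lev_cov H (mem_pen.1 hb).1
  have hua := uc_pen ha
  have hub := uc_pen hb
  have hdc : ∀ a : P, (pen a).card = 2 → dc a = pen a := by
    intro a h2
    have h3 : pen a ⊆ dc a := fun s hs => mem_dc.2 (mem_pen.1 hs).1
    symm
    refine eq_of_subset_of_card_le h3 ?_
    obtain ⟨g, hg⟩ := card_pos.1 (show 0 < (pen a).card by omega)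
    rcases dc_card_cases H (mem_pen.1 hg).1 with h4 | h4 <;> omega
  have hno : ∀ a : P, (pen a).card = 2 → ∀ c : P, c ≠ a → dcv a c = 0 := by
    intro a h2 c hc
    unfold dcv
    rw [card_eq_zero, filter_eq_empty_iff]
    intro g _ hg
    have h3 : g ∈ pen a := by
      rw [← hdc a h2]
      exact mem_dc.2 hg.1
    have h4 := uc_pen h3
    have h5 := mem_uc.2 hg.2
    rw [h4, mem_singleton] at h5
    exact hc h5
  obtain ⟨g, hg⟩ := card_pos.1 (show 0 < (pen a).card by omega)
  have hlg := lev_cov H (mem_pen.1 hg).1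
  have hlr := H.lev_le g
  have hu0 : ∀ a : P, uc a = {y} → ∀ c : P, ucv a c ≠ 0 → c ⋖ y := by
    intro a h2 c hc
    unfold ucv at hc
    obtain ⟨s, hs⟩ := card_pos.1 (Nat.pos_of_ne_zero hc)
    rw [mem_filter] at hs
    have h3 := mem_uc.2 hs.2.1
    rw [h2, mem_singleton] at h3
    rw [← h3]
    exact hs.2.2
  have hdy : ∀ c : P, c ⋖ y → c = a ∨ c = b := by
    intro c hc
    by_contra h2
    push Not at h2
    have h3 : ({a, b, c} : Finset P) ⊆ dc y := by
      intro s hs
      rw [mem_insert, mem_insert, mem_singleton] at hs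
      rcases hs with rfl | rfl | rfl
      · exact mem_dc.2 (mem_pen.1 ha).1
      · exact mem_dc.2 (mem_pen.1 hb).1
      · exact mem_dc.2 hc
    have h4 := card_le_card h3
    rw [card_insert_of_notMem (by
      rw [mem_insert, mem_singleton]
      push Not
      exact ⟨hab, fun h5 => h2.1 h5.symm⟩), card_pair (fun h5 => h2.2 h5.symm)] at h4
    rcases dc_card_cases H hc with h5 | h5 <;> omega
  have key := Mp.pair_eq H (i := lev a) (by omega) rfl (by omega) hab (by
    intro c hlc hca hcb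
    constructor
    · rw [Mp.Df_val H rfl (Ne.symm hca), hno a hpa c hca]
      have : ucv a c = 0 := by
        by_contra h2
        rcases hdy c (hu0 a hua c h2) with h3 | h3
        · exact hca h3
        · exact hcb h3
      rw [this]
      rfl
    · rw [Mp.Df_val H (by omega) (Ne.symm hcb), hno b hpb c hcb]
      have : ucv b c = 0 := by
        by_contra h2
        rcases hdy c (hu0 b hub c h2) with h3 | h3
        · exact hca h3
        · exact hcb h3
      rw [this]
      rfl)
  rw [hno a hpa b (Ne.symm hab)] at key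
  have h2 : 0 < ucv a b := by
    unfold ucv
    refine card_pos.2 ⟨y, ?_⟩
    rw [mem_filter]
    exact ⟨mem_univ _, (mem_pen.1 ha).1, (mem_pen.1 hb).1⟩
  omega

/-- the private children of the pendants over an edge -/
lemma sum_pen_le {k : ℕ} (hk : k < m) (h1 : dcv (x k) (x (k + 1)) = 1) :
    (DE i C x k).card ≤ 2 ∧ (∑ a ∈ DE i C x k, ((pen a).card : ℤ)) ≤
      if (DE i C x k).card = 0 then 0 else if (DE i C x k).card = 1 then 2 else 3 := by
  classical
  obtain ⟨y, hyC, hy, hD⟩ := W.DE_pen hk h1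
  have h2 : (DE i C x k).card ≤ 2 := by
    rw [hD]
    exact W.pen_le y
  refine ⟨h2, ?_⟩
  have h3 : (DE i C x k).card = 0 ∨ (DE i C x k).card = 1 ∨ (DE i C x k).card = 2 := by omega
  rcases h3 with h3 | h3 | h3
  · rw [if_pos h3, card_eq_zero.1 h3, sum_empty]
  · rw [if_neg (by omega), if_pos h3]
    obtain ⟨a, ha⟩ := card_eq_one.1 h3
    rw [ha, sum_singleton]
    have := W.pen_le a
    omega
  · rw [if_neg (by omega), if_neg (by omega)]
    obtain ⟨a, b, hab, ha⟩ := card_eq_two.1 h3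
    have h4 : a ∈ pen y := by rw [← hD, ha]; exact mem_insert_self _ _
    have h5 : b ∈ pen y := by rw [← hD, ha]; exact mem_insert_of_mem (mem_singleton_self _)
    rw [ha, sum_pair hab]
    have := W.pen_two hab h4 h5
    omega

end PRow

namespace Rr

variable (h : Rr r i K psi C w v x)
include h

lemma dcv12 : dcv (x 1) (x (1 + 1)) = 1 := by
  have := h.dn 1 2 (by omega) (by omega)
  norm_num at this
  exact this

lemma dcv23 : dcv (x 2) (x (2 + 1)) = 1 := by
  have := h.dn 2 3 (by omega) (by omega)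
  norm_num at this
  exact this

lemma pen1_le : (pen (x 1)).card ≤ 1 := by
  have h1 := h.deg1
  have h2 := h.W.dc_le (k := 1) (by omega)
  omega

/-- BOUND for `F`: everything but the upper pendant over `x 2, x 3` -/
theorem F_bound {U : ℤ} (hU : ∀ z ∈ UE i C x 2, ch i C z ≤ U) (hU0 : 0 ≤ U)
    (h1 : UE i C x 2 = ∅ ∨ (U ≤ 2 ∧ pen (x 1) = ∅)) : 0 ≤ Fv i C := by
  classical
  have W := h.W
  have e0 := h.NE0
  have e1 := h.NE1
  have e3 := h.NE3
  have e12 := h.NE12
  have c1 : CH i C x 1 ≤ ∑ a ∈ DE i C x 1, (2 * ((pen a).card : ℤ)) +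
      (DE i C x 1).card * ((DE i C x 1).card - 1) := by
    rw [W.CH_split, W.sum_DE (by omega) h.dcv12, h.UE1, sum_empty, add_zero]
  rw [← mul_sum] at c1
  obtain ⟨b1, b2⟩ := W.sum_pen_le (k := 1) (by omega) h.dcv12
  obtain ⟨b3, -⟩ := W.sum_pen_le (k := 2) (by omega) h.dcv23
  have c2 : ((DE i C x 2).card : ℤ) * ((DE i C x 2).card - 1) - U * (UE i C x 2).card ≤
      CH i C x 2 := by
    rw [W.CH_split, W.sum_DE (by omega) h.dcv23]
    have g1 : 0 ≤ ∑ a ∈ DE i C x 2, (2 * ((pen a).card : ℤ)) :=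
      sum_nonneg fun a _ => by positivity
    have g2 : - (U * (UE i C x 2).card) ≤ ∑ z ∈ UE i C x 2, vp i z * ch i C z := by
      have : ∑ _z ∈ UE i C x 2, (-U) ≤ ∑ z ∈ UE i C x 2, vp i z * ch i C z := by
        refine sum_le_sum fun z hz => ?_
        rw [vp_PU (mem_UE.1 hz).2.1]
        have := hU z hz
        linarith
      rw [sum_const, nsmul_eq_mul] at this
      linarith
    linarith
  have u2 := W.UE_one (i := i) (C := C) 2
  have u02 := W.ue_sum 0 2 (by omega) (by omega) (by omega)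
  have h9 := card_le_card (T4_subset i C)
  have hp1 := h.pen1_le
  have e2 : NE i C x 2 = ((DE i C x 2).card : ℤ) - (UE i C x 2).card := rfl
  rw [h.F_form]
  have hp0 : (0 : ℤ) ≤ (pen (x 0)).card := by positivity
  have hb : (0 : ℤ) ≤ (DE i C x 3).card := by positivity
  -- numbers
  obtain ⟨n0, hn0⟩ : ∃ n, n = (UE i C x 0).card := ⟨_, rfl⟩
  obtain ⟨n1, hn1⟩ : ∃ n, n = (DE i C x 1).card := ⟨_, rfl⟩
  obtain ⟨n2, hn2⟩ : ∃ n, n = (DE i C x 2).card := ⟨_, rfl⟩
  obtain ⟨n2', hn2'⟩ : ∃ n, n = (UE i C x 2).card := ⟨_, rfl⟩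
  obtain ⟨n3, hn3⟩ : ∃ n, n = (DE i C x 3).card := ⟨_, rfl⟩
  obtain ⟨p1, hp⟩ : ∃ n, n = (pen (x 1)).card := ⟨_, rfl⟩
  have hUE : n2' = 0 ∨ (U ≤ 2 ∧ p1 = 0) := by
    rcases h1 with h1 | ⟨h1, h2⟩
    · left; rw [hn2', h1, card_empty]
    · right; exact ⟨h1, by rw [hp, h2, card_empty]⟩
  rw [← hn0] at e0 u02
  rw [← hn1] at e1 c1 b1 b2
  rw [← hn2] at e2 b3 c2
  rw [← hn2'] at e2 u2 u02 c2
  rw [← hn3] at e3 hb
  rw [← hp] at hp1 ⊢
  rw [e0, e1, e2, e3]
  rw [e1, e2] at e12
  have hz : (0 : ℤ) ≤ (Z4 i C).card - (T4 i C).card := by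
    have : ((T4 i C).card : ℤ) ≤ (Z4 i C).card := by exact_mod_cast h9
    linarith
  have q1 : n1 = 0 ∨ n1 = 1 ∨ n1 = 2 := by omega
  have q0 : n0 = 0 ∨ n0 = 1 := by omega
  have q2 : n2' = 0 ∨ n2' = 1 := by omega
  have qp : p1 = 0 ∨ p1 = 1 := by omega
  rcases q2 with rfl | rfl
  · -- no upper pendant over `x 2, x 3`
    rcases q1 with rfl | rfl | rfl
    · omega
    · have q3 : n2 = 0 := by omega
      subst q3
      rcases q0 with rfl | rfl <;> rcases qp with rfl | rfl <;> norm_num at c1 c2 b2 ⊢ <;> nlinarith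
    · have q3 : n2 = 1 := by omega
      subst q3
      rcases q0 with rfl | rfl <;> rcases qp with rfl | rfl <;> norm_num at c1 c2 b2 ⊢ <;> nlinarith
  · -- an upper pendant over `x 2, x 3`
    have q0' : n0 = 0 := by omega
    subst q0'
    rcases hUE with h2 | ⟨hU2, rfl⟩
    · omega
    rcases q1 with rfl | rfl | rfl
    · have q3 : n2 = 0 := by omega
      subst q3
      norm_num at c1 c2 b2 ⊢
      nlinarith
    · have q3 : n2 = 1 := by omega
      subst q3
      norm_num at c1 c2 b2 ⊢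
      nlinarith
    · have q3 : n2 = 2 := by omega
      subst q3
      norm_num at c1 c2 b2 ⊢
      nlinarith

end Rr

end Pool.Agent.GaussPoset.Win.W4
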