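import Pool.Agent.W_448kf_h15.KfC

/-!
MP_448cb3_co, G2, case B, window `j`: doubles, children of the pendants, elements over three sites of a
part whose sites are a row.  helper15.
-/

namespace Pool.Agent.GaussPoset.Win.W4

set_option linter.unusedSectionVars false

open Finset
open Pool.Agent.GaussPoset.Win.SO (PN vp con on mem_PN vp_PD vp_PU TD)

universe u

variable {P : Type u} [Fintype P] [PartialOrder P] [DecidableEq P] {r i : ℕ}
variable {psi : P → P} {C K : Finset P} {w v : P} {m : ℕ} {x : ℕ → P}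

lemma uc_pen {y g : P} (h : g ∈ pen y) : uc g = {y} := by
  obtain ⟨h1, h2⟩ := mem_pen.1 h
  obtain ⟨s, hs⟩ := card_eq_one.1 h2
  have h3 := mem_uc.2 h1
  rw [hs, mem_singleton] at h3
  rw [hs, h3]

namespace PRow

variable (W : PRow r i C m x)
include W

/-- the children of a lower pendant -/
lemma ch_PD {z y : P} (hz : z ∈ PD P i) (hzC : z ∈ C)
    (hy : uc z = {y}) : ch i C z = 2 * (pen z).card + (pen y).card - 1 := by
  classical
  have H := W.H
  obtain ⟨-, y', hcon, -, -, hs2, -, hor⟩ := PN_dat H (C := C) (mem_PN.2 ⟨hzC, Or.inl hz⟩)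
  rcases hor with ⟨-, hlz, hly, h4, hsit, -, -⟩ | ⟨h3, -⟩
  swap
  · have := lev_PU h3
    have := lev_PD hz
    omega
  have hyy : y' = y := by
    rw [hy, singleton_inj] at h4
    exact h4.symm
  subst hyy
  have hyC : y' ∈ C := W.hC.up hzC (mem_uc.1 (by rw [h4]; exact mem_singleton_self y'))
  have e1 : Ch i C z = pen z ∪ (pen y').erase z := by
    ext g
    rw [mem_Ch, mem_union, mem_erase]
    constructor
    · rintro ⟨hg, hcd, hne⟩
      rcases hcd with ⟨-, h2, h3⟩ | ⟨h1, -⟩
      · rw [hcon] at h3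
        obtain ⟨s, hs⟩ : (uc g).Nonempty := by
          rcases uc_card_cases H (x := g) (by omega) with h | h
          · exact card_pos.1 (by omega)
          · exact card_pos.1 (by omega)
        have hs1 := h3 hs
        rw [mem_insert, mem_singleton] at hs1
        have hls := lev_uc H hs
        have hall : ∀ s' ∈ uc g, s' = s := by
          intro s' hs'
          have h5 := h3 hs'
          rw [mem_insert, mem_singleton] at h5
          have h6 := lev_uc H hs'
          rcases hs1 with rfl | rfl <;> rcases h5 with rfl | rfl <;> first | rfl | omega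
        have hcard : (uc g).card = 1 := by
          rw [card_eq_one]
          exact ⟨s, eq_singleton_iff_unique_mem.2 ⟨hs, hall⟩⟩
        rcases hs1 with rfl | rfl
        · exact Or.inl (mem_pen.2 ⟨mem_uc.1 hs, hcard⟩)
        · exact Or.inr ⟨hne, mem_pen.2 ⟨mem_uc.1 hs, hcard⟩⟩
      · omega
    · rintro (h1 | ⟨h1, h2⟩)
      · have hl := lev_cov H (mem_pen.1 h1).1
        refine ⟨W.cl g z hzC (uc_pen h1), Or.inl ⟨by omega, by omega, ?_⟩, by rintro rfl; omega⟩
        rw [hcon, uc_pen h1]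
        exact singleton_subset_iff.2 (mem_insert_self _ _)
      · have hl := lev_cov H (mem_pen.1 h2).1
        refine ⟨W.cl g y' hyC (uc_pen h2), Or.inl ⟨by omega, by omega, ?_⟩, h1⟩
        rw [hcon, uc_pen h2]
        exact singleton_subset_iff.2 (mem_insert_of_mem (mem_singleton_self _))
  have hd : Disjoint (pen z) ((pen y').erase z) := by
    rw [disjoint_left]
    intro g h1 h2
    have h3 := lev_cov H (mem_pen.1 h1).1
    have h5 := lev_cov H (mem_pen.1 (mem_erase.1 h2).2).1
    omega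
  have hzy : z ∈ pen y' := mem_pen.2 ⟨mem_uc.1 (by rw [h4]; exact mem_singleton_self y'),
    by rw [h4, card_singleton]⟩
  unfold ch
  rw [e1, sum_union hd, sum_congr (g := fun _ => (2 : ℤ)) (s₁ := pen z) rfl,
    sum_congr (g := fun _ => (1 : ℤ)) (s₁ := (pen y').erase z) rfl]
  · rw [sum_const, sum_const, card_erase_of_mem hzy]
    have := card_pos.2 ⟨z, hzy⟩
    simp
    omega
  · intro g hg
    rw [mem_erase] at hg
    unfold c3
    rw [if_pos]
    refine ⟨mem_PN.2 ⟨W.cl g y' hyC (uc_pen hg.2), Or.inl (mem_PD.2 ?_)⟩, hg.1⟩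
    have hl := lev_cov H (mem_pen.1 hg.2).1
    refine ⟨show lev g = i + 2 by omega, (mem_pen.1 hg.2).2, y', (mem_pen.1 hg.2).1, ?_⟩
    rw [← hsit]
    exact hs2
  · intro g hg
    have hl := lev_cov H (mem_pen.1 hg).1
    unfold c3
    rw [if_neg]
    rintro ⟨h1, -⟩
    rcases (mem_PN.1 h1).2 with h | h
    · have h5 : lev g = i + 2 := (lev_PD h).1
      omega
    · have h5 : lev g + 2 = i := (lev_PU h).1
      omega

/-- the children are nonnegative -/
lemma ch_nonneg (z : P) : 0 ≤ ch i C z := by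
  unfold ch
  refine sum_nonneg fun g _ => ?_
  unfold c3
  split_ifs <;> norm_num

lemma pen_le (z : P) : (pen z).card ≤ 2 := by
  classical
  have H := W.H
  by_cases h : (pen z).Nonempty
  · obtain ⟨g, hg⟩ := h
    have h2 : pen z ⊆ dc z := fun s hs => mem_dc.2 (mem_pen.1 hs).1
    have h3 := card_le_card h2
    rcases dc_card_cases H (mem_pen.1 hg).1 with h | h <;> omega
  · rw [not_nonempty_iff_eq_empty] at h
    rw [h, card_empty]
    omega

/-- a lower double is over an edge -/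
lemma lo_ed (hd : ∀ k l, k < l → l ≤ m → l ≠ k + 1 → dcv (x k) (x l) = 0) {y : P} (hyC : y ∈ C)
    (hly : lev y = i + 1) (hy2 : (uc y).card = 2) : ∃ k, k < m ∧ uc y = ed x k := by
  classical
  obtain ⟨a, b, hab, hs⟩ := card_eq_two.1 hy2
  have ha : a ∈ uc y := by rw [hs]; exact mem_insert_self _ _
  have hb : b ∈ uc y := by rw [hs]; exact mem_insert_of_mem (mem_singleton_self _)
  have hla := lev_uc W.H ha
  have hlb := lev_uc W.H hb
  obtain ⟨k, hk, rfl⟩ := W.surj a (W.hC.up hyC (mem_uc.1 ha)) (by omega)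
  obtain ⟨l, hl, rfl⟩ := W.surj b (W.hC.up hyC (mem_uc.1 hb)) (by omega)
  have hkl : k ≠ l := by
    rintro rfl
    exact hab rfl
  have key : ∀ k l, k < l → l ≤ m → x k ∈ uc y → x l ∈ uc y → l = k + 1 := by
    intro k l hkl hl h1 h2
    by_contra hne
    have h3 := hd k l hkl hl hne
    unfold dcv at h3
    rw [card_eq_zero, filter_eq_empty_iff] at h3
    exact h3 (mem_univ y) ⟨mem_uc.1 h1, mem_uc.1 h2⟩
  rcases Nat.lt_or_gt_of_ne hkl with h | h
  · have := key k l h hl ha hb
    exact ⟨k, by omega, by rw [hs, this]; rfl⟩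
  · have := key l k h hk hb ha
    exact ⟨l, by omega, by rw [hs, this, pair_comm]; rfl⟩

/-- an upper double is over an edge -/
lemma up_ed {y : P} (hyC : y ∈ C) (hly : lev y + 1 = i) (hy2 : (dc y).card = 2) :
    ∃ k, k < m ∧ dc y = ed x k := by
  classical
  obtain ⟨a, b, hab, hs⟩ := card_eq_two.1 hy2
  have ha : a ∈ dc y := by rw [hs]; exact mem_insert_self _ _
  have hb : b ∈ dc y := by rw [hs]; exact mem_insert_of_mem (mem_singleton_self _)
  have hla := lev_cov W.H (mem_dc.1 ha)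
  have hlb := lev_cov W.H (mem_dc.1 hb)
  obtain ⟨k, hk, rfl⟩ := W.surj a (W.hC.dn hyC (by omega) (mem_dc.1 ha)) (by omega)
  obtain ⟨l, hl, rfl⟩ := W.surj b (W.hC.dn hyC (by omega) (mem_dc.1 hb)) (by omega)
  have hkl : k ≠ l := by
    rintro rfl
    exact hab rfl
  have key : ∀ k l, k < l → l ≤ m → x k ∈ dc y → x l ∈ dc y → l = k + 1 := by
    intro k l hkl hl h1 h2
    by_contra hne
    have h3 := W.up k l hkl hl
    rw [if_neg hne] at h3
    unfold ucv at h3
    rw [card_eq_zero, filter_eq_empty_iff] at h3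
    exact h3 (mem_univ y) ⟨mem_dc.1 h1, mem_dc.1 h2⟩
  rcases Nat.lt_or_gt_of_ne hkl with h | h
  · have := key k l h hl ha hb
    exact ⟨k, by omega, by rw [hs, this]; rfl⟩
  · have := key l k h hk hb ha
    exact ⟨l, by omega, by rw [hs, this, pair_comm]; rfl⟩

/-- the upper double over an edge is unique -/
lemma up_uniq {k : ℕ} (hk : k < m) {u u' : P} (h1 : dc u = ed x k) (h2 : dc u' = ed x k) :
    u = u' := by
  classical
  have h3 := W.up k (k + 1) (by omega) (by omega)
  rw [if_pos rfl] at h3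
  unfold ucv at h3
  rw [card_eq_one] at h3
  obtain ⟨s, hs⟩ := h3
  have key : ∀ u, dc u = ed x k → u = s := by
    intro u hu
    have : u ∈ ({s} : Finset P) := by
      rw [← hs, mem_filter]
      refine ⟨mem_univ _, ?_, ?_⟩
      · rw [← mem_dc, hu]
        exact (W.mem_ed (by omega) hk).2 (Or.inl rfl)
      · rw [← mem_dc, hu]
        exact (W.mem_ed (by omega) hk).2 (Or.inr rfl)
    exact mem_singleton.1 this
  rw [key u h1, key u' h2]

/-- two edges with exactly one common site -/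
lemma ed_near {k l : ℕ} (hk : k < m) (hl : l < m) {s : P} (h1 : s ∈ ed x k) (h2 : s ∈ ed x l)
    (hne : ed x k ≠ ed x l) : l = k + 1 ∨ k = l + 1 := by
  have h3 : ¬ Disjoint (ed x k) (ed x l) := by
    rw [disjoint_left]
    exact fun h => h h1 h2
  rw [W.disj_ed hk hl] at h3
  have h4 : k ≠ l := by
    rintro rfl
    exact hne rfl
  omega

/-- a lower element over two doubles -/
lemma T_low (hd : ∀ k l, k < l → l ≤ m → l ≠ k + 1 → dcv (x k) (x l) = 0) {z : P}
    (hz : z ∈ T4 i C) (hl : i < lev z) : ∃ k y y', k + 2 ≤ m ∧ z ∈ C ∧ lev z = i + 2 ∧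
      y ≠ y' ∧ uc z = {y, y'} ∧ uc y = ed x k ∧ uc y' = ed x (k + 1) ∧
      sit i z = ed x k ∪ ed x (k + 1) := by
  classical
  have H := W.H
  rcases mem_T4.1 hz with ⟨h1, h2⟩ | ⟨h1, -⟩
  swap
  · have := (mem_ZU.1 h1).2.1
    omega
  obtain ⟨hzC, hlz, h3⟩ := mem_ZL.1 h1
  obtain ⟨a, b, s, T⟩ := T4_low H h1 h2
  have hsit : sit i z = uc a ∪ uc b := by
    rw [sit_low H (by omega)]
    ext q
    rw [mem_sts_iff H hlz, T.cw, mem_union]
    simp
  have haz : a ∈ uc z := by rw [T.cw]; exact mem_insert_self _ _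
  have hbz : b ∈ uc z := by rw [T.cw]; exact mem_insert_of_mem (mem_singleton_self _)
  have haC := W.hC.up hzC (mem_uc.1 haz)
  have hbC := W.hC.up hzC (mem_uc.1 hbz)
  have hla := lev_uc H haz
  have hlb := lev_uc H hbz
  obtain ⟨k, hk, ek⟩ := W.lo_ed hd haC (by omega) T.cx
  obtain ⟨l, hl', el⟩ := W.lo_ed hd hbC (by omega) T.cx'
  have hne : ed x k ≠ ed x l := by
    intro h
    have h5 : (uc a).card = 1 := by
      rw [card_eq_one]
      refine ⟨s, eq_singleton_iff_unique_mem.2 ⟨T.sx, fun q hq => T.only q hq ?_⟩⟩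
      rw [el, ← h, ← ek]
      exact hq
    have := T.cx
    omega
  rcases W.ed_near hk hl' (s := s) (ek ▸ T.sx) (el ▸ T.sx') hne with h | h
  · subst h
    exact ⟨k, a, b, by omega, hzC, hlz, T.ne, T.cw, ek, el, by rw [hsit, ek, el]⟩
  · subst h
    exact ⟨l, b, a, by omega, hzC, hlz, T.ne.symm, by rw [T.cw, pair_comm], el, ek,
      by rw [hsit, ek, el, union_comm]⟩

/-- an upper element over two doubles -/
lemma T_upp {z : P} (hz : z ∈ T4 i C) (hl : lev z < i) : ∃ k y y', k + 2 ≤ m ∧ z ∈ C ∧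
      lev z + 2 = i ∧ y ≠ y' ∧ dc z = {y, y'} ∧ dc y = ed x k ∧ dc y' = ed x (k + 1) ∧
      sit i z = ed x k ∪ ed x (k + 1) := by
  classical
  have H := W.H
  rcases mem_T4.1 hz with ⟨h1, h2⟩ | ⟨h1, h2⟩
  · have := (mem_ZL.1 h1).2.1
    omega
  obtain ⟨hzC, hlz, h3⟩ := mem_ZU.1 h1
  obtain ⟨a, b, s, T⟩ := T4_upp H h1 h2
  have hsit : sit i z = dc a ∪ dc b := by
    rw [sit_upp H (by omega)]
    ext q
    rw [mem_stD_iff H hlz, T.cw, mem_union]
    simp
  have haz : a ∈ dc z := by rw [T.cw]; exact mem_insert_self _ _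
  have hbz : b ∈ dc z := by rw [T.cw]; exact mem_insert_of_mem (mem_singleton_self _)
  have hla := lev_cov H (mem_dc.1 haz)
  have hlb := lev_cov H (mem_dc.1 hbz)
  have haC := W.hC.dn hzC (by omega) (mem_dc.1 haz)
  have hbC := W.hC.dn hzC (by omega) (mem_dc.1 hbz)
  obtain ⟨k, hk, ek⟩ := W.up_ed haC (by omega) T.cx
  obtain ⟨l, hl', el⟩ := W.up_ed hbC (by omega) T.cx'
  have hne : ed x k ≠ ed x l := by
    intro h
    have h5 : (dc a).card = 1 := by
      rw [card_eq_one]
      refine ⟨s, eq_singleton_iff_unique_mem.2 ⟨T.sx, fun q hq => T.only q hq ?_⟩⟩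
      rw [el, ← h, ← ek]
      exact hq
    have := T.cx
    omega
  rcases W.ed_near hk hl' (s := s) (ek ▸ T.sx) (el ▸ T.sx') hne with h | h
  · subst h
    exact ⟨k, a, b, by omega, hzC, hlz, T.ne, T.cw, ek, el, by rw [hsit, ek, el]⟩
  · subst h
    exact ⟨l, b, a, by omega, hzC, hlz, T.ne.symm, by rw [T.cw, pair_comm], el, ek,
      by rw [hsit, ek, el, union_comm]⟩

/-- the signed products of meeting pendants -/
lemma sum_M4_row (hd : ∀ k l, k < l → l ≤ m → l ≠ k + 1 → dcv (x k) (x l) = 0) :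
    ∑ q ∈ M4 i C, vp i q.1 * vp i q.2 = ∑ k ∈ range m, NE i C x k *
      ∑ l ∈ range m, NE i C x l * (if ¬ Disjoint (ed x k) (ed x l) then 1 else 0) := by
  classical
  rw [sum_M4]
  have e1 : ∀ p ∈ PN i C, (∑ q ∈ PN i C,
      if ¬ Disjoint (sit i p) (sit i q) then vp i p * vp i q else 0) =
      vp i p * ∑ l ∈ range m, NE i C x l *
        (if ¬ Disjoint (sit i p) (ed x l) then 1 else 0) := by
    intro p _
    have e2 := W.group hd (fun z => vp i z) (fun T => if ¬ Disjoint (sit i p) T then 1 else 0)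
    simp only [← NE_eq] at e2
    rw [← e2, mul_sum]
    refine sum_congr rfl fun q _ => ?_
    split_ifs <;> ring
  rw [sum_congr rfl e1]
  have e3 := W.group hd (fun z => vp i z) (fun T => ∑ l ∈ range m, NE i C x l *
        (if ¬ Disjoint T (ed x l) then 1 else 0))
  simp only [← NE_eq] at e3
  exact e3

end PRow

end Pool.Agent.GaussPoset.Win.W4
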