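import Pool.Agent.W_448w4_h10.LC
import Pool.Agent.W_448nf_h84.NfA

/-!
MP_448cb3_co, G2, case B, window `j`: the parts with two unmatched doubles, numbers of matched near
elements (2d-b).  helper15.
-/

namespace Pool.Agent.GaussPoset.Win.W4

set_option linter.unusedSectionVars false

open Finset
open Pool.Agent.GaussPoset.Win.SO (PN vp con on mem_PN vp_PD vp_PU)

universe u

variable {P : Type u} [Fintype P] [PartialOrder P] [DecidableEq P] {r i : ℕ}
variable {psi : P → P} {C K : Finset P} {w v : P}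

/-- near elements at a site -/
lemma kf_site (H : Gr P r) {x y : P} (hy : lev y = i) :
    (x ∈ near P i ∧ y ∈ nz i x) ↔ (x ∈ dc y ∨ x ∈ uc y) := by
  constructor
  · rintro ⟨h1, h2⟩
    rcases mem_near.1 h1 with h | h
    · rw [nz_low h] at h2
      exact Or.inl (mem_dc.2 (mem_uc.1 h2))
    · rw [nz_upp h] at h2
      exact Or.inr (mem_uc.2 (mem_dc.1 h2))
  · rintro (h | h)
    · have h1 := lev_cov H (mem_dc.1 h)
      have h2 : lev x = i + 1 := by omega
      exact ⟨mem_near.2 (Or.inl h2), by rw [nz_low h2]; exact mem_uc.2 (mem_dc.1 h)⟩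
    · have h1 := lev_cov H (mem_uc.1 h)
      have h2 : lev x + 1 = i := by omega
      exact ⟨mem_near.2 (Or.inr h2), by rw [nz_upp h2]; exact mem_dc.2 (mem_uc.1 h)⟩

section

variable (Q : K5 r i K psi C w v)
include Q

lemma K5.near_C {x y : P} (hy : y ∈ C) (hl : lev y = i) (hx : x ∈ dc y ∨ x ∈ uc y) : x ∈ C := by
  rcases hx with h | h
  · have h1 := lev_cov Q.H (mem_dc.1 h)
    exact Q.hC.dn hy (by omega) (mem_dc.1 h)
  · exact Q.hC.up hy (mem_uc.1 h)

/-- the number of matched near elements at a site -/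
theorem K5.dg_eq {y : P} (hy : y ∈ C) (hl : lev y = i) :
    dg i K C y = ((dc y).card : ℤ) + (uc y).card - (if y ∈ uc w then 1 else 0)
      - (if y ∈ dc v then 1 else 0) := by
  classical
  have hd : Disjoint (dc y) (uc y) := by
    rw [disjoint_left]
    intro x h1 h2
    have := lev_cov Q.H (mem_dc.1 h1)
    have := lev_cov Q.H (mem_uc.1 h2)
    omega
  have e1 : (N0 i K C).filter (fun x => y ∈ nz i x) = (dc y).erase w ∪ (uc y).erase v := by
    ext x
    rw [mem_filter, mem_N0, mem_union, mem_erase, mem_erase]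
    constructor
    · rintro ⟨⟨h1, h2, h3⟩, h4⟩
      rcases (kf_site Q.H hl).1 ⟨h1, h4⟩ with h | h
      · exact Or.inl ⟨fun h5 => h3 (h5 ▸ Q.wK), h⟩
      · exact Or.inr ⟨fun h5 => h3 (h5 ▸ Q.vK), h⟩
    · rintro (⟨h1, h2⟩ | ⟨h1, h2⟩)
      · obtain ⟨h3, h4⟩ := (kf_site Q.H hl).2 (Or.inl h2)
        have h5 := Q.near_C hy hl (Or.inl h2)
        refine ⟨⟨h3, h5, fun h6 => ?_⟩, h4⟩
        rcases (Q.hK x h5).1 h6 with h | h
        · exact h1 h
        · have := lev_cov Q.H (mem_dc.1 h2)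
          have h7 := Q.lv0
          rw [← h] at h7
          omega
      · obtain ⟨h3, h4⟩ := (kf_site Q.H hl).2 (Or.inr h2)
        have h5 := Q.near_C hy hl (Or.inr h2)
        refine ⟨⟨h3, h5, fun h6 => ?_⟩, h4⟩
        rcases (Q.hK x h5).1 h6 with h | h
        · have := lev_cov Q.H (mem_uc.1 h2)
          have h7 := Q.lw0
          rw [← h] at h7
          omega
        · exact h1 h
  have hd' : Disjoint ((dc y).erase w) ((uc y).erase v) :=
    Disjoint.mono (erase_subset _ _) (erase_subset _ _) hd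
  unfold dg
  rw [e1, card_union_of_disjoint hd']
  have e2 : (((dc y).erase w).card : ℤ) = (dc y).card - (if y ∈ uc w then 1 else 0) := by
    by_cases h : w ∈ dc y
    · rw [card_erase_of_mem h, if_pos (mem_uc.2 (mem_dc.1 h))]
      have := card_pos.2 ⟨w, h⟩
      omega
    · rw [erase_eq_of_notMem h, if_neg (fun h' => h (mem_dc.2 (mem_uc.1 h')))]
      omega
  have e3 : (((uc y).erase v).card : ℤ) = (uc y).card - (if y ∈ dc v then 1 else 0) := by
    by_cases h : v ∈ uc y
    · rw [card_erase_of_mem h, if_pos (mem_dc.2 (mem_uc.1 h))]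
      have := card_pos.2 ⟨v, h⟩
      omega
    · rw [erase_eq_of_notMem h, if_neg (fun h' => h (mem_uc.2 (mem_dc.1 h')))]
      omega
  push_cast
  rw [e2, e3]
  ring

/-- the matched lower doubles over a pair -/
theorem K5.mm_pair {a b : P} (ha : a ∈ C) (hl : lev a = i) (hab : a ≠ b) :
    mm i K C {a, b} = (dcv a b : ℤ) - (if uc w = {a, b} then 1 else 0) := by
  classical
  have e1 : (N0 i K C).filter (fun x => x ∈ dbL P i ∧ nz i x ⊆ {a, b}) =
      (univ.filter (fun y : P => y ⋖ a ∧ y ⋖ b)).erase w := by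
    ext x
    rw [mem_filter, mem_N0, mem_erase, mem_filter]
    constructor
    · rintro ⟨⟨h1, h2, h3⟩, h4, h5⟩
      obtain ⟨h6, h7⟩ := mem_dbL.1 h4
      rw [nz_low h6] at h5
      have h8 : uc x = {a, b} := by
        refine eq_of_subset_of_card_le h5 ?_
        rw [card_pair hab, h7]
      refine ⟨fun h9 => h3 (h9 ▸ Q.wK), mem_univ _, ?_, ?_⟩
      · exact mem_uc.1 (by rw [h8]; exact mem_insert_self _ _)
      · exact mem_uc.1 (by rw [h8]; exact mem_insert_of_mem (mem_singleton_self _))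
    · rintro ⟨h1, -, h2, h3⟩
      have h4 := StB_uc_pair Q.H h2 h3 hab
      have h5 := lev_cov Q.H h2
      have h6 : lev x = i + 1 := by omega
      have h7 : x ∈ dbL P i := mem_dbL.2 ⟨h6, by rw [h4, card_pair hab]⟩
      have h8 := Q.near_C ha hl (Or.inl (mem_dc.2 h2))
      refine ⟨⟨mem_near.2 (Or.inl h6), h8, fun h9 => ?_⟩, h7, by rw [nz_low h6, h4]⟩
      rcases (Q.hK x h8).1 h9 with h | h
      · exact h1 h
      · have h10 := Q.lv0
        rw [← h] at h10
        omega
  have e2 : (if uc w = {a, b} then (1 : ℤ) else 0) =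
      if w ∈ univ.filter (fun y : P => y ⋖ a ∧ y ⋖ b) then 1 else 0 := by
    by_cases h : w ∈ univ.filter (fun y : P => y ⋖ a ∧ y ⋖ b)
    · rw [if_pos h]
      rw [mem_filter] at h
      rw [if_pos (StB_uc_pair Q.H h.2.1 h.2.2 hab)]
    · rw [if_neg h, if_neg]
      intro h1
      apply h
      rw [mem_filter]
      refine ⟨mem_univ _, mem_uc.1 ?_, mem_uc.1 ?_⟩
      · rw [h1]; exact mem_insert_self _ _
      · rw [h1]; exact mem_insert_of_mem (mem_singleton_self _)
  have e3 : mm i K C {a, b} = (((N0 i K C).filter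
      (fun x => x ∈ dbL P i ∧ nz i x ⊆ {a, b})).card : ℤ) := rfl
  have e4 : dcv a b = (univ.filter (fun y : P => y ⋖ a ∧ y ⋖ b)).card := rfl
  rw [e3, e1, e2, e4]
  by_cases h : w ∈ univ.filter (fun y : P => y ⋖ a ∧ y ⋖ b)
  · rw [card_erase_of_mem h, if_pos h]
    have := card_pos.2 ⟨w, h⟩
    omega
  · rw [erase_eq_of_notMem h, if_neg h]
    omega

end

/-- the matched lower doubles over four sites -/
theorem mm_four {a b c d : P} (hab : a ≠ b) (hac : a ≠ c) (had : a ≠ d) (hbc : b ≠ c)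
    (hbd : b ≠ d) (hcd : c ≠ d) :
    mm i K C ({a, b} ∪ {c, d}) = mm i K C {a, b} + mm i K C {c, d} + mm i K C {a, c} +
      mm i K C {a, d} + mm i K C {b, c} + mm i K C {b, d} := by
  classical
  obtain ⟨F, hF⟩ : ∃ F : Finset P → Finset P, F = fun T =>
    (N0 i K C).filter (fun x => x ∈ dbL P i ∧ nz i x ⊆ T) := ⟨_, rfl⟩
  have hmm : ∀ T, mm i K C T = ((F T).card : ℤ) := by
    intro T
    rw [hF]
    rfl
  have hmem : ∀ T x, x ∈ F T ↔ x ∈ N0 i K C ∧ x ∈ dbL P i ∧ nz i x ⊆ T := by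
    intro T x
    rw [hF]
    show x ∈ (N0 i K C).filter (fun x => x ∈ dbL P i ∧ nz i x ⊆ T) ↔ _
    rw [mem_filter]
  have hdis : ∀ s t : Finset P, (s ∩ t).card ≤ 1 → Disjoint (F s) (F t) := by
    intro s t hst
    rw [disjoint_left]
    intro x h1 h2
    rw [hmem] at h1 h2
    have h3 : nz i x ⊆ s ∩ t := subset_inter h1.2.2 h2.2.2
    have h4 := card_le_card h3
    have h5 := (dbL_nz h1.2.1).2
    omega
  have e1 : F ({a, b} ∪ {c, d}) = F {a, b} ∪ (F {c, d} ∪ (F {a, c} ∪ (F {a, d} ∪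
      (F {b, c} ∪ F {b, d})))) := by
    ext x
    simp only [mem_union, hmem]
    constructor
    · rintro ⟨h1, h2, h3⟩
      have h4 := (dbL_nz h2).2
      obtain ⟨y, z, hyz, hn⟩ := card_eq_two.1 h4
      rw [hn] at h3 ⊢
      have hy : y ∈ ({a, b} ∪ {c, d} : Finset P) := h3 (mem_insert_self _ _)
      have hz : z ∈ ({a, b} ∪ {c, d} : Finset P) := h3 (mem_insert_of_mem (mem_singleton_self _))
      simp only [mem_union, mem_insert, mem_singleton] at hy hz
      have key : ∀ s t : P, ({s, t} : Finset P) ⊆ {s, t} ∧ ({s, t} : Finset P) ⊆ {t, s} :=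
        fun s t => ⟨Subset.refl _, by rw [pair_comm]⟩
      rcases hy with (rfl | rfl) | (rfl | rfl) <;> rcases hz with (rfl | rfl) | (rfl | rfl) <;>
        first
        | exact absurd rfl hyz
        | (have k1 := (key y z).1
           have k2 := (key y z).2
           tauto)
    · have key : ∀ s t : P, s ∈ ({a, b} ∪ {c, d} : Finset P) → t ∈ ({a, b} ∪ {c, d} : Finset P) →
          ({s, t} : Finset P) ⊆ {a, b} ∪ {c, d} := by
        intro s t hs ht y hy
        rw [mem_insert, mem_singleton] at hy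
        rcases hy with rfl | rfl
        · exact hs
        · exact ht
      have ka : a ∈ ({a, b} ∪ {c, d} : Finset P) := by simp
      have kb : b ∈ ({a, b} ∪ {c, d} : Finset P) := by simp
      have kc : c ∈ ({a, b} ∪ {c, d} : Finset P) := by simp
      have kd : d ∈ ({a, b} ∪ {c, d} : Finset P) := by simp
      rintro (⟨h1, h2, h3⟩ | ⟨h1, h2, h3⟩ | ⟨h1, h2, h3⟩ | ⟨h1, h2, h3⟩ | ⟨h1, h2, h3⟩ |
        ⟨h1, h2, h3⟩)
      · exact ⟨h1, h2, h3.trans (key _ _ ka kb)⟩
      · exact ⟨h1, h2, h3.trans (key _ _ kc kd)⟩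
      · exact ⟨h1, h2, h3.trans (key _ _ ka kc)⟩
      · exact ⟨h1, h2, h3.trans (key _ _ ka kd)⟩
      · exact ⟨h1, h2, h3.trans (key _ _ kb kc)⟩
      · exact ⟨h1, h2, h3.trans (key _ _ kb kd)⟩
  have hc : ∀ p q s t : P, p ≠ s → p ≠ t → (({p, q} : Finset P) ∩ {s, t}).card ≤ 1 := by
    intro p q s t h1 h2
    have : ({p, q} : Finset P) ∩ {s, t} ⊆ {q} := by
      intro y hy
      rw [mem_inter, mem_insert, mem_singleton, mem_insert, mem_singleton] at hy
      rw [mem_singleton]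
      rcases hy.1 with rfl | h
      · rcases hy.2 with h | h
        · exact absurd h h1
        · exact absurd h h2
      · exact h
    calc _ ≤ ({q} : Finset P).card := card_le_card this
      _ = 1 := card_singleton q
  have hc' : ∀ p q s t : P, q ≠ s → q ≠ t → (({p, q} : Finset P) ∩ {s, t}).card ≤ 1 := by
    intro p q s t h1 h2
    rw [pair_comm]
    exact hc q p s t h1 h2
  have d1 : Disjoint (F {a, b}) (F {c, d} ∪ (F {a, c} ∪ (F {a, d} ∪ (F {b, c} ∪ F {b, d})))) := by
    simp only [disjoint_union_right]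
    exact ⟨hdis _ _ (hc _ _ _ _ hac had), hdis _ _ (hc' _ _ _ _ hab.symm hbc),
      hdis _ _ (hc' _ _ _ _ hab.symm hbd), hdis _ _ (hc _ _ _ _ hab hac),
      hdis _ _ (hc _ _ _ _ hab had)⟩
  have d2 : Disjoint (F {c, d}) (F {a, c} ∪ (F {a, d} ∪ (F {b, c} ∪ F {b, d}))) := by
    simp only [disjoint_union_right]
    exact ⟨hdis _ _ (hc' _ _ _ _ had.symm hcd.symm), hdis _ _ (hc _ _ _ _ hac.symm hcd),
      hdis _ _ (hc' _ _ _ _ hbd.symm hcd.symm), hdis _ _ (hc _ _ _ _ hbc.symm hcd)⟩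
  have d3 : Disjoint (F {a, c}) (F {a, d} ∪ (F {b, c} ∪ F {b, d})) := by
    simp only [disjoint_union_right]
    exact ⟨hdis _ _ (hc' _ _ _ _ hac.symm hcd), hdis _ _ (hc _ _ _ _ hab hac),
      hdis _ _ (hc _ _ _ _ hab had)⟩
  have d4 : Disjoint (F {a, d}) (F {b, c} ∪ F {b, d}) := by
    simp only [disjoint_union_right]
    exact ⟨hdis _ _ (hc _ _ _ _ hab hac), hdis _ _ (hc _ _ _ _ hab had)⟩
  have d5 : Disjoint (F {b, c}) (F {b, d}) := hdis _ _ (hc' _ _ _ _ hbc.symm hcd)
  simp only [hmm]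
  rw [e1, card_union_of_disjoint d1, card_union_of_disjoint d2, card_union_of_disjoint d3,
    card_union_of_disjoint d4, card_union_of_disjoint d5]
  push_cast
  ring

end Pool.Agent.GaussPoset.Win.W4
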