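import Pool.Agent.W_448kf_h15.KfA
import Pool.Agent.W_448cr_h63.CF

/-!
MP_448cb3_co, G2, case B, window `j`: the row of a part, grouping of the pendants by edges, and the
pattern [DL] (a doubled pair at the left end, followed by a lost pair).  helper15.
-/

namespace Pool.Agent.GaussPoset.Win.W4

set_option linter.unusedSectionVars false

open Finset
open Pool.Agent.GaussPoset.Win.SO (PN vp con on mem_PN vp_PD vp_PU)

universe u

variable {P : Type u} [Fintype P] [PartialOrder P] [DecidableEq P] {r i : ℕ}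
variable {psi : P → P} {C K : Finset P} {w v : P} {m : ℕ} {x : ℕ → P}

/-- the sites of a part as a row, natural on the upper side -/
structure PRow (r i : ℕ) (C : Finset P) (m : ℕ) (x : ℕ → P) : Prop where
  H : Gr P r
  hi : 1 ≤ i
  hi2 : i + 1 ≤ r
  hC : Part (i + 1) C
  lev_x : ∀ k, k ≤ m → lev (x k) = i
  inj : ∀ k l, k ≤ m → l ≤ m → x k = x l → k = l
  mem : ∀ k, k ≤ m → x k ∈ C
  surj : ∀ v ∈ C, lev v = i → ∃ k, k ≤ m ∧ x k = v
  up : ∀ k l, k < l → l ≤ m → ucv (x k) (x l) = if l = k + 1 then 1 else 0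
  up1 : ∀ u ∈ C, ∀ u' ∈ C, lev u + 1 = i → lev u' + 1 = i → u ≠ u' → ucv u u' ≤ 1
  pu : ∀ a, 1 ≤ a → a + 2 ≤ m → ∀ u, x a ⋖ u → x (a + 1) ⋖ u → ∀ z, u ⋖ z → (dc z).card = 2
  uc1 : (UC i C).card ≤ 1
  pen0 : ∀ a, 2 ≤ a → a + 2 ≤ m → pen (x a) = ∅
  cl : ∀ g, ∀ s ∈ C, uc g = {s} → g ∈ C
  zu : ∀ z ∈ ZU i C, ∀ u ∈ dc z, (dc u).card = 2
  e0 : (uc (x 0)).card = 2 → ∀ u, x 0 ⋖ u → x 1 ⋖ u → ∀ z, u ⋖ z → (dc z).card = 2
  em : (uc (x m)).card = 2 → ∀ u, x (m - 1) ⋖ u → x m ⋖ u → ∀ z, u ⋖ z → (dc z).card = 2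

/-- the edges of the row -/
def ed (x : ℕ → P) (k : ℕ) : Finset P := {x k, x (k + 1)}

/-- lower pendants over an edge -/
noncomputable def DE (i : ℕ) (C : Finset P) (x : ℕ → P) (k : ℕ) : Finset P :=
  (DC i C).filter (fun z => sit i z = ed x k)

/-- upper pendants over an edge -/
noncomputable def UE (i : ℕ) (C : Finset P) (x : ℕ → P) (k : ℕ) : Finset P :=
  (UC i C).filter (fun z => sit i z = ed x k)

/-- `N_k`: the signed number of pendants over an edge -/
noncomputable def NE (i : ℕ) (C : Finset P) (x : ℕ → P) (k : ℕ) : ℤ :=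
  ((DE i C x k).card : ℤ) - (UE i C x k).card

/-- the pendants over an edge, weighted by their children -/
noncomputable def CH (i : ℕ) (C : Finset P) (x : ℕ → P) (k : ℕ) : ℤ :=
  ∑ z ∈ (PN i C).filter (fun z => sit i z = ed x k), vp i z * ch i C z

/-- the contribution of the elements over three sites -/
noncomputable def Zs (i : ℕ) (C : Finset P) (w v : P) : ℤ :=
  2 * ((Z4 i C).card - (T4 i C).card : ℤ) - 2 * ∑ z ∈ Z4 i C, tz i z * (Nx i w z - Nx i v z)

/-- `F` of a part -/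
noncomputable def Fv (i : ℕ) (C : Finset P) : ℤ :=
  I2.al 2 (st i C).card (ZS i C) + (I2.al 2 (st i C).card (ZS i C) ^ 2 -
    2 * I2.be 4 (st i C).card (ZS i C))

lemma mem_DE {z : P} {k : ℕ} : z ∈ DE i C x k ↔ z ∈ C ∧ z ∈ PD P i ∧ sit i z = ed x k := by
  unfold DE
  rw [mem_filter, mem_DC, and_assoc]

lemma mem_UE {z : P} {k : ℕ} : z ∈ UE i C x k ↔ z ∈ C ∧ z ∈ PU P i ∧ sit i z = ed x k := by
  unfold UE
  rw [mem_filter, mem_UC, and_assoc]

lemma NE_eq (k : ℕ) : NE i C x k =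
    ∑ z ∈ (PN i C).filter (fun z => sit i z = ed x k), vp i z := by
  classical
  rw [PN_eq, filter_union, sum_union (disjoint_filter_filter (DC_UC i C))]
  unfold NE DE UE
  rw [sum_congr rfl fun p hp => vp_PD (mem_DC.1 (mem_filter.1 hp).1).2,
    sum_congr (g := fun _ => (-1 : ℤ)) (s₁ := (UC i C).filter _) rfl fun p hp =>
      vp_PU (mem_UC.1 (mem_filter.1 hp).1).2]
  simp
  ring

namespace PRow

variable (W : PRow r i C m x)
include W

lemma ne {a b : ℕ} (ha : a ≤ m) (hb : b ≤ m) (h : a ≠ b) : x a ≠ x b := fun h1 =>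
  h (W.inj a b ha hb h1)

lemma mem_ed {a k : ℕ} (ha : a ≤ m) (hk : k < m) : x a ∈ ed x k ↔ a = k ∨ a = k + 1 := by
  unfold ed
  rw [mem_insert, mem_singleton]
  constructor
  · rintro (h | h)
    · exact Or.inl (W.inj _ _ ha (by omega) h)
    · exact Or.inr (W.inj _ _ ha (by omega) h)
  · rintro (rfl | rfl)
    · exact Or.inl rfl
    · exact Or.inr rfl

lemma card_ed {k : ℕ} (hk : k < m) : (ed x k).card = 2 := by
  unfold ed
  exact card_pair (W.ne (by omega) (by omega) (by omega))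

lemma ed_inj {k l : ℕ} (hk : k < m) (hl : l < m) (h : ed x k = ed x l) : k = l := by
  have h1 : x k ∈ ed x l := by rw [← h]; exact (W.mem_ed (by omega) hk).2 (Or.inl rfl)
  have h2 : x l ∈ ed x k := by rw [h]; exact (W.mem_ed (by omega) hl).2 (Or.inl rfl)
  rw [W.mem_ed (by omega) hl] at h1
  rw [W.mem_ed (by omega) hk] at h2
  omega

lemma disj_ed {k l : ℕ} (hk : k < m) (hl : l < m) :
    Disjoint (ed x k) (ed x l) ↔ k + 2 ≤ l ∨ l + 2 ≤ k := by
  rw [disjoint_left]
  constructor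
  · intro h
    have h1 := h ((W.mem_ed (a := k) (by omega) hk).2 (Or.inl rfl))
    have h2 := h ((W.mem_ed (a := k + 1) (by omega) hk).2 (Or.inr rfl))
    rw [W.mem_ed (by omega) hl] at h1 h2
    omega
  · intro h y h1 h2
    unfold ed at h1
    rw [mem_insert, mem_singleton] at h1
    rcases h1 with rfl | rfl
    · rw [W.mem_ed (by omega) hl] at h2
      omega
    · rw [W.mem_ed (by omega) hl] at h2
      omega

lemma inter_ed {k l : ℕ} (hk : k < m) (hl : l < m) :
    ((ed x k ∩ ed x l).card = 1) ↔ (l = k + 1 ∨ k = l + 1) := by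
  have e1 : (ed x k ∩ ed x l).card = (if k = l ∨ k = l + 1 then 1 else 0) +
      (if k + 1 = l ∨ k + 1 = l + 1 then 1 else 0) := by
    have h1 : ed x k ∩ ed x l = (ed x k).filter (fun y => y ∈ ed x l) := by
      rw [filter_mem_eq_inter]
    rw [h1, card_filter]
    have h2 : ed x k = {x k, x (k + 1)} := rfl
    rw [h2, sum_pair (W.ne (by omega) (by omega) (by omega))]
    simp only [W.mem_ed (a := k) (by omega) hl, W.mem_ed (a := k + 1) (by omega) hl]
  rw [e1]
  split_ifs <;> omega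

/-- the pendants of the row are over edges, if the lower doubles are -/
lemma pn_ed (hd : ∀ k l, k < l → l ≤ m → l ≠ k + 1 → dcv (x k) (x l) = 0) {z : P}
    (hz : z ∈ PN i C) : ∃ k, k < m ∧ sit i z = ed x k := by
  classical
  obtain ⟨hzC, y, -, -, -, hs2, hsl, hor⟩ := PN_dat W.H hz
  obtain ⟨a, b, hab, hs⟩ := card_eq_two.1 hs2
  have hzl : lev z = i + 2 ∨ lev z + 2 = i := by
    rcases hor with ⟨-, h, -⟩ | ⟨-, h, -⟩
    · exact Or.inl h
    · exact Or.inr h
  have hyC : y ∈ C := by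
    rcases hor with ⟨-, h, h', h4, -⟩ | ⟨-, h, h', h4, -⟩
    · exact W.hC.up hzC (mem_uc.1 (by rw [h4]; exact mem_singleton_self y))
    · exact W.hC.dn hzC (by omega) (mem_dc.1 (by rw [h4]; exact mem_singleton_self y))
  have hin : ∀ c ∈ sit i z, c ∈ C := by
    intro c hc
    rcases hor with ⟨-, h, h', -, h5, -⟩ | ⟨-, h, h', -, h5, -⟩
    · rw [h5] at hc
      exact W.hC.up hyC (mem_uc.1 hc)
    · rw [h5] at hc
      exact W.hC.dn hyC (by omega) (mem_dc.1 hc)
  have ha : a ∈ sit i z := by rw [hs]; exact mem_insert_self _ _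
  have hb : b ∈ sit i z := by rw [hs]; exact mem_insert_of_mem (mem_singleton_self _)
  obtain ⟨k, hk, rfl⟩ := W.surj a (hin a ha) (hsl a ha)
  obtain ⟨l, hl, rfl⟩ := W.surj b (hin b hb) (hsl b hb)
  have hkl : k ≠ l := by
    rintro rfl
    exact hab rfl
  -- adjacent
  have key : ∀ k l, k < l → l ≤ m → x k ∈ sit i z → x l ∈ sit i z → l = k + 1 := by
    intro k l hkl hl h1 h2
    by_contra hne
    rcases hor with ⟨-, -, -, -, h5, -⟩ | ⟨-, -, -, -, h5, -⟩
    · rw [h5] at h1 h2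
      have h3 := hd k l hkl hl hne
      unfold dcv at h3
      rw [card_eq_zero, filter_eq_empty_iff] at h3
      exact h3 (mem_univ y) ⟨mem_uc.1 h1, mem_uc.1 h2⟩
    · rw [h5] at h1 h2
      have h3 := W.up k l hkl hl
      rw [if_neg hne] at h3
      unfold ucv at h3
      rw [card_eq_zero, filter_eq_empty_iff] at h3
      exact h3 (mem_univ y) ⟨mem_dc.1 h1, mem_dc.1 h2⟩
  rcases Nat.lt_or_gt_of_ne hkl with h | h
  · have := key k l h hl ha hb
    exact ⟨k, by omega, by rw [hs, this]; rfl⟩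
  · have := key l k h hk hb ha
    exact ⟨l, by omega, by rw [hs, this, pair_comm]; rfl⟩

/-- grouping by edges -/
lemma group (hd : ∀ k l, k < l → l ≤ m → l ≠ k + 1 → dcv (x k) (x l) = 0) (f : P → ℤ)
    (g : Finset P → ℤ) : ∑ z ∈ PN i C, f z * g (sit i z) =
      ∑ k ∈ range m, (∑ z ∈ (PN i C).filter (fun z => sit i z = ed x k), f z) * g (ed x k) := by
  classical
  have h1 : ∀ z ∈ PN i C, f z * g (sit i z) =
      ∑ k ∈ range m, if sit i z = ed x k then f z * g (ed x k) else 0 := by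
    intro z hz
    obtain ⟨k, hk, hs⟩ := W.pn_ed hd hz
    rw [sum_eq_single k]
    · rw [if_pos hs, hs]
    · intro l hl hne
      rw [mem_range] at hl
      rw [if_neg]
      intro h
      exact hne (W.ed_inj hl hk (h.symm.trans hs))
    · intro h
      exact absurd (mem_range.2 hk) h
  rw [sum_congr rfl h1, sum_comm]
  refine sum_congr rfl fun k _ => ?_
  rw [← sum_filter, sum_mul]

/-- at most one upper pendant -/
lemma ue_sum (k l : ℕ) (hk : k < m) (hl : l < m) (hkl : k ≠ l) :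
    (UE i C x k).card + (UE i C x l).card ≤ 1 := by
  classical
  rw [← card_union_of_disjoint]
  · refine (card_le_card ?_).trans W.uc1
    intro z hz
    rcases mem_union.1 hz with h | h
    · exact (mem_filter.1 h).1
    · exact (mem_filter.1 h).1
  · rw [disjoint_left]
    intro z h1 h2
    exact hkl (W.ed_inj hk hl ((mem_UE.1 h1).2.2.symm.trans (mem_UE.1 h2).2.2))

/-- no upper pendant over an edge whose upper double has no single parent -/
lemma ue_of {k : ℕ} (hk : k < m)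
    (h : ∀ u, x k ⋖ u → x (k + 1) ⋖ u → ∀ z, u ⋖ z → (dc z).card = 2) : UE i C x k = ∅ := by
  rw [eq_empty_iff_forall_notMem]
  intro z hz
  obtain ⟨hzC, hz1, hz2⟩ := mem_UE.1 hz
  obtain ⟨-, y, -, -, -, -, -, hor⟩ := PN_dat W.H (C := C) (mem_PN.2 ⟨hzC, Or.inr hz1⟩)
  rcases hor with ⟨h3, -⟩ | ⟨-, -, -, h4, h5, -⟩
  · have := lev_PD h3
    have := lev_PU hz1
    omega
  · have hy : y ∈ dc z := by rw [h4]; exact mem_singleton_self y
    have ha : x k ∈ dc y := by rw [← h5, hz2]; exact (W.mem_ed (by omega) (by omega)).2 (Or.inl rfl)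
    have hb : x (k + 1) ∈ dc y := by
      rw [← h5, hz2]; exact (W.mem_ed (by omega) (by omega)).2 (Or.inr rfl)
    have := h y (mem_dc.1 ha) (mem_dc.1 hb) z (mem_dc.1 hy)
    rw [h4, card_singleton] at this
    omega

/-- no upper pendant over an inner edge -/
lemma ue_inner {k : ℕ} (h1 : 1 ≤ k) (h2 : k + 2 ≤ m) : UE i C x k = ∅ :=
  W.ue_of (by omega) (W.pu k h1 h2)

/-- no upper pendant at a closed end -/
lemma ue_zero (hm : 1 ≤ m) (h : (uc (x 0)).card = 2) : UE i C x 0 = ∅ :=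
  W.ue_of hm (W.e0 h)

lemma ue_last (hm : 1 ≤ m) (h : (uc (x m)).card = 2) : UE i C x (m - 1) = ∅ :=
  W.ue_of (by omega) (by
    have := W.em h
    rwa [show m - 1 + 1 = m by omega])

lemma uc_le {k : ℕ} (hk : k ≤ m) : (uc (x k)).card = 1 ∨ (uc (x k)).card = 2 :=
  uc_card_cases W.H (by have := W.lev_x k hk; have := W.hi; omega)

/-- inner sites have two upper covers -/
lemma uc_inner {k : ℕ} (h1 : 1 ≤ k) (h2 : k + 1 ≤ m) : (uc (x k)).card = 2 := by
  classical
  obtain ⟨n, rfl⟩ : ∃ n, k = n + 1 := ⟨k - 1, by omega⟩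
  have ha := W.up n (n + 1) (by omega) (by omega)
  have hb := W.up (n + 1) (n + 1 + 1) (by omega) (by omega)
  rw [if_pos rfl] at ha hb
  obtain ⟨a, ha⟩ := card_pos.1 (show 0 < (univ.filter
    (fun y : P => x n ⋖ y ∧ x (n + 1) ⋖ y)).card by unfold ucv at ha; omega)
  obtain ⟨b, hb⟩ := card_pos.1 (show 0 < (univ.filter
    (fun y : P => x (n + 1) ⋖ y ∧ x (n + 1 + 1) ⋖ y)).card by unfold ucv at hb; omega)
  rw [mem_filter] at ha hb
  have hab : a ≠ b := by
    rintro rfl
    have h3 := W.up n (n + 1 + 1) (by omega) (by omega)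
    rw [if_neg (by omega)] at h3
    unfold ucv at h3
    rw [card_eq_zero, filter_eq_empty_iff] at h3
    exact h3 (mem_univ a) ⟨ha.2.1, hb.2.2⟩
  have h4 : ({a, b} : Finset P) ⊆ uc (x (n + 1)) := by
    intro y hy
    rw [mem_insert, mem_singleton] at hy
    rcases hy with rfl | rfl
    · exact mem_uc.2 ha.2.2
    · exact mem_uc.2 hb.2.1
  have h5 := card_le_card h4
  rw [card_pair hab] at h5
  have h6 := W.lev_x (n + 1) (by omega)
  have h7 := W.hi
  rcases uc_card_cases W.H (x := x (n + 1)) (by omega) with h | h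
  · omega
  · exact h

/-- the degree of a site -/
lemma deg {k : ℕ} (hk : k ≤ m) : (dc (x k)).card = (pen (x k)).card +
    ∑ l ∈ (range (m + 1)).erase k, dcv (x k) (x l) := by
  classical
  have H := W.H
  have hi := W.hi
  have hlk := W.lev_x k hk
  have e1 : dc (x k) = pen (x k) ∪ ((range (m + 1)).erase k).biUnion
      (fun l => univ.filter (fun y : P => y ⋖ x k ∧ y ⋖ x l)) := by
    ext z
    rw [mem_union, mem_biUnion]
    constructor
    · intro hz
      have hz' := mem_dc.1 hz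
      have hlz := lev_cov H hz'
      rcases uc_card_cases H (x := z) (by omega) with h | h
      · exact Or.inl (mem_pen.2 ⟨hz', h⟩)
      · right
        obtain ⟨s, hs, hsk⟩ := exists_other_uc (y := x k) h
        have hls := lev_cov H hs
        have hzC := W.hC.dn (W.mem k hk) (by omega) hz'
        have hsC := W.hC.up hzC hs
        obtain ⟨l, hl, rfl⟩ := W.surj s hsC (by omega)
        refine ⟨l, mem_erase.2 ⟨fun h => hsk (by rw [h]), mem_range.2 (by omega)⟩, ?_⟩
        rw [mem_filter]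
        exact ⟨mem_univ _, hz', hs⟩
    · rintro (h | ⟨l, -, h⟩)
      · exact mem_dc.2 (mem_pen.1 h).1
      · exact mem_dc.2 (mem_filter.1 h).2.1
  have huc : ∀ l, l ≤ m → l ≠ k → ∀ z, z ⋖ x k → z ⋖ x l → uc z = {x k, x l} := by
    intro l hl hlk z h1 h2
    exact StB_uc_pair H h1 h2 (W.ne hk hl (Ne.symm hlk))
  rw [e1, card_union_of_disjoint, card_biUnion]
  · rfl
  · intro l hl l' hl' hne
    rw [mem_coe, mem_erase, mem_range] at hl hl'
    show Disjoint (univ.filter (fun y : P => y ⋖ x k ∧ y ⋖ x l))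
      (univ.filter (fun y : P => y ⋖ x k ∧ y ⋖ x l'))
    rw [disjoint_left]
    intro z h1 h2
    rw [mem_filter] at h1 h2
    have h3 := huc l (by omega) hl.1 z h1.2.1 h1.2.2
    have h4 : x l' ∈ uc z := mem_uc.2 h2.2.2
    rw [h3, mem_insert, mem_singleton] at h4
    rcases h4 with h4 | h4
    · exact W.ne (by omega) hk hl'.1 h4
    · exact W.ne (by omega) (by omega) hne.symm h4
  · rw [disjoint_left]
    intro z h1 h2
    rw [mem_biUnion] at h2
    obtain ⟨l, hl, h2⟩ := h2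
    rw [mem_erase, mem_range] at hl
    rw [mem_filter] at h2
    have h3 := huc l (by omega) hl.1 z h2.2.1 h2.2.2
    have h4 := (mem_pen.1 h1).2
    rw [h3, card_pair (W.ne hk (by omega) hl.1.symm)] at h4
    omega

/-- at most two lower covers -/
lemma dc_le {k : ℕ} (hk : k ≤ m) : (dc (x k)).card ≤ 2 := by
  have hlk := W.lev_x k hk
  have h1 := W.hi2
  obtain ⟨z, hz, hzl⟩ := W.H.exists_below (x := x k) (j := i + 1) (by omega) h1
  have : z ⋖ x k := by
    rw [W.H.covBy_iff]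
    exact ⟨lt_of_le_of_ne hz (fun h => by rw [h] at hzl; omega), by omega⟩
  rcases dc_card_cases W.H this with h | h <;> omega

end PRow

end Pool.Agent.GaussPoset.Win.W4
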