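import Pool.Agent.W_448kf_h15.KfD

/-!
MP_448cb3_co, G2, case B, window `j`: `F` of a part with the pattern [DL]: the form with squares, bounds
and the cases of equality.  helper15.
-/

namespace Pool.Agent.GaussPoset.Win.W4

set_option linter.unusedSectionVars false

open Finset
open Pool.Agent.GaussPoset.Win.SO (PN vp con on mem_PN vp_PD vp_PU TD)

universe u

variable {P : Type u} [Fintype P] [PartialOrder P] [DecidableEq P] {r i : ℕ}
variable {psi : P → P} {C K : Finset P} {w v : P} {m : ℕ} {x : ℕ → P}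

/-! ### sums of neighbouring products -/

/-- meeting products and the sum of a sequence -/
def QS (a : ℕ → ℤ) (s t : ℕ) : ℤ :=
  ∑ k ∈ Ico s t, a k * ∑ l ∈ Ico s t, a l * (if k ≤ l + 1 ∧ l ≤ k + 1 then 1 else 0) +
    ∑ k ∈ Ico s t, a k

lemma QS_self (a : ℕ → ℤ) (s : ℕ) : QS a s s = 0 := by
  unfold QS
  simp

lemma QS_top (a : ℕ → ℤ) {s t : ℕ} (h : s ≤ t) : QS a s (t + 1) =
    QS a s t + (if s < t then 2 * a (t - 1) * a t else 0) + a t ^ 2 + a t := by
  have e1 : ∀ b : ℕ → ℤ, (∀ k, b k = if k ≤ t + 1 ∧ t ≤ k + 1 then 1 else 0) →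
      ∑ k ∈ Ico s t, a k * b k = if s < t then a (t - 1) else 0 := by
    intro b hb
    by_cases hst : s < t
    · rw [if_pos hst, sum_eq_single (t - 1)]
      · rw [hb, if_pos (by omega), mul_one]
      · intro k hk hne
        rw [mem_Ico] at hk
        rw [hb, if_neg (by omega), mul_zero]
      · intro h1
        exact absurd (mem_Ico.2 (by omega)) h1
    · rw [if_neg hst]
      have : s = t := by omega
      rw [this, Ico_self, sum_empty]
  have e2 : ∑ k ∈ Ico s t, a k * (if k ≤ t + 1 ∧ t ≤ k + 1 then (1 : ℤ) else 0) =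
      if s < t then a (t - 1) else 0 := e1 _ fun _ => rfl
  have e3 : ∑ k ∈ Ico s t, a k * (if t ≤ k + 1 ∧ k ≤ t + 1 then (1 : ℤ) else 0) =
      if s < t then a (t - 1) else 0 := by
    refine e1 _ fun k => ?_
    simp only [and_comm]
  unfold QS
  have e6 : ∑ k ∈ Ico s (t + 1), a k = ∑ k ∈ Ico s t, a k + a t := sum_Ico_succ_top h _
  rw [e6, sum_Ico_succ_top h]
  have e4 : ∀ k, ∑ l ∈ Ico s (t + 1), a l * (if k ≤ l + 1 ∧ l ≤ k + 1 then (1 : ℤ) else 0) =
      ∑ l ∈ Ico s t, a l * (if k ≤ l + 1 ∧ l ≤ k + 1 then (1 : ℤ) else 0) +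
        a t * (if k ≤ t + 1 ∧ t ≤ k + 1 then (1 : ℤ) else 0) := by
    intro k
    rw [sum_Ico_succ_top h]
  simp only [e4, mul_add, sum_add_distrib]
  have e5 : ∑ k ∈ Ico s t, a k * (a t * (if k ≤ t + 1 ∧ t ≤ k + 1 then (1 : ℤ) else 0)) =
      a t * if s < t then a (t - 1) else 0 := by
    rw [← e2, mul_sum]
    exact sum_congr rfl fun k _ => by ring
  rw [e5, e3]
  rw [if_pos (by omega : t ≤ t + 1 ∧ t ≤ t + 1)]
  split_ifs <;> ring

lemma QS_bot (a : ℕ → ℤ) {s t : ℕ} (h : s < t) : QS a s t =
    a s ^ 2 + a s + (if s + 1 < t then 2 * a s * a (s + 1) else 0) + QS a (s + 1) t := by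
  obtain ⟨n, rfl⟩ : ∃ n, t = s + 1 + n := ⟨t - (s + 1), by omega⟩
  induction n with
  | zero =>
    rw [add_zero, QS_top a le_rfl, QS_self, QS_self]
    norm_num
  | succ n ih =>
    have h1 := QS_top a (s := s) (t := s + 1 + n) (by omega)
    have h2 := QS_top a (s := s + 1) (t := s + 1 + n) (by omega)
    have h3 := ih (by omega)
    have e : s + 1 + (n + 1) = s + 1 + n + 1 := by omega
    rw [e, h1, h2, h3]
    rcases Nat.eq_zero_or_pos n with rfl | hn
    · norm_num
      ring
    · rw [if_pos (by omega), if_pos (by omega), if_pos (by omega), if_pos (by omega)]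
      ring

lemma sq_add_nonneg (g : ℤ) : 0 ≤ g ^ 2 + g := by
  rcases le_or_gt 0 g with h | h
  · positivity
  · nlinarith

/-- nonnegative sequences -/
lemma QS_pos (a : ℕ → ℤ) {s t : ℕ} (h : s ≤ t) (ha : ∀ k, s ≤ k → k < t → 0 ≤ a k) :
    (if s < t then a (t - 1) ^ 2 + a (t - 1) else 0) ≤ QS a s t := by
  obtain ⟨n, rfl⟩ : ∃ n, t = s + n := ⟨t - s, by omega⟩
  induction n with
  | zero => rw [add_zero, if_neg (by omega), QS_self]
  | succ n ih =>
    have h1 := ih (by omega) fun k hk hk' => ha k hk (by omega)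
    have h2 := QS_top a (s := s) (t := s + n) (by omega)
    have e : s + (n + 1) = s + n + 1 := by omega
    rw [e, if_pos (by omega), h2, show s + n + 1 - 1 = s + n by omega]
    have h3 : (0 : ℤ) ≤ if s < s + n then 2 * a (s + n - 1) * a (s + n) else 0 := by
      split_ifs with hc
      · have := ha (s + n - 1) (by omega) (by omega)
        have := ha (s + n) (by omega) (by omega)
        positivity
      · exact le_rfl
    have h4 : 0 ≤ QS a s (s + n) := by
      refine le_trans ?_ h1
      split_ifs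
      · exact sq_add_nonneg _
      · exact le_rfl
    linarith

/-- nonnegative but for the last member -/
lemma QS_nonneg (a : ℕ → ℤ) {s t : ℕ} (h : s ≤ t) (ha : ∀ k, s ≤ k → k + 1 < t → 0 ≤ a k) :
    0 ≤ QS a s t := by
  rcases Nat.eq_or_lt_of_le h with rfl | h
  · rw [QS_self]
  obtain ⟨n, rfl⟩ : ∃ n, t = n + 1 := ⟨t - 1, by omega⟩
  have h1 := QS_pos a (s := s) (t := n) (by omega) fun k hk hk' => ha k hk (by omega)
  rw [QS_top a (by omega)]
  by_cases hc : s < n
  · rw [if_pos hc] at h1 ⊢
    have h2 := sq_add_nonneg (a (n - 1) + a n)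
    nlinarith
  · rw [if_neg hc] at h1 ⊢
    have h2 := sq_add_nonneg (a n)
    linarith

/-- the case of equality -/
lemma QS_zero (a : ℕ → ℤ) {s t : ℕ} (h : s < t) (ha : ∀ k, s ≤ k → k + 1 < t → 0 ≤ a k)
    (h0 : QS a s t = 0) : (∀ k, s ≤ k → k + 2 < t → a k = 0) ∧
      (s + 1 < t → (a (t - 2) + a (t - 1)) ^ 2 + (a (t - 2) + a (t - 1)) = 0) ∧
      (s + 1 = t → a (t - 1) ^ 2 + a (t - 1) = 0) := by
  obtain ⟨n, rfl⟩ : ∃ n, t = n + 1 := ⟨t - 1, by omega⟩
  have h1 := QS_pos a (s := s) (t := n) (by omega) fun k hk hk' => ha k hk (by omega)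
  rw [QS_top a (by omega)] at h0
  by_cases hc : s < n
  · rw [if_pos hc] at h1 h0
    have e : n + 1 - 2 = n - 1 := by omega
    have e' : n + 1 - 1 = n := by omega
    rw [e, e']
    have h2 := sq_add_nonneg (a (n - 1) + a n)
    have h3 : QS a s n = a (n - 1) ^ 2 + a (n - 1) := by nlinarith
    refine ⟨?_, fun _ => by nlinarith, fun h' => by omega⟩
    obtain ⟨p, rfl⟩ : ∃ p, n = p + 1 := ⟨n - 1, by omega⟩
    rw [QS_top a (by omega), show p + 1 - 1 = p by omega] at h3
    have h4 : (0 : ℤ) ≤ if s < p then 2 * a (p - 1) * a p else 0 := by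
      split_ifs with hc'
      · have := ha (p - 1) (by omega) (by omega)
        have := ha p (by omega) (by omega)
        positivity
      · exact le_rfl
    -- the first part vanishes
    have key : ∀ q, s ≤ q → q ≤ p → QS a s q = 0 → ∀ k, s ≤ k → k < q → a k = 0 := by
      intro q
      induction q with
      | zero => intro _ _ _ k _ hk; omega
      | succ q ihq =>
        intro hq hq' hz k hk hk'
        rcases Nat.lt_or_ge s (q + 1) with hsq | hsq
        · have g1 := QS_pos a (s := s) (t := q) (by omega) fun k hk hk' => ha k hk (by omega)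
          have g1' : 0 ≤ QS a s q := by
            refine le_trans ?_ g1
            split_ifs
            · exact sq_add_nonneg _
            · exact le_rfl
          rw [QS_top a (by omega)] at hz
          have g2 : (0 : ℤ) ≤ if s < q then 2 * a (q - 1) * a q else 0 := by
            split_ifs with hc'
            · have := ha (q - 1) (by omega) (by omega)
              have := ha q (by omega) (by omega)
              positivity
            · exact le_rfl
          have g3 := ha q (by omega) (by omega)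
          have g4 : a q = 0 := by nlinarith
          rcases Nat.eq_or_lt_of_le (Nat.lt_succ_iff.1 hk') with rfl | hlt
          · exact g4
          · refine ihq (by omega) (by omega) (by nlinarith) k hk hlt
        · omega
    intro k hk hk'
    refine key p (by omega) le_rfl ?_ k hk (by omega)
    have g1 := QS_pos a (s := s) (t := p) (by omega) fun k hk hk' => ha k hk (by omega)
    have g1' : 0 ≤ QS a s p := by
      refine le_trans ?_ g1
      split_ifs
      · exact sq_add_nonneg _
      · exact le_rfl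
    linarith
  · have hs : s = n := by omega
    subst hs
    rw [if_neg hc, QS_self] at h0
    refine ⟨fun k hk hk' => by omega, fun h' => by omega, fun _ => ?_⟩
    rw [show s + 1 - 1 = s by omega]
    linarith

end Pool.Agent.GaussPoset.Win.W4
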