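import Pool.Agent.W_448kf_h15.KfE

/-!
MP_448cb3_co, G2, case B, window `j`: `F` of a part with the pattern [DL]: the form with squares, the
elements over three sites, bounds.  helper15.
-/

namespace Pool.Agent.GaussPoset.Win.W4

set_option linter.unusedSectionVars false

open Finset
open Pool.Agent.GaussPoset.Win.SO (PN vp con on mem_PN vp_PD vp_PU TD)

universe u

variable {P : Type u} [Fintype P] [PartialOrder P] [DecidableEq P] {r i : ℕ}
variable {psi : P → P} {C K : Finset P} {w v : P} {m : ℕ} {x : ℕ → P}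

/-- lower elements over the sites `x 2, x 3, x 4` and two doubles -/
noncomputable def TLs (i : ℕ) (C : Finset P) (x : ℕ → P) : Finset P :=
  (T4 i C).filter (fun z => i < lev z ∧ sit i z = ed x 2 ∪ ed x 3)

/-- upper elements over the sites `x 2, x 3, x 4` and two doubles -/
noncomputable def TUs (i : ℕ) (C : Finset P) (x : ℕ → P) : Finset P :=
  (T4 i C).filter (fun z => lev z < i ∧ sit i z = ed x 2 ∪ ed x 3)

/-- the elements over three sites with a single cover -/
noncomputable def OCs (i : ℕ) (C : Finset P) (w v : P) : ℤ :=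
  ∑ z ∈ Z4 i C \ T4 i C, (2 - 2 * (tz i z * (Nx i w z - Nx i v z)))

lemma tz_le (z : P) : tz i z * (Nx i w z - Nx i v z) ≤ 1 := by
  unfold tz Nx
  split_ifs <;> norm_num

lemma OCs_nonneg : 0 ≤ OCs i C w v := by
  unfold OCs
  refine sum_nonneg fun z _ => ?_
  have := tz_le (i := i) (w := w) (v := v) z
  linarith

lemma Zs_split : Zs i C w v = OCs i C w v - 2 * ∑ z ∈ T4 i C, tz i z * (Nx i w z - Nx i v z) := by
  classical
  have h1 := T4_subset i C
  have h2 := card_sdiff_add_card_eq_card h1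
  have h3 := sum_sdiff (f := fun z => tz i z * (Nx i w z - Nx i v z)) h1
  unfold Zs OCs
  rw [← h3, sum_sub_distrib, ← mul_sum]
  rw [sum_const, nsmul_eq_mul]
  have h4 : ((Z4 i C).card : ℤ) = ((Z4 i C \ T4 i C).card : ℤ) + (T4 i C).card := by
    exact_mod_cast h2.symm
  rw [h4]
  ring

namespace DLr

variable (h : DLr r i K psi C w v m x)
include h

/-- `N_k ≥ 0` at the inner edges -/
lemma NE_nonneg {k : ℕ} (h1 : 1 ≤ k) (h2 : k + 2 ≤ m) : 0 ≤ NE i C x k := by
  unfold NE
  rw [h.W.ue_inner h1 h2, card_empty]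
  push_cast
  omega

lemma sum_QS : ∑ p ∈ PN i C, vp i p + ∑ q ∈ M4 i C, vp i q.1 * vp i q.2 =
    QS (NE i C x) 0 m := by
  rw [h.W.sum_M4_row h.hd]
  have e1 := h.sum_PN (fun z => vp i z) (fun _ => 1)
  simp only [mul_one] at e1
  rw [e1]
  simp only [← NE_eq]
  unfold QS
  rw [← range_eq_Ico, add_comm]
  congr 1
  refine sum_congr rfl fun k hk => ?_
  congr 1
  refine sum_congr rfl fun l hl => ?_
  rw [mem_range] at hk hl
  have e : (¬ Disjoint (ed x k) (ed x l)) ↔ (k ≤ l + 1 ∧ l ≤ k + 1) := by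
    rw [h.W.disj_ed hk hl]
    omega
  simp only [e]

lemma num_QS : 2 * (((DC i C).card : ℤ) - (DU i C).card) + (D2 i C).card =
    QS (NE i C x) 0 m := by
  rw [← h.sum_QS]
  exact (num_form h.W.H h.W.uc1).symm

/-- `F` with squares, at least five sites -/
theorem F_form (hm4 : 4 ≤ m) : Fv i C = (NE i C x 0 + (uc (x 0)).card - 1) ^ 2 +
    (NE i C x 0 + (uc (x 0)).card - 1) + QS (NE i C x) 3 m + 4 + Zs i C w v - CH i C x 2 := by
  rw [h.F_eq hm4, h.num_QS, QS_bot _ (by omega), QS_bot _ (by omega), QS_bot _ (by omega)]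
  rw [if_pos (by omega), if_pos (by omega), if_pos (by omega), h.NE1, h.NE2]
  ring

/-- an element over two doubles -/
lemma T_vals {z : P} {k : ℕ} (hk : k + 2 ≤ m) (hs : sit i z = ed x k ∪ ed x (k + 1)) :
    Nx i w z = (if 2 ≤ k then 1 else 0) ∧ Nx i v z = (if 3 ≤ k then 1 else 0) := by
  have hm := h.hm
  constructor
  · unfold Nx
    have e : Disjoint (nz i w) (sit i z) ↔ 2 ≤ k := by
      rw [hs, h.nw, disjoint_union_right, h.W.disj_ed (by omega) (by omega),
        h.W.disj_ed (by omega) (by omega)]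
      omega
    simp only [e]
  · unfold Nx
    have e : Disjoint (nz i v) (sit i z) ↔ 3 ≤ k := by
      rw [hs, h.nv, disjoint_union_right, h.W.disj_ed (by omega) (by omega),
        h.W.disj_ed (by omega) (by omega)]
      omega
    simp only [e]

lemma T_index {k l : ℕ} (hk : k + 2 ≤ m) (hl : l + 2 ≤ m)
    (hs : ed x k ∪ ed x (k + 1) = ed x l ∪ ed x (l + 1)) : k = l := by
  have key : ∀ k l, k + 2 ≤ m → l + 2 ≤ m → ed x k ∪ ed x (k + 1) = ed x l ∪ ed x (l + 1) →
      l ≤ k ∧ k ≤ l + 2 := by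
    intro k l hk hl hs
    have h1 : x k ∈ ed x l ∪ ed x (l + 1) := by
      rw [← hs]
      exact mem_union_left _ ((h.W.mem_ed (by omega) (by omega)).2 (Or.inl rfl))
    rw [mem_union, h.W.mem_ed (by omega) (by omega), h.W.mem_ed (by omega) (by omega)] at h1
    omega
  have h1 := key k l hk hl hs
  have h2 := key l k hl hk hs.symm
  omega

lemma T4_term (hm4 : 4 ≤ m) {z : P} (hz : z ∈ T4 i C) :
    tz i z * (Nx i w z - Nx i v z) =
      (if lev z < i ∧ sit i z = ed x 2 ∪ ed x 3 then 1 else 0) -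
      (if i < lev z ∧ sit i z = ed x 2 ∪ ed x 3 then 1 else 0) := by
  have hlz : i < lev z ∨ lev z < i := by
    rcases mem_Z4.1 (T4_sub hz) with h1 | h1
    · have := (mem_ZL.1 h1).2.1
      omega
    · have := (mem_ZU.1 h1).2.1
      omega
  rcases hlz with hl | hl
  · obtain ⟨k, y, y', hk, -, -, -, -, -, -, hs⟩ := h.W.T_low h.hd hz hl
    obtain ⟨v1, v2⟩ := h.T_vals hk hs
    have e : sit i z = ed x 2 ∪ ed x 3 ↔ k = 2 := by
      rw [hs]
      constructor
      · intro h1
        exact h.T_index hk (by omega) h1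
      · rintro rfl
        rfl
    rw [v1, v2]
    unfold tz
    rw [if_pos hl]
    simp only [e, hl, true_and, show ¬ lev z < i by omega, false_and, if_false]
    split_ifs <;> omega
  · obtain ⟨k, y, y', hk, -, -, -, -, -, -, hs⟩ := h.W.T_upp hz hl
    obtain ⟨v1, v2⟩ := h.T_vals hk hs
    have e : sit i z = ed x 2 ∪ ed x 3 ↔ k = 2 := by
      rw [hs]
      constructor
      · intro h1
        exact h.T_index hk (by omega) h1
      · rintro rfl
        rfl
    rw [v1, v2]
    unfold tz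
    rw [if_neg (by omega)]
    simp only [e, hl, true_and, show ¬ i < lev z by omega, false_and, if_false]
    split_ifs <;> omega

/-- the contribution of the elements over three sites -/
theorem Zs_eq (hm4 : 4 ≤ m) : Zs i C w v = OCs i C w v + 2 * (TLs i C x).card -
    2 * (TUs i C x).card := by
  classical
  rw [Zs_split, sum_congr rfl fun z hz => h.T4_term hm4 hz, sum_sub_distrib]
  unfold TLs TUs
  rw [card_filter, card_filter]
  push_cast
  ring

/-- at most one upper element over `x 2, x 3, x 4` -/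
lemma TUs_le (hm4 : 4 ≤ m) : (TUs i C x).card ≤ 1 := by
  classical
  rw [card_le_one]
  intro z hz z' hz'
  unfold TUs at hz hz'
  rw [mem_filter] at hz hz'
  obtain ⟨k, y, y', hk, hzC, hlz, hne, huc, e1, e2, hs⟩ := h.W.T_upp hz.1 hz.2.1
  obtain ⟨l, q, q', hl, hzC', hlz', hne', huc', e1', e2', hs'⟩ := h.W.T_upp hz'.1 hz'.2.1
  have hk2 : k = 2 := h.T_index hk (by omega) (hs.symm.trans hz.2.2)
  have hl2 : l = 2 := h.T_index hl (by omega) (hs'.symm.trans hz'.2.2)
  subst hk2
  subst hl2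
  have g1 : q = y := h.W.up_uniq (by omega) e1' e1
  have g2 : q' = y' := h.W.up_uniq (by omega) e2' e2
  subst g1
  subst g2
  by_contra hzz
  have hlev : lev z < lev z + 1 := Nat.lt_succ_self _
  have hq : q ∈ dc z := by rw [huc]; exact mem_insert_self _ _
  have hq' : q' ∈ dc z := by rw [huc]; exact mem_insert_of_mem (mem_singleton_self _)
  have hp : q ∈ dc z' := by rw [huc']; exact mem_insert_self _ _
  have hp' : q' ∈ dc z' := by rw [huc']; exact mem_insert_of_mem (mem_singleton_self _)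
  have l1 := lev_cov h.W.H (mem_dc.1 hq)
  have l2 := lev_cov h.W.H (mem_dc.1 hq')
  have c1 := h.W.hC.dn hzC (by omega) (mem_dc.1 hq)
  have c2 := h.W.hC.dn hzC (by omega) (mem_dc.1 hq')
  have h5 := h.W.up1 q c1 q' c2 (by omega) (by omega) hne
  have h6 : ({z, z'} : Finset P) ⊆ univ.filter (fun y => q ⋖ y ∧ q' ⋖ y) := by
    intro s hs
    rw [mem_insert, mem_singleton] at hs
    rw [mem_filter]
    rcases hs with rfl | rfl
    · exact ⟨mem_univ _, mem_dc.1 hq, mem_dc.1 hq'⟩
    · exact ⟨mem_univ _, mem_dc.1 hp, mem_dc.1 hp'⟩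
  have h7 := card_le_card h6
  rw [card_pair hzz] at h7
  unfold ucv at h5
  have h8 : (univ.filter (fun y => q ⋖ y ∧ q' ⋖ y)).card ≤ 1 := by convert h5
  omega

/-- the pendant over `x 2, x 3` and its private children -/
theorem CH2 (hm4 : 4 ≤ m) : ∃ a y, DE i C x 2 = {a} ∧ UE i C x 2 = ∅ ∧ a ∈ C ∧ a ∈ PD P i ∧
    uc a = {y} ∧ uc y = ed x 2 ∧ y ∈ C ∧ CH i C x 2 = 2 * (pen a).card ∧ (pen a).card ≤ 2 := by
  classical
  have H := h.W.H
  have hU := h.W.ue_inner (k := 2) (by omega) (by omega)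
  have h2 := h.NE2
  unfold NE at h2
  rw [hU, card_empty] at h2
  obtain ⟨a, ha⟩ := card_eq_one.1 (show (DE i C x 2).card = 1 by push_cast at h2; omega)
  have ham : a ∈ DE i C x 2 := by rw [ha]; exact mem_singleton_self a
  obtain ⟨haC, haP, has⟩ := mem_DE.1 ham
  obtain ⟨-, y, -, -, -, -, -, hor⟩ := PN_dat H (C := C) (mem_PN.2 ⟨haC, Or.inl haP⟩)
  rcases hor with ⟨-, hla, hly, h4, h5, -, -⟩ | ⟨h3, -⟩
  swap
  · have := lev_PU h3
    have := lev_PD haP
    omega
  have hyC : y ∈ C := h.W.hC.up haC (mem_uc.1 (by rw [h4]; exact mem_singleton_self y))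
  have hye : uc y = ed x 2 := by rw [← h5, has]
  -- the pendants below `y`
  have hpy : pen y = {a} := by
    ext g
    rw [mem_singleton]
    constructor
    · intro hg
      have hgu := uc_pen hg
      have hgl := lev_cov H (mem_pen.1 hg).1
      have hgC := h.W.cl g y hyC hgu
      have : g ∈ DE i C x 2 := by
        refine mem_DE.2 ⟨hgC, mem_PD.2 ⟨by omega, by rw [hgu, card_singleton], y,
          (mem_pen.1 hg).1, ?_⟩, ?_⟩
        · rw [hye]
          exact h.W.card_ed (by omega)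
        · rw [SO.sit_PD H (by omega) hgu, hye]
      rw [ha, mem_singleton] at this
      exact this
    · rintro rfl
      exact mem_pen.2 ⟨mem_uc.1 (by rw [h4]; exact mem_singleton_self y), by rw [h4, card_singleton]⟩
  have hPN : (PN i C).filter (fun z => sit i z = ed x 2) = {a} := by
    rw [PN_eq, filter_union]
    have e1 : (DC i C).filter (fun z => sit i z = ed x 2) = {a} := ha
    have e2 : (UC i C).filter (fun z => sit i z = ed x 2) = ∅ := hU
    rw [e1, e2, union_empty]
  refine ⟨a, y, ha, hU, haC, haP, h4, hye, hyC, ?_, h.W.pen_le a⟩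
  unfold CH
  rw [hPN, sum_singleton, vp_PD haP, h.W.ch_PD haP haC h4, hpy, card_singleton]
  push_cast
  ring

/-- `F ≥ 0` if the doubled end is closed, at least five sites -/
theorem F_closed (hm4 : 4 ≤ m) (hn : (uc (x 0)).card = 2) : 0 ≤ Fv i C := by
  have hU := h.W.ue_zero (by omega) hn
  obtain ⟨a, y, -, -, -, -, -, -, -, h1, h2⟩ := h.CH2 hm4
  have h3 := h.TUs_le hm4
  have h4 := OCs_nonneg (i := i) (C := C) (w := w) (v := v)
  have h5 : 0 ≤ NE i C x 0 := by
    unfold NE
    rw [hU, card_empty]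
    push_cast
    omega
  have h6 := QS_nonneg (NE i C x) (s := 3) (t := m) (by omega)
    fun k hk hk' => h.NE_nonneg (by omega) (by omega)
  rw [h.F_form hm4, h.Zs_eq hm4, h1, hn]
  push_cast
  nlinarith

/-- the cases `F = 0`, the doubled end closed, at least five sites -/
theorem F_closed_zero (hm4 : 4 ≤ m) (hn : (uc (x 0)).card = 2)
    (hF : Fv i C = 0) : DE i C x 0 = ∅ ∧ QS (NE i C x) 3 m = 0 ∧ OCs i C w v = 0 ∧
      TLs i C x = ∅ ∧ (TUs i C x).card = 1 ∧
      ∃ a y, DE i C x 2 = {a} ∧ a ∈ C ∧ a ∈ PD P i ∧ uc a = {y} ∧ uc y = ed x 2 ∧ y ∈ C ∧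
        (pen a).card = 2 := by
  have hU := h.W.ue_zero (by omega) hn
  obtain ⟨a, y, k1, -, k3, k4, k5, k6, k7, h1, h2⟩ := h.CH2 hm4
  have h3 := h.TUs_le hm4
  have h4 := OCs_nonneg (i := i) (C := C) (w := w) (v := v)
  have h5 : NE i C x 0 = (DE i C x 0).card := by
    unfold NE
    rw [hU, card_empty]
    push_cast
    omega
  have h6 := QS_nonneg (NE i C x) (s := 3) (t := m) (by omega)
    fun k hk hk' => h.NE_nonneg (by omega) (by omega)
  rw [h.F_form hm4, h.Zs_eq hm4, h1, hn, h5] at hF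
  push_cast at hF
  have h7 : (0 : ℤ) ≤ ((DE i C x 0).card : ℤ) := by omega
  have h8 : ((DE i C x 0).card : ℤ) = 0 := by nlinarith
  rw [h8] at hF
  refine ⟨card_eq_zero.1 (by exact_mod_cast h8), by omega, by omega,
    card_eq_zero.1 (by omega), by omega, a, y, k1, k3, k4, k5, k6, k7, by omega⟩

/-- the fold end: a lower bound -/
theorem F_fold (hm4 : 4 ≤ m) : -2 + OCs i C w v + 2 * (TLs i C x).card ≤ Fv i C := by
  obtain ⟨a, y, -, -, -, -, -, -, -, h1, h2⟩ := h.CH2 hm4
  have h3 := h.TUs_le hm4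
  have h5 := sq_add_nonneg (NE i C x 0 + (uc (x 0)).card - 1)
  have h6 := QS_nonneg (NE i C x) (s := 3) (t := m) (by omega)
    fun k hk hk' => h.NE_nonneg (by omega) (by omega)
  rw [h.F_form hm4, h.Zs_eq hm4, h1]
  push_cast
  omega

end DLr

end Pool.Agent.GaussPoset.Win.W4
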