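import Pool.Agent.W_448kf_h15.KfH
import Pool.Agent.W_448p6_h15.PA

/-!
MP_448cb3_co, G2, case B, window `j`: the patterns [DL] of the rows of case B are in the frame `DLr`;
`F ≥ 0` for the closed ones.  helper15.
-/

namespace Pool.Agent.GaussPoset.EK

set_option linter.unusedSectionVars false

open Finset Win St Polynomial Wd Win.W4
open Pool.Agent.GaussPoset.Win.SO (PN vp)

universe u

variable {P : Type u} [Fintype P] [PartialOrder P] [DecidableEq P] {r i j : ℕ}

variable {m : ℕ} {x : ℕ → P} {c : ℕ → ℤ} {β : ℤ} {t : Tops P}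

variable {K : Finset P} {psi : P → P}

/-- common lower covers in a row of case B -/
lemma RowB.dcv_x (H : Gr P r) (B : RowB P j t m x c β) {k l : ℕ} (hkl : k < l) (hl : l ≤ m) :
    (dcv (x k) (x l) : ℤ) = if l = k + 1 then c k + 1 else if k = 0 ∧ l = m then β else 0 := by
  have h1 := B.row.df k l hkl hl
  have hne : x k ≠ x l := fun h => by
    have := B.row.inj k l (by omega) hl h
    omega
  rw [Df_pair H (B.row.lev_x k (by omega)) hne, B.ucv_x k l hkl hl] at h1
  by_cases h2 : l = k + 1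
  · rw [if_pos h2, if_pos h2] at h1
    rw [if_pos h2]
    push_cast at h1
    linarith
  · rw [if_neg h2, if_neg h2] at h1
    rw [if_neg h2]
    push_cast at h1
    linarith

/-- an unmatched lower double over a pair with a surplus -/
lemma Red.exL (R : Red P j K psi) {S : Finset P} (hS : Df j S = 1) :
    ∃ w, w ∈ K ∧ w ∈ dbL P j ∧ uc w = S := by
  have h1 := R.nL S
  rw [hS] at h1
  have h2 : 0 < (K ∩ CoreC_L j S).card := by
    have : max (1 : ℤ) 0 = 1 := by norm_num
    omega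
  obtain ⟨w, hw⟩ := card_pos.1 h2
  rw [mem_inter, mem_CoreC_L] at hw
  exact ⟨w, hw.1, hw.2.1, hw.2.2⟩

lemma Red.exU (R : Red P j K psi) {S : Finset P} (hS : Df j S = -1) :
    ∃ w, w ∈ K ∧ w ∈ dbU P j ∧ dc w = S := by
  have h1 := R.nU S
  rw [hS] at h1
  have h2 : 0 < (K ∩ CoreC_U j S).card := by
    have : max (-(-1) : ℤ) 0 = 1 := by norm_num
    omega
  obtain ⟨w, hw⟩ := card_pos.1 h2
  rw [mem_inter, mem_CoreC_U] at hw
  exact ⟨w, hw.1, hw.2.1, hw.2.2⟩

lemma Red.uniq (R : Red P j K psi) {S : Finset P} (hS : |Df j S| = 1) {y y' : P} (hy : y ∈ K)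
    (hy' : y' ∈ K) (e : ns j y = S) (e' : ns j y' = S) : y = y' := by
  have h1 := R.fib S
  rw [hS] at h1
  have h2 : (K.filter (fun x => ns j x = S)).card = 1 := by exact_mod_cast h1
  obtain ⟨w, hw⟩ := card_eq_one.1 h2
  have h3 : y ∈ K.filter (fun x => ns j x = S) := mem_filter.2 ⟨hy, e⟩
  have h4 : y' ∈ K.filter (fun x => ns j x = S) := mem_filter.2 ⟨hy', e'⟩
  rw [hw, mem_singleton] at h3 h4
  rw [h3, h4]

/-- the part of a row with exactly two unmatched doubles, a lower and an upper one -/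
theorem NJ.k5 (h : NJ P r j) (hj : 2 ≤ j) (R : Red P j K psi) (B : RowB P j t m x c β)
    {w v : P} {S S' : Finset P} (hS : Df j S = 1) (hS' : Df j S' = -1) (wK : w ∈ K) (vK : v ∈ K)
    (wd : w ∈ dbL P j) (vd : v ∈ dbU P j) (ew : uc w = S) (ev : dc v = S')
    {p q : ℕ} (hp : p ≤ m) (hq : q ≤ m) (hpS : x p ∈ S) (hqS : x q ∈ S')
    (hall : ∀ y ∈ K, topOf y = t → ns j y = S ∨ ns j y = S') :
    K5 r j K psi (cext (j + 1) (topOf : P → Tops P) t) w v := by
  classical
  have H := h.g.H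
  have hC := part_cext H (le_refl (j + 1)) h.split t
  have hxC : ∀ p, p ≤ m → x p ∈ cext (j + 1) (topOf : P → Tops P) t := fun p hp' =>
    mem_cext_of_le h.split (by rw [B.row.lev_x p hp']; omega) (B.row.kap p hp')
  have lw := (mem_dbL.1 wd).1
  have lv := (mem_dbU.1 vd).1
  refine ⟨H, by omega, h.hr, R.mat, hC, ?_, ?_, ?_, lw, lv, ?_, ?_⟩
  · intro y hy
    constructor
    · intro hyK
      have ht := kap_of_cext (R.sub hyK) hy
      rcases hall y hyK ht with e | e
      · exact Or.inl (R.uniq (by rw [hS, abs_one]) hyK wK e (by rw [ns_L wd, ew]))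
      · exact Or.inr (R.uniq (by rw [hS', abs_neg, abs_one]) hyK vK e (by rw [ns_U vd, ev]))
    · rintro (rfl | rfl) <;> assumption
  · exact hC.dn (hxC p hp) (by rw [B.row.lev_x p hp]; omega) (mem_uc.1 (by rw [ew]; exact hpS))
  · exact hC.up (hxC q hq) (mem_dc.1 (by rw [ev]; exact hqS))
  · intro z _ hz y hy y' hy' h2 h2'
    by_cases he : y = y'
    · subst he
      rw [inter_self]
      exact card_pos.1 (by omega)
    · obtain ⟨q, h3, h4⟩ := NJ.noQ h hj z hz y hy y' hy' he h2 h2'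
      exact ⟨q, mem_inter.2 ⟨h3, h4⟩⟩
  · intro z _ hz y hy y' hy' h2 h2'
    by_cases he : y = y'
    · subst he
      rw [inter_self]
      exact card_pos.1 (by omega)
    · have l1 := lev_dc H hy
      have l2 := lev_dc H hy'
      have g1 := h.g.good (j - 1) (by omega) y y' (by omega) (by omega) he
      have g2 := StA_ucv_pos (mem_dc.1 hy) (mem_dc.1 hy')
      rw [g1] at g2
      unfold dcv at g2
      obtain ⟨q, hq⟩ := card_pos.1 (show 0 < _ from g2)
      rw [mem_filter] at hq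
      exact ⟨q, mem_inter.2 ⟨mem_dc.2 hq.2.1, mem_dc.2 hq.2.2⟩⟩

/-- the pattern [DL] at the left end of a row of case B with `w3 = 0` -/
theorem NJ.dlr (h : NJ P r j) (hj : 2 ≤ j) (R : Red P j K psi) (B : RowB P j t m x c β)
    (hm : 3 ≤ m) (hβ : β = 0) (c0 : c 0 = 1) (c1 : c 1 = -1) (c2 : ∀ k, 2 ≤ k → k < m → c k = 0)
    (hw3 : I2.w3 (I2.bb j (j + 1) (topOf : P → Tops P) t)
      (I2.VV j (j + 1) (topOf : P → Tops P) t) = 0) :
    ∃ w v, DLr r j K psi (cext (j + 1) (topOf : P → Tops P) t) w v m x := by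
  have H := h.g.H
  have W := NJ.prow h hj B (by omega)
  have d0 : Df j {x 0, x 1} = 1 := by
    rw [B.row.df 0 1 (by omega) (by omega), if_pos rfl]
    exact c0
  have d1 : Df j {x 1, x 2} = -1 := by
    rw [B.row.df 1 2 (by omega) (by omega), if_pos rfl]
    exact c1
  obtain ⟨w, wK, wd, ew⟩ := R.exL d0
  obtain ⟨v, vK, vd, ev⟩ := R.exU d1
  have hall : ∀ y ∈ K, topOf y = t → ns j y = {x 0, x 1} ∨ ns j y = {x 1, x 2} := by
    intro y hyK ht
    obtain ⟨p, q, h3, h4, h5, h6⟩ := B.row.pair R H h.split hyK ht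
    rcases h6 with ⟨h6, h7⟩ | ⟨-, -, -, h7⟩
    · have hp2 : p = 0 ∨ p = 1 := by
        by_contra h8
        exact h7 (c2 p (by omega) (by omega))
      rcases hp2 with rfl | rfl
      · left; rw [h5, h6]
      · right; rw [h5, h6]
    · exact absurd hβ h7
  have Q : K5 r j K psi (cext (j + 1) (topOf : P → Tops P) t) w v :=
    NJ.k5 h hj R B d0 d1 wK vK wd vd ew ev (p := 0) (q := 1) (by omega) (by omega)
      (mem_insert_self _ _) (mem_insert_self _ _) hall
  refine ⟨w, v, W, Q, hm, ew, ev, ?_, ?_⟩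
  · intro k l hkl hl
    have h1 := B.dcv_x H hkl hl
    by_cases h2 : l = k + 1
    · rw [if_pos h2] at h1 ⊢
      by_cases h3 : k = 0
      · subst h3
        rw [c0] at h1
        rw [if_pos rfl]
        omega
      · rw [if_neg h3]
        by_cases h4 : k = 1
        · subst h4
          rw [c1] at h1
          rw [if_pos rfl]
          omega
        · rw [if_neg h4]
          rw [c2 k (by omega) (by omega)] at h1
          omega
    · rw [if_neg h2, hβ] at h1
      rw [if_neg h2]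
      split_ifs at h1 <;> omega
  · have n01 : x 0 ≠ x 1 := W.ne (by omega) (by omega) (by omega)
    have n12 : x 1 ≠ x 2 := W.ne (by omega) (by omega) (by omega)
    have n02 : x 0 ≠ x 2 := W.ne (by omega) (by omega) (by omega)
    have h1 := Q.be3_raw ew ev n01 n12 n02
    have h2 : I2.w3 (I2.bb j (j + 1) (topOf : P → Tops P) t)
        (I2.VV j (j + 1) (topOf : P → Tops P) t) =
        lc (st j (cext (j + 1) (topOf : P → Tops P) t)).card 2
          (ZC j (cext (j + 1) (topOf : P → Tops P) t) 3) := by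
      unfold I2.w3 I2.bb I2.VV lc
      rw [coeff_ZS]
    rw [h2] at hw3
    rw [hw3] at h1
    linarith

lemma Fv_eq_Fn (i : ℕ) (C : Finset P) : Fv i C = Fn i C := rfl

/-- `F ≥ 0` for the closed pattern [DL] at the left end, at least five sites -/
theorem NJ.F_dl (h : NJ P r j) (hj : 2 ≤ j) (B : RowB P j t m x c β)
    (hm : 4 ≤ m) (hβ : β = 0) (c0 : c 0 = 1) (c1 : c 1 = -1) (c2 : ∀ k, 2 ≤ k → k < m → c k = 0)
    (hw3 : I2.w3 (I2.bb j (j + 1) (topOf : P → Tops P) t)
      (I2.VV j (j + 1) (topOf : P → Tops P) t) = 0) (hcl : (uc (x 0)).card = 2) :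
    0 ≤ Fn j (cext (j + 1) (topOf : P → Tops P) t) := by
  obtain ⟨K, psi, R⟩ := exists_red P j
  obtain ⟨w, v, D⟩ := NJ.dlr h hj R B (by omega) hβ c0 c1 c2 hw3
  exact D.F_closed hm hcl

end Pool.Agent.GaussPoset.EK
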